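import Mathlib
import Pool.Agent.Lib.MP_13801a_an.BlowAll

open Pool.Agent.Lib.MP_13801a_an.Blow

namespace Pool.Agent.Lib.Old.A13801aAllDim

/-- Every dimension `N ≥ 1` and every exponent `4 / N < α < 4 / (N - 2)`. For nonzero data in the
Sobolev space and all large `γ` there is no global solution. -/
theorem result :
    ∀ (N : ℕ) (α : ℝ), 1 ≤ N → 4 / (N : ℝ) < α → (3 ≤ N → α < 4 / ((N : ℝ) - 2)) →
      ∀ (u0 : E N → ℂ) (du0 : Fin N → E N → ℂ), InH1 u0 du0 → ¬ AeEq u0 0 →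
        ∃ γ0 : ℝ, 0 < γ0 ∧ ∀ γ : ℝ, γ0 < γ →
          ¬ ∃ (u : ℝ → E N → ℂ) (du : ℝ → Fin N → E N → ℂ),
            GlobalSol α γ u du ∧ AeEq (u 0) u0 :=
  fun _ _ hN h1 h2 => large hN h1 h2

end Pool.Agent.Lib.Old.A13801aAllDim
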