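import Pool.Agent.Lib.MP_2dc536_an.Upper

namespace Pool.Agent.Lib.Old.A2dc536AlmostBounded

open Real Set MeasureTheory
open Pool.Agent.Lib.MP_2dc536_an

theorem result (f : ℝ → ℝ)
    (hf : ∀ x : ℝ, f x = x + 1 / 4 - (x / 2 + 1 / 4) * Real.cos (Real.pi * x))
    (M X : ℝ) (hM0 : 0 < M) (hX : 0 ≤ X) :
    MeasureTheory.volume {x : ℝ | x ∈ Set.Icc 0 X ∧ ∀ k : ℕ, M ≤ f^[k] x} ≤
      ENNReal.ofReal (60000 * X / M ^ (1 / 4 : ℝ)) := by
  obtain rfl : f = ff := funext hf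
  have hq := qq_pos hM0
  rw [← qq_eq_rpow hM0.le]
  rcases le_or_gt M (7000 ^ 4) with h | h
  · refine (measure_mono (sep_subset _ _)).trans ?_
    rw [Real.volume_Icc, sub_zero]
    refine ENNReal.ofReal_le_ofReal ?_
    have : qq M ≤ 7000 := qq_le (by norm_num) hM0.le h
    rw [le_div_iff₀ hq]
    nlinarith
  · have h1 := Nat.lt_floor_add_one M
    have h2 : 6000 ≤ qq (⌊M⌋₊ : ℕ) := le_qq (by norm_num) (by norm_num at h; linarith)
    have h3 : qq M ≤ 2 * qq (⌊M⌋₊ : ℕ) := by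
      refine qq_le (by positivity) hM0.le ?_
      rw [mul_pow, qq_pow (Nat.cast_nonneg _)]
      norm_num at h
      linarith
    refine le_trans (measure_mono ?_) ((bad_le' h2 hX).trans (ENNReal.ofReal_le_ofReal ?_))
    · exact fun x hx => ⟨hx.1, fun k => (Nat.floor_le hM0.le).trans (hx.2 k)⟩
    · rw [div_le_div_iff₀ (by linarith) hq]
      nlinarith

end Pool.Agent.Lib.Old.A2dc536AlmostBounded
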