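import Pool.Agent.Lib.MP_2dc536_an.X.Low
import Pool.Agent.Lib.MP_2dc536_an.X.Glue

namespace Pool.Agent.Lib.Old.A2dc536MajorityBasin

open Real Set MeasureTheory
open Pool.Agent.Lib.MP_2dc536_an

theorem result (f : ℝ → ℝ)
    (hf : ∀ x : ℝ, f x = x + 1 / 4 - (x / 2 + 1 / 4) * Real.cos (Real.pi * x)) :
    ∃ X₀ : ℝ, ∀ X : ℝ, X₀ ≤ X →
      ∫⁻ y in {x : ℝ | x ∈ Set.Icc 1 X ∧ ∀ k : ℕ, f^[k] x ∉ Set.Icc (1 : ℝ) (12 / 5)},
        ENNReal.ofReal (1 / y) ≤ ENNReal.ofReal (9 / 20 * Real.log X) := by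
  obtain rfl : f = ff := funext hf
  refine X.glue (by norm_num) (by norm_num) (by norm_num) X.low_all ?_
  have h1 : (3872 / 100 : ℝ) ≤ √(((1503 : ℕ) : ℝ) - 3) := Real.le_sqrt_of_sq_le (by norm_num)
  have h2 : (81 / 100 : ℝ) / √(((1503 : ℕ) : ℝ) - 3) ≤ 81 / 100 / (3872 / 100) :=
    div_le_div_of_nonneg_left (by norm_num) (by norm_num) h1
  rw [div_lt_iff₀ (by norm_num)]
  generalize (81 / 100 : ℝ) / √(((1503 : ℕ) : ℝ) - 3) = a at h2 ⊢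
  norm_num at h2 ⊢
  linarith

end Pool.Agent.Lib.Old.A2dc536MajorityBasin
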