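import Pool.Agent.Lib.MP_de9007_nt.PS.Main

/-! A power saving for the exponent of `p` in `a ^ (p - 1) - 1`, uniform in the base. -/

namespace Pool.Agent.Lib.Old.A5e2fbcPowerSaving

open Pool.Agent.Lib.MP_de9007_nt.PS

theorem result : ∃ η C : ℝ, 0 < η ∧ ∀ a p : ℕ, 2 ≤ a → p.Prime → ¬ p ∣ a →
    (padicValNat p (a ^ (p - 1) - 1) : ℝ) ≤ C * (p : ℝ) ^ (1 - η) * Real.log a ^ 2 := by
  obtain ⟨M, Q, hM, H⟩ := unif
  refine ⟨(M : ℝ)⁻¹, 16 * (Q + 1), by positivity, fun a p ha hp hpa => ?_⟩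
  have : Fact p.Prime := ⟨hp⟩
  obtain ⟨n, hn⟩ : ∃ n, n = padicValNat p (a ^ (p - 1) - 1) := ⟨_, rfl⟩
  obtain ⟨h, hh⟩ : ∃ h, h = Nat.log 2 a + 1 := ⟨_, rfl⟩
  rw [← hn]
  have p2 := hp.two_le
  have h1 : a < 2 ^ h := hh ▸ Nat.lt_pow_succ_log_self one_lt_two a
  have a1 : 1 < a ^ (p - 1) := Nat.one_lt_pow (by omega) ha
  have d1 : p ^ n ∣ a ^ (p - 1) - 1 := hn ▸ pow_padicValNat_dvd
  have p1 : (1 : ℝ) ≤ p := by exact_mod_cast hp.one_le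
  have M1 : (M : ℝ)⁻¹ ≤ 1 := inv_le_one_of_one_le₀ (by exact_mod_cast hM)
  have r1 : 1 ≤ (p : ℝ) ^ (1 - (M : ℝ)⁻¹) := Real.one_le_rpow p1 (by linarith)
  have h0 : (1 : ℝ) ≤ h := by exact_mod_cast (by omega : 1 ≤ h)
  have h2 : (h : ℝ) ≤ 4 * Real.log a := by
    have b1 : 1 ≤ Nat.log 2 a := Nat.log_pos one_lt_two ha
    have b2 : ((2 : ℝ) ^ Nat.log 2 a) ≤ a := by exact_mod_cast Nat.pow_log_le_self 2 (by omega)
    have b3 := Real.log_le_log (by positivity) b2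
    rw [Real.log_pow] at b3
    have b4 : (h : ℝ) ≤ 2 * Nat.log 2 a := by exact_mod_cast (by omega : h ≤ 2 * Nat.log 2 a)
    nlinarith [Real.log_two_gt_d9, (Nat.cast_nonneg (Nat.log 2 a) : (0 : ℝ) ≤ _)]
  have h3 : (h : ℝ) ^ 2 ≤ 16 * Real.log a ^ 2 := by nlinarith
  have t1 : (n : ℝ) ≤ h * p := by
    have b1 : 2 ^ n ≤ 2 ^ (h * p) :=
      calc 2 ^ n ≤ p ^ n := Nat.pow_le_pow_left p2 _
        _ ≤ a ^ (p - 1) := (Nat.le_of_dvd (by omega) d1).trans (Nat.sub_le _ _)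
        _ ≤ (2 ^ h) ^ p := (Nat.pow_le_pow_left h1.le _).trans
            (Nat.pow_le_pow_right (by positivity) (Nat.sub_le _ _))
        _ = _ := by rw [← pow_mul]
    exact_mod_cast (Nat.pow_le_pow_iff_right one_lt_two).1 b1
  have key : (n : ℝ) ≤ (Q + 1) * (p : ℝ) ^ (1 - (M : ℝ)⁻¹) * h ^ 2 := by
    have Q0 : (0 : ℝ) ≤ Q := Nat.cast_nonneg _
    have g1 : (1 : ℝ) ≤ h ^ 2 := one_le_pow₀ h0
    rcases lt_or_ge p Q with c | c
    · have c1 : (p : ℝ) ≤ Q + 1 := by exact_mod_cast (by omega : p ≤ Q + 1)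
      calc (n : ℝ) ≤ p * 1 * (h * 1) := by linarith
        _ ≤ (Q + 1) * (p : ℝ) ^ (1 - (M : ℝ)⁻¹) * (h * h) := by gcongr
        _ = _ := by ring
    rcases le_or_gt (h ^ M) p with c' | c'
    · have := le_rpow hM hp.pos (H a 1 h p n hp c (by simp; omega)
        (by rw [Nat.abs_cast]; exact_mod_cast h1.le) (by simpa using one_le_pow₀ one_le_two)
        (by exact_mod_cast hpa) (by exact_mod_cast hp.not_dvd_one) c' (by
          rw [one_pow]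
          have := Int.natCast_dvd_natCast.2 d1
          rwa [Nat.cast_sub a1.le, Nat.cast_pow, Nat.cast_pow] at this))
      calc (n : ℝ) ≤ 1 * (p : ℝ) ^ (1 - (M : ℝ)⁻¹) * 1 := by linarith
        _ ≤ _ := by gcongr; linarith
    · have c1 : (p : ℝ) ^ (M : ℝ)⁻¹ ≤ h := by
        rw [Real.rpow_inv_le_iff_of_pos (by positivity) (by positivity) (by positivity),
          Real.rpow_natCast]
        exact_mod_cast c'.le
      have c2 : (p : ℝ) = (p : ℝ) ^ (1 - (M : ℝ)⁻¹) * (p : ℝ) ^ (M : ℝ)⁻¹ := by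
        rw [← Real.rpow_add (by positivity), sub_add_cancel, Real.rpow_one]
      calc (n : ℝ) ≤ h * p := t1
        _ = 1 * (p : ℝ) ^ (1 - (M : ℝ)⁻¹) * (h * (p : ℝ) ^ (M : ℝ)⁻¹) := by
          conv_lhs => rw [c2]
          ring
        _ ≤ (Q + 1) * (p : ℝ) ^ (1 - (M : ℝ)⁻¹) * (h * h) := by gcongr; linarith
        _ = _ := by ring
  calc (n : ℝ) ≤ _ := key
    _ ≤ (Q + 1) * (p : ℝ) ^ (1 - (M : ℝ)⁻¹) * (16 * Real.log a ^ 2) := by gcongr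
    _ = _ := by ring

end Pool.Agent.Lib.Old.A5e2fbcPowerSaving
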