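import Pool.Agent.Lib.MP_a619ca_an.HxMain

/-!
The minimal Riesz 2-energy of `N` points of the unit sphere of `ℝ³`, minus `N ^ 2 log N / 4` and
divided by `N ^ 2`, tends to the constant conjectured by Brauchart, Hardin and Saff.
-/

open Filter Topology Asymptotics HurwitzZeta

namespace Pool.Agent.Lib.Old.A619caSharpLimit

theorem result :
    ∃ c₁ c₂ d₁ d₂ : ℝ,
      (fun s : ℂ => hurwitzZeta ((1 / 3 : ℝ) : UnitAddCircle) s - 1 / (s - 1)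
          - (c₁ : ℂ) - (d₁ : ℂ) * (1 - s)) =o[𝓝[≠] (1 : ℂ)] (fun s : ℂ => s - 1) ∧
      (fun s : ℂ => hurwitzZeta ((2 / 3 : ℝ) : UnitAddCircle) s - 1 / (s - 1)
          - (c₂ : ℂ) - (d₂ : ℂ) * (1 - s)) =o[𝓝[≠] (1 : ℂ)] (fun s : ℂ => s - 1) ∧
      Tendsto (fun N : ℕ =>
          (sInf {e : ℝ | ∃ x : Fin N → EuclideanSpace ℝ (Fin 3),
                  Function.Injective x ∧ (∀ i, ‖x i‖ = 1) ∧
                  e = ∑ i, ∑ j ∈ Finset.univ.erase i, (‖x i - x j‖ ^ 2)⁻¹}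
            - (1 / 4 : ℝ) * (N : ℝ) ^ 2 * Real.log (N : ℝ)) / (N : ℝ) ^ 2) atTop
        (𝓝 (Real.sqrt 3 / (4 * Real.pi) * (d₂ - d₁) + Real.eulerMascheroniConstant / 4
          - (1 / 4 : ℝ) * Real.log (2 * Real.sqrt 3 * Real.pi))) := by
  obtain ⟨c₁, c₂, d₁, d₂, h1, h2, h3⟩ := Pool.Agent.Lib.MP_a619ca_an.Hx.sharp
  refine ⟨c₁, c₂, d₁, d₂, h1, h2, ?_⟩
  have h4 := h3.tendsto_div_nhds_zero.add_const (Real.sqrt 3 / (4 * Real.pi) * (d₂ - d₁) +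
    Real.eulerMascheroniConstant / 4 - (1 / 4 : ℝ) * Real.log (2 * Real.sqrt 3 * Real.pi))
  rw [zero_add] at h4
  refine h4.congr' ?_
  filter_upwards [eventually_gt_atTop 0] with N hN
  have : (N : ℝ) ≠ 0 := by positivity
  unfold Pool.Agent.Lib.MP_a619ca_an.EE
  field_simp
  ring

end Pool.Agent.Lib.Old.A619caSharpLimit
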