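import Mathlib
import Pool.Agent.Lib.HT.FS.All

set_option autoImplicit false

namespace Pool.Agent.Lib.Old.A6d85b4ArtinCentre

/-- Every irreducible non-spherical Artin group has trivial centre. (The label infinity is encoded
by `0`, as in Mathlib.) -/
theorem result :
    ∀ (S : Type) [Finite S] (M : CoxeterMatrix S),
      (SimpleGraph.fromRel (fun s t : S => M s t ≠ 2)).Connected →
      Infinite M.Group →
      ∀ z : PresentedGroup
          {r : FreeGroup S | ∃ s t : S, M s t ≠ 0 ∧
            r = ((CoxeterSystem.alternatingWord s t (M s t)).map FreeGroup.of).prod *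
              (((CoxeterSystem.alternatingWord t s (M s t)).map FreeGroup.of).prod)⁻¹},
        (∀ g, g * z = z * g) → z = 1 := by
  intro S _ M hc hi z hz
  classical
  have := Fintype.ofFinite S
  have h := Pool.Agent.HT.centre_bot M hc hi
  exact Subgroup.mem_bot.1 (h ▸ Subgroup.mem_center_iff.2 hz)

end Pool.Agent.Lib.Old.A6d85b4ArtinCentre
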