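import Mathlib
import Pool.Agent.Lib.MP_6d85b4_al.Icc.Small

set_option autoImplicit false

namespace Pool.Agent.Lib.Old.A6d85b4PowerCentraliser

/-- In an irreducible non-spherical Artin group with labels in `{2, 3, 4, 5}`, an element commuting
with a positive power of each standard generator is trivial. -/
theorem result :
    ∀ (S : Type) [Finite S] (M : CoxeterMatrix S),
      (SimpleGraph.fromRel (fun s t : S => M s t ≠ 2)).Connected →
      Infinite M.Group →
      (∀ s t : S, s ≠ t → M s t = 2 ∨ M s t = 3 ∨ M s t = 4 ∨ M s t = 5) →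
      ∀ z : PresentedGroup
          {r : FreeGroup S | ∃ s t : S, M s t ≠ 0 ∧
            r = ((CoxeterSystem.alternatingWord s t (M s t)).map FreeGroup.of).prod *
              (((CoxeterSystem.alternatingWord t s (M s t)).map FreeGroup.of).prod)⁻¹},
        (∀ s : S, ∃ k : ℕ, 0 < k ∧
          z * PresentedGroup.of s ^ k = PresentedGroup.of s ^ k * z) → z = 1 := by
  intro S _ M hc hi hM z hz
  classical
  have := Fintype.ofFinite S
  exact Pool.Agent.Lib.MP_6d85b4_al.Icc.small_eq_one hM hc hi hz

end Pool.Agent.Lib.Old.A6d85b4PowerCentraliser
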