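import Mathlib
import Pool.Agent.Lib.MP_81ecef_ag.Defs
import Pool.Agent.Lib.MP_81ecef_ag.Count

/-! For every `c > -9/4` there is an irreducible singular complex plane curve with h-constant
below `c`; in particular there is one with h-constant below `-2`. -/

namespace Pool.Agent.Lib.Old.A81ecefBelowMinusTwo

open Pool.Agent.Lib.MP_81ecef_ag

theorem result (c : ℝ) (hc : -9 / 4 < c) :
    ∃ (F : MvPolynomial (Fin 3) ℂ) (d : ℕ), F.IsHomogeneous d ∧ Irreducible F ∧
      (Sing F).Finite ∧ (Sing F).Nonempty ∧ hConst F < c := by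
  classical
  obtain ⟨k, hk⟩ := exists_nat_gt (3 / (c + 9 / 4))
  have hε : 0 < c + 9 / 4 := by linarith
  rw [div_lt_iff₀ hε] at hk
  obtain ⟨d, G, hd, hG, hirr, hV⟩ := exists_curve (m := 3 * k + 1 + 1) (by omega)
  obtain ⟨T, N, hTN, hT, hN, cT, cN⟩ := exists_points (p := 3 * k + 1) (by omega) hG
    hirr.ne_zero hV
  have hfin := finite_sing hG hirr
  have hsub : T ∪ N ⊆ hfin.toFinset := by
    intro x hx
    rw [Set.Finite.mem_toFinset]
    rcases Finset.mem_union.1 hx with hx | hx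
    · exact le_trans (by norm_num) (hT x hx)
    · exact hN x hx
  have hTne : T.Nonempty := by
    rw [← Finset.card_pos]
    nlinarith
  have hne : hfin.toFinset.Nonempty := hTne.mono (Finset.subset_union_left.trans hsub)
  refine ⟨G, d, hG, hirr, hfin, by simpa using hne, ?_⟩
  unfold hConst
  rw [finsum_mem_eq_finite_toFinset_sum _ hfin, Set.ncard_eq_toFinset_card _ hfin,
    hG.totalDegree hirr.ne_zero, div_lt_iff₀ (by exact_mod_cast hne.card_pos)]
  have h1 : ∑ x ∈ T ∪ N, ((mult G x : ℝ) ^ 2 + c) ≤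
      ∑ x ∈ hfin.toFinset, ((mult G x : ℝ) ^ 2 + c) := by
    refine Finset.sum_le_sum_of_subset_of_nonneg hsub fun x hx _ => ?_
    rw [Set.Finite.mem_toFinset] at hx
    have : (2 : ℝ) ≤ mult G x := by exact_mod_cast (hx : 2 ≤ mult G x)
    nlinarith
  have h2 : T.card • (9 + c) ≤ ∑ x ∈ T, ((mult G x : ℝ) ^ 2 + c) := by
    refine Finset.card_nsmul_le_sum _ _ _ fun x hx => ?_
    have : (3 : ℝ) ≤ mult G x := by exact_mod_cast hT x hx
    nlinarith
  have h3 : N.card • (4 + c) ≤ ∑ x ∈ N, ((mult G x : ℝ) ^ 2 + c) := by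
    refine Finset.card_nsmul_le_sum _ _ _ fun x hx => ?_
    have : (2 : ℝ) ≤ mult G x := by exact_mod_cast hN x hx
    nlinarith
  rw [Finset.sum_union hTN, Finset.sum_add_distrib (s := hfin.toFinset), Finset.sum_const,
    nsmul_eq_mul] at h1
  rw [nsmul_eq_mul] at h2 h3
  have cT' : ((3 * k + 2) * (3 * k + 3) : ℝ) ≤ 3 * T.card := by exact_mod_cast cT
  have cN' : ((3 * k + 1) * (3 * k + 3) : ℝ) ≤ N.card := by exact_mod_cast cN
  have hd' : (d : ℝ) ≤ 2 * (3 * k + 3) := by exact_mod_cast (by omega : d ≤ 2 * (3 * k + 3))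
  have hd2 : (d : ℝ) ^ 2 ≤ (2 * (3 * k + 3)) ^ 2 := by gcongr
  have h4 : (3 * k + 2) * (3 * k + 3) / 3 * (9 + c) ≤ T.card * (9 + c) :=
    mul_le_mul_of_nonneg_right (by linarith) (by linarith)
  have h5 : (3 * k + 1) * (3 * k + 3) * (4 + c) ≤ N.card * (4 + c) :=
    mul_le_mul_of_nonneg_right cN' (by linarith)
  have hk0 : (0 : ℝ) ≤ k := Nat.cast_nonneg k
  have h6 : (2 * (3 * k + 3) : ℝ) ^ 2 <
      (3 * k + 2) * (3 * k + 3) / 3 * (9 + c) + (3 * k + 1) * (3 * k + 3) * (4 + c) := by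
    have : 0 < (3 * k + 3 : ℝ) * (4 * (k * (c + 9 / 4)) + 5 / 3 * (c + 9 / 4) - 23 / 4) :=
      mul_pos (by linarith) (by linarith)
    nlinarith
  linarith

end Pool.Agent.Lib.Old.A81ecefBelowMinusTwo
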