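import Pool.Agent.Lib.MP_8465a2_an.N2.Main
import Pool.Agent.Lib.MP_8465a2_an.N2.Unique

open scoped MeasureTheory

namespace Pool.Agent.Lib.Old.A8465a2LinBound

/-- For each `n ≥ 3` there is `C` such that the critical set in the half ball of every
non-constant harmonic function on the unit ball of `R^n` with bounded gradient has
`(n-2)`-dimensional Hausdorff measure at most `C N^2`, where `N` is the gradient frequency. -/
theorem result :
    ∀ n : ℕ, 3 ≤ n → ∃ C : ℝ, ∀ u : EuclideanSpace ℝ (Fin n) → ℝ,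
      InnerProductSpace.HarmonicOnNhd u (Metric.ball (0 : EuclideanSpace ℝ (Fin n)) 1) →
      (∃ x ∈ Metric.ball (0 : EuclideanSpace ℝ (Fin n)) 1,
        ∃ y ∈ Metric.ball (0 : EuclideanSpace ℝ (Fin n)) 1, u x ≠ u y) →
      BddAbove ((fun x => ‖fderiv ℝ u x‖) '' Metric.ball (0 : EuclideanSpace ℝ (Fin n)) 1) →
      μH[(n : ℝ) - 2]
          ({x : EuclideanSpace ℝ (Fin n) | fderiv ℝ u x = 0} ∩
            Metric.ball (0 : EuclideanSpace ℝ (Fin n)) (1 / 2))
        ≤ ENNReal.ofReal (C * Real.log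
          (sSup ((fun x => ‖fderiv ℝ u x‖) '' Metric.ball (0 : EuclideanSpace ℝ (Fin n)) 1) /
            sSup ((fun x => ‖fderiv ℝ u x‖) ''
              Metric.ball (0 : EuclideanSpace ℝ (Fin n)) (1 / 2))) ^ 2) := by
  intro n hn
  obtain ⟨C, h⟩ := Pool.Agent.LinN2.main n hn
  refine ⟨C, fun u hu hxy hb => ?_⟩
  have h2 : ContDiffOn ℝ 2 u (Metric.ball 0 1) := fun x hx => (hu x hx).1.contDiffWithinAt
  have hsub : Metric.ball (0 : EuclideanSpace ℝ (Fin n)) (1 / 2) ⊆ Metric.ball 0 1 :=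
    Metric.ball_subset_ball (by norm_num)
  have hb' := hb.mono (Set.image_mono (f := fun x => ‖fderiv ℝ u x‖) hsub)
  have hl : ∀ x ∈ Metric.ball (0 : EuclideanSpace ℝ (Fin n)) 1, ∑ i : Fin n,
      iteratedFDeriv ℝ 2 u x (fun _ => EuclideanSpace.single i (1 : ℝ)) = 0 := fun x hx => by
    have := (hu x hx).2.self_of_nhds
    rw [InnerProductSpace.laplacian_eq_iteratedFDeriv_orthonormalBasis u
      (EuclideanSpace.basisFun (Fin n) ℝ)] at this
    refine Eq.trans (Finset.sum_congr rfl fun i _ => ?_) this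
    congr 1
    ext1 j
    fin_cases j <;> simp
  have hpos : 0 < sSup ((fun x => ‖fderiv ℝ u x‖) ''
      Metric.ball (0 : EuclideanSpace ℝ (Fin n)) (1 / 2)) := by
    by_contra hM
    obtain ⟨x, hx, y, hy, hxy⟩ := hxy
    exact hxy (Metric.isOpen_ball.is_const_of_fderiv_eq_zero (convex_ball _ _).isPreconnected
      (h2.differentiableOn (by simp)) (Pool.Agent.LinN2.unique Pool.Agent.LinN2.main hn h2 hl
      fun z hz => norm_le_zero_iff.1 ((le_csSup hb' ⟨z, hz, rfl⟩).trans (not_lt.1 hM))) hx hy)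
  refine h u h2 hl hxy _ fun x hx => ?_
  have h4 := hpos.trans_le (csSup_le_csSup hb ⟨_, 0, by simp, rfl⟩ (Set.image_mono hsub))
  rw [Real.exp_log (div_pos h4 hpos), ← sSup_image' (f := fun x => ‖fderiv ℝ u x‖),
    div_mul_cancel₀ _ hpos.ne']
  exact le_csSup hb ⟨x, hx, rfl⟩

end Pool.Agent.Lib.Old.A8465a2LinBound
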