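import Pool.Agent.Lib.MP_a87542_al.Diagram
import Pool.Agent.Lib.MP_a87542_al.Graph

/-!
A finite lattice `P` and a `P`-indexed commutative diagram of simplicial monoids that lifts, with
respect to `V`, in the category of regular rings (even by unital rings and unital maps), but not in
the category of C*-algebras of real rank zero.
-/

namespace Pool.Agent.Lib.Old.A87542RegNotRR0

open CategoryTheory Pool.Agent.Lib.MP_a87542_al Matrix

universe u

theorem result :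
    ∃ (P : Type) (_ : Lattice P) (_ : Finite P) (M : P ⥤ AddCommMonCat.{u}),
      (∀ p, Simplicial (M.obj p)) ∧
      (∃ R : P ⥤ Reg.{u}, Unital R ∧ Nonempty (R ⋙ VReg ≅ M)) ∧
      ¬ ∃ A : P ⥤ RR0.{u}, Nonempty (A ⋙ VRR0 ≅ M) := by
  let K := ULift.{u} (ZMod 2)
  let ρ : ZMod 2 ≃+* K := ULift.ringEquiv.symm
  let x : Fin 16 → Fin 3 → K := fun v => ρ ∘ X16 v
  let y : Fin 16 → Fin 3 → K := fun v => ρ ∘ Y16 v
  have hd : ∀ u v, y u ⬝ᵥ x v = ρ (Y16 u ⬝ᵥ X16 v) := fun u v =>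
    (RingHom.map_dotProduct ρ.toRingHom _ _).symm
  have hxy : ∀ v, y v ⬝ᵥ x v = 1 := fun v => by rw [hd, Y16_X16, map_one]
  refine ⟨Pt x y, inferInstance, inferInstance, Rf hxy ⋙ VReg, Rf_simplicial hxy,
    ⟨Rf hxy, subDiagram_unital _ _ _, ⟨Iso.refl _⟩⟩, ?_⟩
  rintro ⟨A, ⟨η⟩⟩
  obtain ⟨lam, h0, h⟩ := Rf_no_lift hxy (u0 := 0) (v0 := 1) (by decide)
    (fun h => Y16_X16_ne (ρ.injective (by rw [← hd, h.1, map_zero]))) A η
  exact no_rep lam h0 fun u v huv =>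
    h u v ⟨by rw [hd, huv.1, map_zero], by rw [hd, huv.2, map_zero]⟩

end Pool.Agent.Lib.Old.A87542RegNotRR0
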