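import Mathlib
import Pool.Agent.Lib.MP_a8bb0e_al.Pres

set_option autoImplicit false
open scoped commutatorElement

namespace Pool.Agent.Lib.Old.A8bb0eGenericGenus

/-- For `n ≥ 12` and `16 ≤ m ≤ C(n,2) - 16` there is a nonzero integer polynomial `P` in the
structure constants `τ (a, (i, j))` such that, whenever `P(τ) ≠ 0`, the group with generators
`x i`, `z a`, all `z a` central and `⁅x i, x j⁆ = ∏ a, z a ^ τ (a, (i, j))` for `i < j`, is finitely
generated, nilpotent of class exactly two, and of genus one. -/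
theorem result (n m : ℕ) (hn : 12 ≤ n) (hm : 16 ≤ m) (hm' : m + 16 ≤ n.choose 2) :
    ∃ P : MvPolynomial (Fin m × {q : Fin n × Fin n // q.1 < q.2}) ℤ, P ≠ 0 ∧
      ∀ τ : Fin m × {q : Fin n × Fin n // q.1 < q.2} → ℤ, MvPolynomial.eval τ P ≠ 0 →
      ∀ (x : Fin n → FreeGroup (Fin n ⊕ Fin m)) (z : Fin m → FreeGroup (Fin n ⊕ Fin m))
        (R : Set (FreeGroup (Fin n ⊕ Fin m))),
        (∀ i, x i = FreeGroup.of (Sum.inl i)) → (∀ a, z a = FreeGroup.of (Sum.inr a)) →
        R = {r | (∃ a w, r = ⁅z a, w⁆) ∨ ∃ q : {q : Fin n × Fin n // q.1 < q.2},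
          r = ⁅x q.1.1, x q.1.2⁆ * (List.ofFn fun a => z a ^ τ (a, q)).prod⁻¹} →
        Group.FG (PresentedGroup R) ∧ Group.nilpotencyClass (PresentedGroup R) = 2 ∧
          ∀ (H : Type) [Group H] [Group.IsNilpotent H] [Group.FG H],
            (∀ (Q : Type) [Group Q] [Finite Q], (∃ f : H →* Q, Function.Surjective f) ↔
              (∃ f : PresentedGroup R →* Q, Function.Surjective f)) →
            Nonempty (H ≃* PresentedGroup R) := by
  obtain ⟨P, hP, h⟩ := Pool.Agent.Lib.MP_a8bb0e_al.exists_poly (I := Fin m) hn (by simpa using hm)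
    (by simpa using hm')
  refine ⟨P, hP, fun τ hτ x z R hx hz hR => ?_⟩
  obtain rfl := funext hx
  obtain rfl := funext hz
  subst hR
  exact ⟨Group.fg_of_surjective (PresentedGroup.mk_surjective _),
    Pool.Agent.Lib.MP_a8bb0e_al.genus_GP (h τ hτ) (by omega) (by omega)⟩

end Pool.Agent.Lib.Old.A8bb0eGenericGenus
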