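import Mathlib
import Pool.Agent.Lib.MP_a8bb0e_al.Tor.F

set_option autoImplicit false
open scoped commutatorElement

namespace Pool.Agent.Lib.Old.A8bb0eGenericTorsion

open Pool.Agent.Lib.MP_a8bb0e_al.Tor

/-- For `n ≥ 12` and `16 ≤ m ≤ C(n,2) - 16` there is a nonzero integer polynomial `P` in the
structure constants `τ (a, (i, j))` such that, whenever `P(τ) ≠ 0`, every finitely generated
nilpotent extension `G` of the group with generators `x i`, `z a`, all `z a` central and
`⁅x i, x j⁆ = ∏ a, z a ^ τ (a, (i, j))` for `i < j`, by a finite kernel has genus one if and only if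
it contains a copy of itself of index `u ^ (n + 2 * m)` for every `u` prime to the order of the
kernel; both cases occur. -/
theorem result (n m : ℕ) (hn : 12 ≤ n) (hm : 16 ≤ m) (hm' : m + 16 ≤ n.choose 2) :
    ∃ P : MvPolynomial (Fin m × {q : Fin n × Fin n // q.1 < q.2}) ℤ, P ≠ 0 ∧
      ∀ τ : Fin m × {q : Fin n × Fin n // q.1 < q.2} → ℤ, MvPolynomial.eval τ P ≠ 0 →
      ∀ (x : Fin n → FreeGroup (Fin n ⊕ Fin m)) (z : Fin m → FreeGroup (Fin n ⊕ Fin m))
        (R : Set (FreeGroup (Fin n ⊕ Fin m))),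
        (∀ i, x i = FreeGroup.of (Sum.inl i)) → (∀ a, z a = FreeGroup.of (Sum.inr a)) →
        R = {r | (∃ a w, r = ⁅z a, w⁆) ∨ ∃ q : {q : Fin n × Fin n // q.1 < q.2},
          r = ⁅x q.1.1, x q.1.2⁆ * (List.ofFn fun a => z a ^ τ (a, q)).prod⁻¹} →
        (∀ (G : Type) [Group G] [Group.IsNilpotent G] [Group.FG G] (π : G →* PresentedGroup R),
          Function.Surjective π → Finite π.ker →
            (GenusOne G ↔ ∀ u : ℕ, 0 < u → u.Coprime (Nat.card π.ker) →
              ∃ K : Subgroup G, K.index = u ^ (n + 2 * m) ∧ Nonempty (K ≃* G))) ∧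
        (Group.FG (PresentedGroup R) ∧ Group.nilpotencyClass (PresentedGroup R) = 2 ∧
          GenusOne (PresentedGroup R)) ∧
        ∀ p : ℕ, p.Prime → 5 ≤ p → ∃ (G : Type) (_ : Group G) (π : G →* PresentedGroup R),
          Group.FG G ∧ Group.nilpotencyClass G = 2 ∧ Function.Surjective π ∧
            Nat.card π.ker = p ^ 2 ∧ ¬ GenusOne G := by
  obtain ⟨P, hP, h⟩ := Pool.Agent.Lib.MP_a8bb0e_al.exists_poly (I := Fin m) hn (by simpa using hm)
    (by simpa using hm')
  refine ⟨P, hP, fun τ hτ x z R hx hz hR => ?_⟩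
  obtain rfl := funext hx
  obtain rfl := funext hz
  subst hR
  exact main (h τ hτ) (by omega) (by omega)

end Pool.Agent.Lib.Old.A8bb0eGenericTorsion
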