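import Pool.Agent.Lib.MP_ae8a84_co.NonIso
import Pool.Agent.Lib.MP_ae8a84_co.Upper

namespace Pool.Agent.Lib.Old.Ae8a84ObstructionCount

open Pool.Agent.Lib.MP_ae8a84_co

theorem result (n : ℕ) (hn : 23 ≤ n) :
    ((n - 19) / 4).factorial ≤ count Bigraph.TwoFerrers n := by
  set m := (n - 19) / 4 with hm
  have hk : 5 ≤ m + 4 := by omega
  let G : ((i : Fin m) → Fin (i + 1)) → ℕ → ℕ := fun γ j =>
    if h : j - 3 < m then (γ ⟨j - 3, h⟩ : ℕ) else 0
  have hG : ∀ γ x, G γ x ≤ x - 3 := by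
    intro γ x
    simp only [G]
    split_ifs with h
    · have := (γ ⟨x - 3, h⟩).2
      simp only at this
      omega
    · omega
  have hfin := finite_sub Bigraph.TwoFerrers n
  let F : ((i : Fin m) → Fin (i + 1)) →
      {B : Bigraph // B.MinForb ∧ B.TwoFerrers ∧ B.s + B.t ≤ n} := fun γ =>
    ⟨fam (m + 4) (G γ), fam_minForb hk (hG γ), fam_twoFerrers _ _, by
      show 2 * (m + 4) + 1 + (2 * (m + 4) + 2) ≤ n
      omega⟩
  have hcard : Nat.card ((i : Fin m) → Fin (i + 1)) = m.factorial := by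
    rw [Nat.card_eq_fintype_card, Fintype.card_pi]
    simp only [Fintype.card_fin]
    rw [Fin.prod_univ_eq_prod_range (fun i => i + 1) m, Finset.prod_range_add_one_eq_factorial]
  rw [← hcard]
  refine Nat.card_le_card_of_injective (fun γ => Quot.mk _ (F γ)) ?_
  intro γ δ h
  have hiso := (quot_eq_iff _ _).1 h
  funext i
  have := fam_iso hk (hG γ) (hG δ) hiso (i + 3) (by omega) (by have := i.2; omega)
  simp only [G, Nat.add_sub_cancel, i.2, dite_true] at this
  exact Fin.ext this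

end Pool.Agent.Lib.Old.Ae8a84ObstructionCount
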