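import Mathlib
import Pool.Agent.Lib.MP_b372c7_an.Nearest

set_option autoImplicit false

namespace Pool.Agent.Lib.Old.B372c7NonHilbert

/-- `π` is a metric projection onto `G`. -/
def IsMetricProjection {E : Type} [NormedAddCommGroup E] [NormedSpace ℝ E] (G : Submodule ℝ E)
    (π : E → E) : Prop :=
  ∀ x, π x ∈ G ∧ ‖x - π x‖ = Metric.infDist x (G : Set E)

/-- The `k`-th map of the alternating method, counted from zero. -/
def step {E : Type} (π₁ π₂ : E → E) (k : ℕ) : E → E := if k % 2 = 0 then π₁ else π₂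

/-- The residuals `r_k (x)`. -/
def residual {E : Type} [AddCommGroup E] (π₁ π₂ : E → E) (x : E) : ℕ → E
  | 0 => x
  | k + 1 => residual π₁ π₂ x k - step π₁ π₂ k (residual π₁ π₂ x k)

open Pool.Agent.Lib.MP_b372c7_an in
theorem result :
    ∃ (E : Type) (_ : NormedAddCommGroup E) (_ : NormedSpace ℝ E),
      CompleteSpace E ∧ ¬ FiniteDimensional ℝ E ∧
      Function.Surjective (NormedSpace.inclusionInDoubleDual ℝ E) ∧
      StrictConvexSpace ℝ E ∧
      (∀ G : Submodule ℝ E, IsClosed (G : Set E) → ∃! π : E → E, IsMetricProjection G π) ∧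
      (∀ (G₁ G₂ : Submodule ℝ E) (π₁ π₂ π : E → E), IsClosed (G₁ : Set E) → IsClosed (G₂ : Set E) →
        IsMetricProjection G₁ π₁ → IsMetricProjection G₂ π₂ →
        IsMetricProjection (G₁ ⊔ G₂).topologicalClosure π →
        ∀ x : E, Filter.Tendsto
          (fun n => ∑ k ∈ Finset.range n, step π₁ π₂ k (residual π₁ π₂ x k))
          Filter.atTop (nhds (π x))) ∧
      IsEmpty (InnerProductSpace ℝ E) := by
  let H : Type := lp (fun _ : ℕ => ℝ) 2
  let b : HilbertBasis ℕ ℝ H := ⟨LinearIsometryEquiv.refl ℝ _⟩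
  have hb := b.orthonormal
  have he : ‖b 0‖ = 1 := hb.1 0
  have hw : ‖b 1‖ = 1 := hb.1 1
  have hew : inner ℝ (b 0) (b 1) = 0 := hb.2 (by decide)
  refine ⟨Tw H (b 0), inferInstance, inferInstance, complete he, ?_, reflexive he, ?_, ?_, ?_, ?_⟩
  · intro hfin
    have : FiniteDimensional ℝ H := LinearEquiv.finiteDimensional (toH (b 0))
    exact Module.Finite.not_linearIndependent_of_infinite b hb.linearIndependent
  · exact StrictConvexSpace.of_norm_add_ne_two (fun x y hx hy hxy => (strict x y hx hy hxy).ne)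
  · intro G hG
    choose π h1 h2 using nearest_exists he G hG
    exact ⟨π, fun x => ⟨h1 x, h2 x⟩, fun π' h' => funext fun x =>
      nearest_unique he G x _ _ (h' x).1 (h1 x) (h' x).2 (h2 x)⟩
  · intro G₁ G₂ π₁ π₂ π _ _ h1 h2 h x
    have s1 : ∀ k, residual π₁ π₂ x (2 * k + 1) =
        residual π₁ π₂ x (2 * k) - π₁ (residual π₁ π₂ x (2 * k)) := by
      intro k; rw [residual, step, if_pos (by omega)]
    have s2 : ∀ k, residual π₁ π₂ x (2 * k + 2) =
        residual π₁ π₂ x (2 * k + 1) - π₂ (residual π₁ π₂ x (2 * k + 1)) := by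
      intro k; rw [residual, step, if_neg (by omega)]
    obtain ⟨y, hy, hm, hn⟩ := admits he G₁ G₂ (residual π₁ π₂ x)
      (fun k => by rw [s1, sub_sub_cancel]; exact h1 _)
      (fun k => by rw [s2, sub_sub_cancel]; exact h2 _)
    have hx : residual π₁ π₂ x 0 = x := rfl
    rw [hx] at hm hn
    have e1 : π x = x - y :=
      nearest_unique he _ x _ _ (h x).1 hm (h x).2 (by rw [sub_sub_cancel]; exact hn)
    have e2 : ∀ n, ∑ k ∈ Finset.range n, step π₁ π₂ k (residual π₁ π₂ x k) =
        x - residual π₁ π₂ x n := by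
      intro n
      induction n with
      | zero => simp [hx]
      | succ n ih => rw [Finset.sum_range_succ, ih, residual]; abel
    rw [e1, funext e2]
    exact tendsto_const_nhds.sub hy
  · refine ⟨fun I => not_parallelogram he (b 1) hw hew (fun x y => ?_)⟩
    have := @parallelogram_law_with_norm ℝ _ _ _ I x y
    nlinarith

end Pool.Agent.Lib.Old.B372c7NonHilbert
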