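import Pool.Agent.Lib.MP_3b7d13_co.TrMain

/-! A variational formula for the parity-restricted constants at transcendental radii. -/

namespace Pool.Agent.Lib.Old.B3b7d13Transcendental

open Pool.Agent.Lib.MP_3b7d13_co Filter Topology

theorem transcendental_old : ∀ d : ℕ, 2 ≤ d → ∀ p : ℕ, ∃ r₀ ∈ Set.Icc √((d : ℝ) - 1) √(d : ℝ),
    ∀ r : ℝ, Transcendental ℚ r → p % 2 = d % 2 ∨ d = 2 ∨ r ≠ r₀ →
      Tendsto (fun n : ℕ => ENNReal.ofReal ((n : ℝ) ^ ((d : ℝ) / 2) * F d r n))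
        (atTop ⊓ principal {n | n % 2 = p % 2}) (𝓝 (Gam d p r)) :=
  fun _ hd p => Tr.tendsto_tr hd p

end Pool.Agent.Lib.Old.B3b7d13Transcendental
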