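import Mathlib
import Pool.Agent.Lib.MP_3bedcc_nt.Count

namespace Pool.Agent.Lib.Old.B3bedccNoGenericEscape

open Polynomial Pool.Agent.Lib.MP_3bedcc_nt

/-- Over every finite field of characteristic at least five there are a quadratic irrational `Θ`,
an irreducible `P`, `ε > 0` and `c < 1` such that, for every `n > 1`, the proportion of
`k ∈ {1, …, m}` with `e_{k,n}(Θ) > 1 - ε` is at most `c` for all `m ≥ 2`. -/
theorem result (K : Type) [Field K] [Fintype K] (hK : 5 ≤ ringChar K) :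
    ∃ (Θ : LaurentSeries K) (P : K[X]) (ε c : ℝ),
      IsQuadIrr Θ ∧ Irreducible P ∧ 0 < ε ∧ c < 1 ∧
      (∀ k : ℕ, ∃ N l : ℕ, IsPeriod (Θ * emb P ^ k) N l) ∧
      ∀ N l : ℕ → ℕ, (∀ k : ℕ, IsPeriod (Θ * emb P ^ k) (N k) (l k)) →
        ∀ n : ℕ, 1 < n → ∀ m : ℕ, 2 ≤ m →
          (({k : ℕ | 1 - ε < escape (Θ * emb P ^ k) (N k) (l k) n} ∩ Set.Icc 1 m).ncard : ℝ) / m
            ≤ c := by
  set p := ringChar K with hp
  have : CharP K p := ringChar.charP K
  have : Fact p.Prime := ⟨CharP.char_is_prime K p⟩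
  have h2 : (2 : K) ≠ 0 := by
    intro h
    have := Nat.le_of_dvd (by norm_num) ((CharP.cast_eq_zero_iff K p 2).mp (by exact_mod_cast h))
    omega
  have h3 : (3 : K) ≠ 0 := by
    intro h
    have := Nat.le_of_dvd (by norm_num) ((CharP.cast_eq_zero_iff K p 3).mp (by exact_mod_cast h))
    omega
  obtain ⟨P⟩ := exists_rootPair h2
  have hq : 0 < Fintype.card K := Fintype.card_pos
  have hp0 : 0 < p := by omega
  refine ⟨P.x, X, 1 / (2 * p * Fintype.card K), 1 - 1 / (2 * p), ⟨?_, ?_⟩, irreducible_X,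
    by positivity, ?_, ?_, ?_⟩
  · have := P.irr 0
    rwa [pow_zero, mul_one] at this
  · refine ⟨1, 1 - X, -2, one_ne_zero, ?_⟩
    have := P.hx
    rw [aeval_MM] at this
    rw [emb_sub, emb_neg, emb_one, emb_X, emb_two]
    linear_combination this
  · have : (0 : ℝ) < 1 / (2 * p) := by positivity
    linarith
  · intro k
    rw [emb_X]
    exact P.exists_period k
  · intro N l hper n hn m hm
    have hmpos : (0 : ℝ) < m := by exact_mod_cast (by omega : 0 < m)
    rw [div_le_iff₀ hmpos]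
    apply card_bound p (by omega) _ _ m hm
    intro r k hk1 hk2 hk
    have h := hper k
    rw [Set.mem_ofPred_eq] at hk
    rw [emb_X] at h hk
    exact not_lt_of_ge (P.escape_le p r hK h2 h3 k hk1 hk2 h n hn.le) hk

end Pool.Agent.Lib.Old.B3bedccNoGenericEscape
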