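import Pool.Agent.Lib.MP_b611b5_al.Kernel

set_option autoImplicit false

namespace Pool.Agent.Lib.Old.B611b5Branch

/-- There is a finitely presented branch group: a finitely presented group acting faithfully and
level-transitively by automorphisms on the regular rooted tree of words over a finite alphabet with
at least two letters, such that all rigid level stabilisers have finite index. -/
theorem result : ∃ (G : Type) (_ : Group G) (X : Type) (_ : Finite X) (_ : Nontrivial X)
    (φ : G →* Equiv.Perm (List X)), Group.IsFinitelyPresented G ∧ Function.Injective φ ∧
      (∀ g v, (φ g v).length = v.length) ∧ (∀ g v w, v <+: w → φ g v <+: φ g w) ∧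
      (∀ v w : List X, v.length = w.length → ∃ g, φ g v = w) ∧
      ∀ k : ℕ, (Subgroup.closure {g : G | ∃ v : List X, v.length = k ∧
        ∀ w, ¬ v <+: w → φ g w = w}).index ≠ 0 :=
  Pool.Agent.Lib.MP_b611b5_al.exists_branch

end Pool.Agent.Lib.Old.B611b5Branch
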