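import Mathlib
import Pool.Agent.Lib.MP_b7b898_nt.Three

/-!
Brenner and Foster's question for three terms: a complete criterion outside the case of three
distinct primes, one of them `2`, with mixed signs.
-/

set_option autoImplicit false

namespace Pool.Agent.Lib.Old.B7b898ThreeTerms

/-- The data `(p i, ε i)` is reducible to a congruence: for some modulus `M ≥ 1` the equation
and the congruence modulo `M` have the same solutions in nonnegative integers. -/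
def Reducible {k : ℕ} (p : Fin k → ℕ) (ε : Fin k → ℤ) : Prop :=
  ∃ M : ℕ, 1 ≤ M ∧ ∀ x : Fin k → ℕ,
    (∑ i, ε i * (p i : ℤ) ^ x i = 0 ↔ ∑ i, ε i * (p i : ℤ) ^ x i ≡ 0 [ZMOD (M : ℤ)])

open Pool.Agent.Lib.MP_b7b898_nt

theorem reducible_of_bdd3 {p : Fin 3 → ℕ} {ε : Fin 3 → ℤ} (hp : ∀ i, (p i).Prime)
    (hε : ∀ i, ε i = 1 ∨ ε i = -1) (h : Bdd3 (p 0) (p 1) (p 2) (ε 0) (ε 1) (ε 2)) :
    Reducible p ε := by
  obtain ⟨M, hM, B, h⟩ := h
  let K : ℕ := p 0 ^ B + p 1 ^ B + p 2 ^ B + 1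
  refine ⟨M * K, Nat.succ_le_of_lt (Nat.mul_pos hM (Nat.succ_pos _)), fun x => ⟨fun h0 => ?_, fun hd => ?_⟩⟩
  · rw [h0]
  · rw [Int.modEq_zero_iff_dvd, Fin.sum_univ_three] at hd
    rw [Fin.sum_univ_three]
    push_cast at hd
    obtain ⟨h0, h1, h2⟩ := h (x 0) (x 1) (x 2) (Dvd.dvd.trans (Dvd.intro _ rfl) hd)
    have hK : (K : ℤ) ∣ _ := Dvd.dvd.trans (Dvd.intro_left _ rfl) hd
    apply Int.eq_zero_of_abs_lt_dvd hK
    have hb : ∀ i, x i ≤ B → |ε i * (p i : ℤ) ^ x i| ≤ (p i : ℤ) ^ B := by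
      intro i hi
      have h3 : |ε i| = 1 := by rcases hε i with h | h <;> rw [h] <;> norm_num
      rw [abs_mul, h3, one_mul, abs_of_nonneg (by positivity)]
      exact pow_le_pow_right₀ (by exact_mod_cast (hp i).one_le) hi
    have h4 := abs_add_three (ε 0 * (p 0 : ℤ) ^ x 0) (ε 1 * (p 1 : ℤ) ^ x 1)
      (ε 2 * (p 2 : ℤ) ^ x 2)
    have := hb 0 h0
    have := hb 1 h1
    have := hb 2 h2
    have h5 : (K : ℤ) = (p 0 : ℤ) ^ B + (p 1 : ℤ) ^ B + (p 2 : ℤ) ^ B + 1 := by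
      simp [K]
    linarith

theorem not_reducible {p : Fin 3 → ℕ} {ε : Fin 3 → ℤ} (hp : ∀ i, p i = 2)
    (hε : ∀ i, ε i = 1 ∨ ε i = -1) (hne : ∃ i j, ε i ≠ ε j) : ¬ Reducible p ε := by
  rintro ⟨M, hM, h⟩
  obtain ⟨n, m, hnm, hmod⟩ : ∃ n m : ℕ, n ≠ m ∧ (2 : ℤ) ^ n ≡ 2 ^ m [ZMOD M] := by
    have : NeZero M := ⟨by omega⟩
    obtain ⟨n, m, h1, h2⟩ := Finite.exists_ne_map_eq_of_infinite
      (fun n : ℕ => (((2 : ℤ) ^ n : ℤ) : ZMod M))
    exact ⟨n, m, h1, (ZMod.intCast_eq_intCast_iff _ _ _).1 h2⟩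
  have hpow : (2 : ℤ) ^ n ≠ 2 ^ m := fun h0 =>
    hnm (pow_right_injective₀ (by norm_num) (by norm_num) h0)
  have hd : (M : ℤ) ∣ 2 ^ m - 2 ^ n := hmod.dvd
  have key : ∀ x : Fin 3 → ℕ,
      (ε 0 * 2 ^ x 0 + ε 1 * 2 ^ x 1 + ε 2 * 2 ^ x 2 = 2 ^ m - 2 ^ n ∨
        ε 0 * 2 ^ x 0 + ε 1 * 2 ^ x 1 + ε 2 * 2 ^ x 2 = -(2 ^ m - 2 ^ n)) → False := by
    intro x hx
    have h1 := (h x).2
    rw [Int.modEq_zero_iff_dvd, Fin.sum_univ_three, hp 0, hp 1, hp 2] at h1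
    push_cast at h1
    rcases hx with hx | hx
    · rw [hx] at h1
      exact hpow (by linarith [h1 hd])
    · rw [hx] at h1
      exact hpow (by linarith [h1 hd.neg_right])
  obtain ⟨i, j, hij⟩ := hne
  rcases hε 0 with h0 | h0 <;> rcases hε 1 with h1 | h1 <;> rcases hε 2 with h2 | h2
  · exact hij (by fin_cases i <;> fin_cases j <;> simp [h0, h1, h2])
  · exact key ![m, n, n + 1] (Or.inl (by simp [h0, h1, h2]; ring))
  · exact key ![m, n + 1, n] (Or.inl (by simp [h0, h1, h2]; ring))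
  · exact key ![n + 1, m, n] (Or.inr (by simp [h0, h1, h2]; ring))
  · exact key ![n + 1, m, n] (Or.inl (by simp [h0, h1, h2]; ring))
  · exact key ![m, n + 1, n] (Or.inr (by simp [h0, h1, h2]; ring))
  · exact key ![m, n, n + 1] (Or.inr (by simp [h0, h1, h2]; ring))
  · exact hij (by fin_cases i <;> fin_cases j <;> simp [h0, h1, h2])

/-- Three terms: unless the primes are pairwise distinct, include `2`, and the signs are mixed,
the data is reducible to a congruence exactly when it is not `2 ^ x + 2 ^ y = 2 ^ z`. -/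
theorem result (p : Fin 3 → ℕ) (ε : Fin 3 → ℤ) (hp : ∀ i, (p i).Prime)
    (hε : ∀ i, ε i = 1 ∨ ε i = -1)
    (H : ¬ Function.Injective p ∨ (∀ i, p i ≠ 2) ∨ ∀ i j, ε i = ε j) :
    Reducible p ε ↔ ¬ ((∀ i, p i = 2) ∧ ∃ i j, ε i ≠ ε j) := by
  refine ⟨fun h h' => not_reducible h'.1 hε h'.2 h, fun h => reducible_of_bdd3 hp hε ?_⟩
  have hall : (∀ i j, ε i = ε j) → ε 1 = ε 0 ∧ ε 2 = ε 0 := fun h => ⟨h 1 0, h 2 0⟩
  have hinj : p 0 ≠ p 1 → p 0 ≠ p 2 → p 1 ≠ p 2 → Function.Injective p := by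
    intro h1 h2 h3 i j hij
    fin_cases i <;> fin_cases j <;> simp_all
  by_cases h0 : p 0 = 2 <;> by_cases h1 : p 1 = 2 <;> by_cases h2 : p 2 = 2
  · have : ∀ i j, ε i = ε j := by
      by_contra hcon
      push Not at hcon
      exact h ⟨fun i => by fin_cases i <;> assumption, hcon⟩
    rw [h0, h1, h2, (hall this).1, (hall this).2]
    exact bdd3_twos (hε 0)
  · rw [h0, h1]; exact bdd3_two_two (hp 2) h2 (hε 0) (hε 1) (hε 2)
  · rw [h0, h2]; exact (bdd3_two_two (hp 1) h1 (hε 0) (hε 2) (hε 1)).swap23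
  · by_cases h12 : p 1 = p 2
    · rw [h0, ← h12]; exact (bdd3_q_q (hp 1) h1 (hε 1) (hε 2) (hε 0)).swap23.swap12
    · rcases H with H | H | H
      · exact absurd (hinj (by omega) (by omega) h12) H
      · exact absurd h0 (H 0)
      · rw [h0, (hall H).1, (hall H).2]
        exact bdd3_two_plus (hp 1) (hp 2) h1 h2 h12 (hε 0)
  · rw [h1, h2]; exact (bdd3_two_two (hp 0) h0 (hε 1) (hε 2) (hε 0)).swap23.swap12
  · by_cases h02 : p 0 = p 2
    · rw [h1, ← h02]; exact (bdd3_q_q (hp 0) h0 (hε 0) (hε 2) (hε 1)).swap23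
    · rcases H with H | H | H
      · exact absurd (hinj (by omega) h02 (by omega)) H
      · exact absurd h1 (H 1)
      · rw [h1, (hall H).1, (hall H).2]
        exact (bdd3_two_plus (hp 0) (hp 2) h0 h2 h02 (hε 0)).swap12
  · by_cases h01 : p 0 = p 1
    · rw [h2, ← h01]; exact bdd3_q_q (hp 0) h0 (hε 0) (hε 1) (hε 2)
    · rcases H with H | H | H
      · exact absurd (hinj h01 (by omega) (by omega)) H
      · exact absurd h2 (H 2)
      · rw [h2, (hall H).1, (hall H).2]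
        exact (bdd3_two_plus (hp 0) (hp 1) h0 h1 h01 (hε 0)).swap12.swap23
  · exact bdd3_odd ((hp 0).odd_of_ne_two h0) ((hp 1).odd_of_ne_two h1)
      ((hp 2).odd_of_ne_two h2) (hε 0) (hε 1) (hε 2)

end Pool.Agent.Lib.Old.B7b898ThreeTerms
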