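import Pool.Agent.Lib.MP_b94b02_co.Main

set_option autoImplicit false

namespace Pool.Agent.Lib.Old.B94b02Classification

open Pool.Agent.Lib.MP_b94b02_co

/-- For `n ≥ 5` the excedance polynomial of the even permutations is real-rooted exactly when
`n ≥ 6`, and the excedance polynomial of the odd permutations is always real-rooted. -/
theorem result (n : ℕ) (hn : 5 ≤ n) :
    (RealRooted (excPoly n 1) ↔ 6 ≤ n) ∧ RealRooted (excPoly n (-1)) := by
  have key : ∀ ε, 6 ≤ n → RealRooted (excPoly n ε) := fun ε h => by
    rcases Nat.lt_or_ge n 44 with h1 | h1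
    · exact realRooted_small n h (by omega) ε
    · exact realRooted_large n h1 ε
  rcases hn.lt_or_eq with h | h
  · exact ⟨⟨fun _ => h, fun h' => key 1 h'⟩, key (-1) h⟩
  · subst h
    exact ⟨⟨fun h' => absurd h' not_realRooted_five_pos, fun h' => by omega⟩, realRooted_five_neg⟩

end Pool.Agent.Lib.Old.B94b02Classification
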