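import Mathlib
import Pool.Agent.Lib.MP_bb1814_an.Local
import Pool.Agent.Lib.MP_bb1814_an.Count
import Pool.Agent.Lib.MP_bb1814_an.Xi

/-!
The (1 CM + 3 IM) four-value theorem for values on the Riemann sphere.
A point of the sphere is `some c` (the finite value `c`) or `none` (infinity).
-/

namespace Pool.Agent.Lib.Old.Bb1814FourValue

open Filter Topology

/-- The multiplicity with which `f` takes the value `a` at `z`; it is positive exactly when `z`
is an `a`-point of `f`. -/
noncomputable def mult (f : ℂ → ℂ) : Option ℂ → ℂ → WithTop ℤ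
  | some c, z => meromorphicOrderAt (fun w => f w - c) z
  | none, z => meromorphicOrderAt (fun w => (f w)⁻¹) z

/-- The determinant of the homogeneous coordinates `(c, 1)` of `c` and `(1, 0)` of infinity. -/
def br : Option ℂ → Option ℂ → ℂ
  | some x, some y => x - y
  | none, some _ => 1
  | some _, none => -1
  | none, none => 0

/-- The cross-ratio `(a, b, c, d)` equals `-1`, written without division. -/
def Harmonic (a b c d : Option ℂ) : Prop := br a c * br b d = -(br a d * br b c)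

/-- The image of a point of the sphere under `t ↦ 1 / (t - k)`. -/
noncomputable def mob (k : ℂ) : Option ℂ → ℂ
  | some x => (x - k)⁻¹
  | none => 0

/-- The factor of automorphy of `mob`. -/
noncomputable def fac (k : ℂ) : Option ℂ → ℂ
  | some x => (x - k)⁻¹
  | none => 1

lemma fac_ne {k : ℂ} {a : Option ℂ} (h : a ≠ some k) : fac k a ≠ 0 := by
  cases a with
  | none => exact one_ne_zero
  | some x => exact inv_ne_zero (sub_ne_zero.2 fun h1 => h (by rw [h1]))

lemma mob_sub {k : ℂ} {a b : Option ℂ} (ha : a ≠ some k) (hb : b ≠ some k) :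
    mob k a - mob k b = -(br a b * fac k a * fac k b) := by
  cases a with
  | none => cases b <;> simp [mob, br, fac]
  | some x =>
    cases b with
    | none => simp [mob, br, fac]
    | some y =>
      have h1 : x - k ≠ 0 := sub_ne_zero.2 fun h1 => ha (by rw [h1])
      have h2 : y - k ≠ 0 := sub_ne_zero.2 fun h1 => hb (by rw [h1])
      simp only [mob, br, fac]
      field_simp
      ring

lemma br_ne {a b : Option ℂ} (h : a ≠ b) : br a b ≠ 0 := by
  cases a with
  | none => cases b with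
    | none => exact absurd rfl h
    | some y => exact one_ne_zero
  | some x => cases b with
    | none => exact neg_ne_zero.2 one_ne_zero
    | some y => exact sub_ne_zero.2 fun h1 => h (by rw [h1])

lemma harmonic_of_mob {k : ℂ} {a b c d : Option ℂ} (ha : a ≠ some k) (hb : b ≠ some k)
    (hc : c ≠ some k) (hd : d ≠ some k)
    (h : (mob k a - mob k c) * (mob k b - mob k d) + (mob k a - mob k d) * (mob k b - mob k c) = 0) :
    Harmonic a b c d := by
  rw [mob_sub ha hc, mob_sub hb hd, mob_sub ha hd, mob_sub hb hc] at h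
  apply mul_left_cancel₀ (mul_ne_zero (mul_ne_zero (fac_ne ha) (fac_ne hb))
    (mul_ne_zero (fac_ne hc) (fac_ne hd)))
  linear_combination h

lemma order_shift {f : ℂ → ℂ} {z : ℂ} (k : ℂ)
    (h : meromorphicOrderAt f z < 0) :
    meromorphicOrderAt (fun w => f w - k) z = meromorphicOrderAt f z :=
  meromorphicOrderAt_add_eq_left_of_lt (f₂ := fun _ => -k) (MeromorphicAt.const _ z)
    (h.trans_le analyticAt_const.meromorphicOrderAt_nonneg)

lemma neg_of_pos_neg {x : WithTop ℤ} (hx : x ≠ ⊤) (h : 0 < -x) : x < 0 := by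
  lift x to ℤ using hx
  rw [← WithTop.LinearOrderedAddCommGroup.coe_neg] at h
  have : 0 < -x := by exact_mod_cast h
  exact_mod_cast neg_pos.1 this

lemma order_mob {f : ℂ → ℂ} {z k : ℂ} (hf : MeromorphicAt f z)
    (hn : ∀ c, meromorphicOrderAt (fun w => f w - c) z ≠ ⊤) {a : Option ℂ} (ha : a ≠ some k)
    (h : 0 < mult f a z ∨ 0 < meromorphicOrderAt (fun w => (f w - k)⁻¹ - mob k a) z) :
    meromorphicOrderAt (fun w => (f w - k)⁻¹ - mob k a) z = mult f a z := by
  have hk : MeromorphicAt (fun w => f w - k) z := hf.sub (MeromorphicAt.const k z)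
  cases a with
  | none =>
    simp only [mult, mob, sub_zero, fun_meromorphicOrderAt_inv] at h ⊢
    rcases h with h | h
    · rw [order_shift k (neg_of_pos_neg (by simpa using hn 0) h)]
    · have := order_shift (-k) (neg_of_pos_neg (hn k) h)
      simp only [sub_neg_eq_add, sub_add_cancel] at this
      rw [← this]
  | some x =>
    have h1 : x - k ≠ 0 := sub_ne_zero.2 fun h1 => ha (by rw [h1])
    have hx : MeromorphicAt (fun w => f w - x) z := hf.sub (MeromorphicAt.const x z)
    have h2 : (fun w => (f w - k)⁻¹ - mob k (some x)) =ᶠ[𝓝[≠] z]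
        (fun _ => -(x - k)⁻¹) * ((fun w => f w - x) * fun w => (f w - k)⁻¹) := by
      filter_upwards [(meromorphicOrderAt_ne_top_iff_eventually_ne_zero hk).1 (hn k)] with w hw
      simp only [mob, Pi.mul_apply]
      field_simp
      ring
    have h3 : meromorphicOrderAt (fun w => (f w - k)⁻¹) z = 0 := by
      rw [← tendsto_ne_zero_iff_meromorphicOrderAt_eq_zero hk.fun_inv]
      refine ⟨(x - k)⁻¹, inv_ne_zero h1, ?_⟩
      rcases h with h | h
      · have := ((tendsto_zero_of_meromorphicOrderAt_pos h).add_const (x - k)).inv₀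
          (by simpa using h1)
        simpa using this
      · have := (tendsto_zero_of_meromorphicOrderAt_pos h).add_const (x - k)⁻¹
        simpa [mob] using this
    rw [meromorphicOrderAt_congr h2, meromorphicOrderAt_mul_of_ne_zero analyticAt_const
      (neg_ne_zero.2 (inv_ne_zero h1)), meromorphicOrderAt_mul hx hk.fun_inv, h3, add_zero]
    rfl

lemma nc_mob {f : ℂ → ℂ} {z k : ℂ} (hf : MeromorphicAt f z)
    (hn : ∀ c, meromorphicOrderAt (fun w => f w - c) z ≠ ⊤) (c : ℂ) :
    meromorphicOrderAt (fun w => (f w - k)⁻¹ - c) z ≠ ⊤ := by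
  refine (meromorphicOrderAt_ne_top_iff_eventually_ne_zero
    ((hf.sub (MeromorphicAt.const k z)).fun_inv.fun_sub (MeromorphicAt.const c z))).2 ?_
  filter_upwards [(meromorphicOrderAt_ne_top_iff_eventually_ne_zero
    (hf.sub (MeromorphicAt.const (c⁻¹ + k) z))).1 (hn _)] with w hw h
  apply hw
  simp only [Pi.sub_apply] at h ⊢
  rw [← sub_eq_zero.1 h, inv_inv]; ring

theorem four_value (f g : ℂ → ℂ) (a : Fin 4 → Option ℂ) (hf : Meromorphic f) (hg : Meromorphic g)
    (nf : ∀ c z : ℂ, ¬∀ᶠ w in 𝓝[≠] z, f w = c) (ng : ∀ c z : ℂ, ¬∀ᶠ w in 𝓝[≠] z, g w = c)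
    (hfg : ∃ z : ℂ, ¬∀ᶠ w in 𝓝[≠] z, f w = g w) (ha : Function.Injective a)
    (share : ∀ i z, 0 < mult f (a i) z ↔ 0 < mult g (a i) z)
    (cm : ∃ i, ∀ z, 0 < mult f (a i) z → mult f (a i) z = mult g (a i) z) :
    ∃ σ : Equiv.Perm (Fin 4), Harmonic (a (σ 0)) (a (σ 1)) (a (σ 2)) (a (σ 3)) ∧
      (∀ z : ℂ, ∀ᶠ w in 𝓝[≠] z, Harmonic (some (f w)) (some (g w)) (a (σ 2)) (a (σ 3))) ∧
      ∀ z : ℂ, ¬0 < mult f (a (σ 0)) z ∧ ¬0 < mult f (a (σ 1)) z ∧ ¬0 < mult g (a (σ 0)) z ∧
        ¬0 < mult g (a (σ 1)) z := by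
  have nf' : ∀ z c, meromorphicOrderAt (fun w => f w - c) z ≠ ⊤ := fun z c h =>
    nf c z ((meromorphicOrderAt_eq_top_iff.1 h).mono fun w hw => sub_eq_zero.1 hw)
  have ng' : ∀ z c, meromorphicOrderAt (fun w => g w - c) z ≠ ⊤ := fun z c h =>
    ng c z ((meromorphicOrderAt_eq_top_iff.1 h).mono fun w hw => sub_eq_zero.1 hw)
  obtain ⟨k, hk⟩ : ∃ k : ℂ, ∀ i, a i ≠ some k := by
    obtain ⟨k, hk⟩ := Infinite.exists_notMem_finset
      (Finset.univ.image fun i => (a i).getD 0)
    exact ⟨k, fun i hi => hk (Finset.mem_image.2 ⟨i, Finset.mem_univ i, by simp [hi]⟩)⟩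
  have pf : ∀ i z, 0 < meromorphicOrderAt (fun w => (f w - k)⁻¹ - mob k (a i)) z ↔
      0 < mult f (a i) z := fun i z =>
    ⟨fun h => order_mob (hf z) (nf' z) (hk i) (Or.inr h) ▸ h,
      fun h => (order_mob (hf z) (nf' z) (hk i) (Or.inl h)).symm ▸ h⟩
  have pg : ∀ i z, 0 < meromorphicOrderAt (fun w => (g w - k)⁻¹ - mob k (a i)) z ↔
      0 < mult g (a i) z := fun i z =>
    ⟨fun h => order_mob (hg z) (ng' z) (hk i) (Or.inr h) ▸ h,
      fun h => (order_mob (hg z) (ng' z) (hk i) (Or.inl h)).symm ▸ h⟩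
  obtain ⟨σ, h1, h2, h3, h4, h5, h6⟩ := Pool.Agent.Lib.MP_bb1814_an.main_of_pairMany
    (Pool.Agent.Lib.MP_bb1814_an.pairMany Pool.Agent.Lib.MP_bb1814_an.localFalse)
    (fun w => (f w - k)⁻¹) (fun w => (g w - k)⁻¹) (fun i => mob k (a i))
    (fun z _ => ((hf z).sub (MeromorphicAt.const k z)).fun_inv)
    (fun z _ => ((hg z).sub (MeromorphicAt.const k z)).fun_inv)
    (fun c z => nc_mob (hf z) (nf' z) c) (fun c z => nc_mob (hg z) (ng' z) c)
    (by
      obtain ⟨z, hz⟩ := hfg
      refine ⟨z, fun h => hz ((meromorphicOrderAt_eq_top_iff.1 h).mono fun w hw => ?_)⟩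
      exact sub_left_inj.1 (inv_inj.1 (sub_eq_zero.1 hw)))
    (fun i j hij => by
      by_contra hne
      have h1 := mob_sub (hk i) (hk j)
      rw [show mob k (a i) = mob k (a j) from hij, sub_self] at h1
      exact mul_ne_zero (mul_ne_zero (br_ne fun h => hne (ha h)) (fac_ne (hk i))) (fac_ne (hk j))
        (neg_eq_zero.1 h1.symm))
    (fun i z => by rw [pf, pg, share])
    (by
      obtain ⟨i, hi⟩ := cm
      refine ⟨i, fun z hz => ?_⟩
      have h1 := (pf i z).1 hz
      rw [order_mob (hf z) (nf' z) (hk i) (Or.inl h1),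
        order_mob (hg z) (ng' z) (hk i) (Or.inl ((share i z).1 h1)), hi z h1])
  refine ⟨σ, harmonic_of_mob (hk _) (hk _) (hk _) (hk _) (by linear_combination h1), fun z => ?_,
    fun z => ⟨by rw [← pf]; exact h3 z, by rw [← pf]; exact h4 z, by rw [← pg]; exact h5 z,
      by rw [← pg]; exact h6 z⟩⟩
  filter_upwards [meromorphicOrderAt_eq_top_iff.1 (h2 z),
    (meromorphicOrderAt_ne_top_iff_eventually_ne_zero
      ((hf z).sub (MeromorphicAt.const k z))).1 (nf' z k),
    (meromorphicOrderAt_ne_top_iff_eventually_ne_zero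
      ((hg z).sub (MeromorphicAt.const k z))).1 (ng' z k)] with w e1 e2 e3
  exact harmonic_of_mob (fun h => e2 (sub_eq_zero.2 (Option.some.inj h)))
    (fun h => e3 (sub_eq_zero.2 (Option.some.inj h))) (hk _) (hk _) e1

end Pool.Agent.Lib.Old.Bb1814FourValue
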