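import Pool.Agent.Lib.MP_c0175c_an.Blocks

set_option autoImplicit false

open Set Pool.Agent.Lib.MP_c0175c_an.Blocks

namespace Pool.Agent.Lib.Old.C0175cCounterexample

universe u

/-- A countable weakly compact subset of c_0 that lies in the range of no c_0-valued vector
measure, on any measurable space. -/
theorem counterexample :
    ∃ K : Set (ZeroAtInftyContinuousMap ℕ ℝ), K.Countable ∧
      IsCompact ((toWeakSpace ℝ (ZeroAtInftyContinuousMap ℕ ℝ)) '' K) ∧
      ∀ (α : Type u) [MeasurableSpace α]
        (μ : MeasureTheory.VectorMeasure α (ZeroAtInftyContinuousMap ℕ ℝ)),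
        ¬ K ⊆ Set.range (fun s : Set α => μ s) := by
  refine ⟨insert 0 (range blk), (countable_range blk).insert 0, ?_, fun α _ μ h => ?_⟩
  · rw [image_insert_eq, ← range_comp]
    exact blk_tendsto.isCompact_insert_range_of_cofinite
  · exact not_subset_range μ ((subset_insert _ _).trans h)

end Pool.Agent.Lib.Old.C0175cCounterexample
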