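import Pool.Agent.Results.MP_0becda_co.BigCell

set_option autoImplicit false

namespace Pool.Agent.Lib.Old.C0becdaBigCell

/-- The third form of the criterion, as an instance of the present one. -/
theorem third :
    ∀ (G : Type) [Group G] [Fintype G] [DecidableEq G] (B H : Subgroup G) (r : ℕ)
      (K : ℕ → Subgroup G) (w : G), H ≤ B →
      (∀ a ∈ B, ∀ b ∈ B, a * b * a⁻¹ * b⁻¹ ∈ H) →
      (∀ b ∈ B, ∃ k : ℕ, b ^ 2 ^ k ∈ H) →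
      (∀ d : G, ∀ b ∈ B, ∃ s ∈ B, d⁻¹ * s * d ∈ B ∧ s⁻¹ * b ∈ H) →
      (∀ d : G, ∀ s ∈ H, d⁻¹ * s * d ∈ B → d⁻¹ * s * d ∈ H) →
      (∀ d ∉ B, (¬ ∃ a ∈ B, ∃ b ∈ B, d = a * w * b) → ∃ θ : G → G, (∀ a ∈ B, θ a ∈ B) ∧
        ∀ a ∈ B, ∀ a' ∈ B, ((θ a)⁻¹ * θ a' ∈ H ∨
          ∃ x ∈ H, ∃ y ∈ H, a'⁻¹ * d * θ a' = x * (a⁻¹ * d * θ a) * y) → a⁻¹ * a' ∈ H) →
      3 * Nat.card G + 8 * (H.relIndex B - 1) * Nat.card B
        < 4 * Nat.card {g : G // ∃ a ∈ B, ∃ b ∈ B, g = a * w * b} →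
      K 0 ≤ H → Odd ((K 0).relIndex H) → (∀ a ∈ H, ∀ b ∈ H, a * b * a⁻¹ * b⁻¹ ∈ K 0) →
      ∀ P : Sylow 2 (K 0), (P : Subgroup (K 0)).Normal →
      (∀ i < r, K (i + 1) ≤ K i ∧ (K (i + 1)).relIndex (K i) ≠ 2 ∧
        ∀ x ∈ K i, x ∉ K (i + 1) → ∀ y ∈ K i, y ∉ K (i + 1) →
          ∃ a ∈ K (i + 1), ∃ b ∈ K (i + 1), y = a * x * b) →
      Odd (Nat.card (K r)) → Group.IsSolvable (K r) →
      ∃ l : List G, l.Nodup ∧ (∀ g : G, g ∈ l) ∧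
        ∀ x : G, x ≠ 1 →
          (x * x = 1 → (List.zipWith (fun a b => a⁻¹ * b) l l.tail).count x = 1) ∧
          (x * x ≠ 1 →
            (List.zipWith (fun a b => a⁻¹ * b) l l.tail).count x +
              (List.zipWith (fun a b => a⁻¹ * b) l l.tail).count x⁻¹ = 2) := by
  intro G _ _ _ B H r K w h0 h1 h2 h3 h4 h5 h6
  exact Pool.Agent.Results.MP_0becda_co.BigCell.result G B H r K w ∅ h0 h1 h2 h3 h4
    (fun d hd h _ => h5 d hd h) (by simpa using h6)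

/-- The second form of the criterion, as an instance of the third. -/
theorem second :
    ∀ (G : Type) [Group G] [Fintype G] [DecidableEq G] (B : Subgroup G) (r : ℕ)
      (K : ℕ → Subgroup G) (w : G), K 0 ≤ B →
      (∀ a ∈ B, ∀ b ∈ B, a * b * a⁻¹ * b⁻¹ ∈ K 0) →
      (∀ b ∈ B, ∃ k : ℕ, b ^ 2 ^ k ∈ K 0) →
      (∀ d : G, ∀ b ∈ B, ∃ s ∈ B, d⁻¹ * s * d ∈ B ∧ s⁻¹ * b ∈ K 0) →
      (∀ d : G, ∀ s ∈ K 0, d⁻¹ * s * d ∈ B → d⁻¹ * s * d ∈ K 0) →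
      (∀ d ∉ B, (¬ ∃ a ∈ B, ∃ b ∈ B, d = a * w * b) → ∃ θ : G → G, (∀ a ∈ B, θ a ∈ B) ∧
        ∀ a ∈ B, ∀ a' ∈ B, ((θ a)⁻¹ * θ a' ∈ K 0 ∨
          ∃ x ∈ K 0, ∃ y ∈ K 0, a'⁻¹ * d * θ a' = x * (a⁻¹ * d * θ a) * y) → a⁻¹ * a' ∈ K 0) →
      3 * Nat.card G + 8 * ((K 0).relIndex B - 1) * Nat.card B
        < 4 * Nat.card {g : G // ∃ a ∈ B, ∃ b ∈ B, g = a * w * b} →
      ∀ P : Sylow 2 (K 0), (P : Subgroup (K 0)).Normal →
      (∀ i < r, K (i + 1) ≤ K i ∧ (K (i + 1)).relIndex (K i) ≠ 2 ∧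
        ∀ x ∈ K i, x ∉ K (i + 1) → ∀ y ∈ K i, y ∉ K (i + 1) →
          ∃ a ∈ K (i + 1), ∃ b ∈ K (i + 1), y = a * x * b) →
      Odd (Nat.card (K r)) → Group.IsSolvable (K r) →
      ∃ l : List G, l.Nodup ∧ (∀ g : G, g ∈ l) ∧
        ∀ x : G, x ≠ 1 →
          (x * x = 1 → (List.zipWith (fun a b => a⁻¹ * b) l l.tail).count x = 1) ∧
          (x * x ≠ 1 →
            (List.zipWith (fun a b => a⁻¹ * b) l l.tail).count x +
              (List.zipWith (fun a b => a⁻¹ * b) l l.tail).count x⁻¹ = 2) := by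
  intro G _ _ _ B r K w h0 h1 h2 h3 h4 h5 h6
  exact third G B (K 0) r K w h0 h1 h2 h3 h4 h5 h6 le_rfl
    (by simp) fun a ha b hb => mul_mem (mul_mem (mul_mem ha hb) (inv_mem ha)) (inv_mem hb)

/-- The first form of the criterion, as an instance of the second. -/
theorem result :
    ∀ (G : Type) [Group G] [Fintype G] [DecidableEq G] (r : ℕ) (K : ℕ → Subgroup G) (w : G),
      Odd (K 0).index →
      3 * Nat.card G < 4 * Nat.card {g : G // ∃ a ∈ K 0, ∃ b ∈ K 0, g = a * w * b} →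
      ∀ P : Sylow 2 (K 0), (P : Subgroup (K 0)).Normal →
      (∀ i < r, K (i + 1) ≤ K i ∧ (K (i + 1)).relIndex (K i) ≠ 2 ∧
        ∀ x ∈ K i, x ∉ K (i + 1) → ∀ y ∈ K i, y ∉ K (i + 1) →
          ∃ a ∈ K (i + 1), ∃ b ∈ K (i + 1), y = a * x * b) →
      Odd (Nat.card (K r)) → Group.IsSolvable (K r) →
      ∃ l : List G, l.Nodup ∧ (∀ g : G, g ∈ l) ∧
        ∀ x : G, x ≠ 1 →
          (x * x = 1 → (List.zipWith (fun a b => a⁻¹ * b) l l.tail).count x = 1) ∧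
          (x * x ≠ 1 →
            (List.zipWith (fun a b => a⁻¹ * b) l l.tail).count x +
              (List.zipWith (fun a b => a⁻¹ * b) l l.tail).count x⁻¹ = 2) := by
  intro G _ _ _ r K w _ hw
  exact second G (K 0) r K w le_rfl
    (fun a ha b hb => mul_mem (mul_mem (mul_mem ha hb) (inv_mem ha)) (inv_mem hb))
    (fun b hb => ⟨0, by simpa using hb⟩) (fun d b hb => ⟨1, one_mem _, by simp, by simpa using hb⟩)
    (fun _ _ _ h => h) (fun _ _ _ => ⟨id, fun _ h => h, fun a ha b hb _ => mul_mem (inv_mem ha) hb⟩)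
    (by simpa using hw)

end Pool.Agent.Lib.Old.C0becdaBigCell
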