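import Pool.Agent.Lib.MP_0becda_co.PSL.Inst

set_option autoImplicit false

namespace Pool.Agent.Lib.Old.C0becdaProjLinear

open Pool.Agent.Lib.MP_0becda_co in
theorem ter_equiv {G H : Type} [Group G] [Group H] (e : H ≃* G) (h : Ter H) : Ter G := by
  obtain ⟨V, E, a, b, hp, hV, hE⟩ := h
  refine ⟨_, _, _, _, hp.map e.toMonoidHom, fun g => ?_, fun g => ?_⟩
  · obtain ⟨x, rfl⟩ := e.surjective g
    exact (C_map_inj V (f := e.toMonoidHom) e.injective x).trans (hV x)
  · obtain ⟨x, rfl⟩ := e.surjective g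
    refine (W_map_hom e.toMonoidHom e.injective E x).trans ?_
    rw [hE, ind_congr (map_ne_one_iff e e.injective)]

/-- Bailey's conjecture for every group between `PSL(2, q)` and `PGL(2, q)`, `q ≥ 4`. -/
theorem result :
    ∀ (F : Type) [Field F] [Fintype F], 4 ≤ Fintype.card F →
      ∀ (G : Type) [Group G] [DecidableEq G] (f : G →* Matrix.ProjGenLinGroup (Fin 2) F),
      Function.Injective f →
      (∀ A : Matrix.SpecialLinearGroup (Fin 2) F,
        ∃ g : G, f g = Matrix.SpecialLinearGroup.toPGL A) →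
      ∃ l : List G, l.Nodup ∧ (∀ g : G, g ∈ l) ∧
        ∀ x : G, x ≠ 1 →
          (x * x = 1 → (List.zipWith (fun a b => a⁻¹ * b) l l.tail).count x = 1) ∧
          (x * x ≠ 1 →
            (List.zipWith (fun a b => a⁻¹ * b) l l.tail).count x +
              (List.zipWith (fun a b => a⁻¹ * b) l l.tail).count x⁻¹ = 2) := by
  intro F _ _ hF G _ _ f hf hG
  refine (ter_equiv (MonoidHom.ofInjective hf).symm
    (Pool.Agent.Lib.MP_0becda_co.PSL.ter_pgl ?_ (by omega))).exists_list
  rintro _ ⟨A, rfl⟩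
  exact hG A

end Pool.Agent.Lib.Old.C0becdaProjLinear
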