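import Pool.Agent.Lib.MP_0becda_co.Solv

set_option autoImplicit false

namespace Pool.Agent.Lib.Old.C0becdaSolvable

/-- Bailey's conjecture for every finite solvable group. -/
theorem result :
    ∀ (G : Type) [Group G] [Fintype G] [DecidableEq G], Group.IsSolvable G →
      ¬ ((∀ g : G, g * g = 1) ∧ 4 ≤ Fintype.card G) →
      ∃ l : List G, l.Nodup ∧ (∀ g : G, g ∈ l) ∧
        ∀ x : G, x ≠ 1 →
          (x * x = 1 → (List.zipWith (fun a b => a⁻¹ * b) l l.tail).count x = 1) ∧
          (x * x ≠ 1 →
            (List.zipWith (fun a b => a⁻¹ * b) l l.tail).count x +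
              (List.zipWith (fun a b => a⁻¹ * b) l l.tail).count x⁻¹ = 2) := by
  intro G _ _ _ hs hne
  exact (Pool.Agent.Lib.MP_0becda_co.ter_solvable _ G rfl
    (by rwa [Nat.card_eq_fintype_card])).exists_list

end Pool.Agent.Lib.Old.C0becdaSolvable
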