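import Mathlib
import Pool.Agent.Lib.MP_34a884_an.NEll

namespace Pool.Agent.Lib.Old.C34a884NegDetPairs

open Pool.Agent.Lib.MP_34a884_an

/-- Every pair of rational `2 × 2` matrices `A, B` with `det A ≤ 0` or `det B ≤ 0` has
property (PV). -/
theorem result (A B : Matrix (Fin 2) (Fin 2) ℚ) (h : A.det ≤ 0 ∨ B.det ≤ 0) :
    ∃ α d : ℝ, 0 < α ∧ 0 < d ∧ ∃ k0 : ℕ, 1 ≤ k0 ∧ ∀ k : ℕ, k0 ≤ k → ∀ a : Fin 2 → ℝ,
      ((convexHull ℝ {x : Fin 2 → ℝ | ∃ L : List (Matrix (Fin 2) (Fin 2) ℝ), L.length = k ∧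
        (∀ T ∈ L, T ∈ ({A.map (fun r : ℚ => (r : ℝ)), B.map (fun r : ℚ => (r : ℝ))} :
          Set (Matrix (Fin 2) (Fin 2) ℝ))) ∧
        x = Matrix.mulVec L.prod a}).extremePoints ℝ).Finite ∧
      (((convexHull ℝ {x : Fin 2 → ℝ | ∃ L : List (Matrix (Fin 2) (Fin 2) ℝ), L.length = k ∧
        (∀ T ∈ L, T ∈ ({A.map (fun r : ℚ => (r : ℝ)), B.map (fun r : ℚ => (r : ℝ))} :
          Set (Matrix (Fin 2) (Fin 2) ℝ))) ∧
        x = Matrix.mulVec L.prod a}).extremePoints ℝ).ncard : ℝ) ≤ α * (k : ℝ) ^ d := by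
  have hd : ∀ X : Matrix (Fin 2) (Fin 2) ℚ,
      (X.map (fun r : ℚ => (r : ℝ))).det = (X.det : ℝ) := fun X => by
    simp [Matrix.det_fin_two]
  refine pv_of_pb (Neg.pb_nonpos ?_)
  rw [hd, hd]
  exact_mod_cast h

end Pool.Agent.Lib.Old.C34a884NegDetPairs
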