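import Mathlib
import Pool.Agent.Lib.MP_3bba25_lc.Sep

set_option autoImplicit false

namespace Pool.Agent.Lib.Old.C3bba25Separation

open Pool.Agent.Lib.MP_3bba25_lc

theorem separation_poly (p : Polynomial ℝ) :
    ∃ (X Y : Type) (_ : Fintype X) (_ : Fintype Y) (f : X → Y → Bool),
      (∃ c, QuantComputes f c) ∧ (∃ c, RandComputes f c) ∧
        p.eval (quantCC f : ℝ) < (randCC f : ℝ) := by
  obtain ⟨j, hj⟩ := poly_lt 2000000000 p
  obtain ⟨X, Y, i1, i2, f, h1, h2⟩ := separation j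
  refine ⟨X, Y, i1, i2, f, ⟨_, h1⟩, exists_randComputes f, (hj _ (Nat.sInf_le h1)).trans ?_⟩
  have h3 : 2 ^ j < randCC f := by
    by_contra! h
    exact h2 _ h (Nat.sInf_mem (exists_randComputes f))
  exact_mod_cast h3

end Pool.Agent.Lib.Old.C3bba25Separation
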