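import Mathlib
import Pool.Agent.Lib.MP_c527bb_lc.Defs
import Pool.Agent.Lib.MP_c527bb_lc.Cayley

set_option autoImplicit false

namespace Pool.Agent.Lib.Old.C527bbNotExpressible

open Pool.Agent.Lib.MP_c527bb_lc

/-- No sentence of `TC^1_0` defines 2-connectivity, not even among finite connected graphs with at
least three vertices. -/
theorem old_result : ¬ ∃ ψ : Fml 0, ∀ (V : Type) [Fintype V] (G : SimpleGraph V),
    3 ≤ Fintype.card V → G.Connected → (Sat G ψ ![] ↔ TwoConnected G) := by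
  rintro ⟨ψ, hψ⟩
  obtain ⟨M, hM⟩ := sentence ψ
  obtain ⟨V, W, _, _, G, H, hG, hH, h1, h2, c1, c2⟩ := exists_graphs M
  have card : ∀ (V : Type) [Fintype V] (G : SimpleGraph V), Cls G M → 3 ≤ Fintype.card V := by
    intro V _ G hG
    obtain ⟨v⟩ := hG.ne
    have h3 := Set.ncard_le_ncard (Set.subset_univ (G.neighborSet v)) (Set.toFinite _)
    rw [hG.reg, Set.ncard_univ, Nat.card_eq_fintype_card] at h3
    omega
  have := Fintype.ofFinite V
  have := Fintype.ofFinite W
  have := hG.ne
  have := hH.ne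
  exact h2 ((hψ W H (card W H hH) ⟨c2⟩).1
    (hM V W G H hG hH ((hψ V G (card V G hG) ⟨c1⟩).2 h1)))

end Pool.Agent.Lib.Old.C527bbNotExpressible
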