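import Pool.Agent.Lib.MP_c54d0a_an.Main

namespace Pool.Agent.Lib.Old.C54d0aNonrealZero

open Pool.Agent.Lib.MP_c54d0a_an

/-- The truncated cosine transform of the Xi kernel has a non-real zero for the positive
truncation point `a = log (21/16)` (the zero lies near `27.016 + 2.7017 i`). -/
theorem nonreal_zero : ∃ z : ℂ, z.im ≠ 0 ∧ F (Real.log (21 / 16)) z = 0 := by
  obtain ⟨z, hz, h0⟩ := exists_zero
  refine ⟨z, fun him => ?_, h0⟩
  rw [mem_closedBall_iff_norm] at hz
  have h1 := (Complex.abs_im_le_norm (z - cc)).trans hz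
  simp only [Complex.sub_im, him, cc] at h1
  norm_num at h1

end Pool.Agent.Lib.Old.C54d0aNonrealZero
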