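import Pool.Agent.Lib.MP_68c55c_lc.TrWC

/-! The earlier hand-in on transitive perfect 2-codes, derived from the orbit share theorem. -/

set_option autoImplicit false

namespace Pool.Agent.Lib.Old.C68Transitive

open Pool.Agent.Lib.MP_68c55c_lc.Tr

theorem old_from_new (q n r : ℕ) (h6 : 6 ≤ q) (hq : ¬ IsPrimePow q) (hr : 1 ≤ r)
    (C : Finset (Fin n → Fin q)) (h2 : 2 ≤ C.card)
    (hC : ∀ x : Fin n → Fin q, ∃! c : Fin n → Fin q, c ∈ C ∧ hammingDist x c ≤ 2)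
    (horb : ∀ c ∈ C, C.card ∣ r * {c' : Fin n → Fin q |
      ∃ (σ : Equiv.Perm (Fin n)) (π : Fin n → Equiv.Perm (Fin q)),
        (∀ z ∈ C, (fun i => π i (z (σ i))) ∈ C) ∧ (fun i => π i (c (σ i))) = c'}.ncard) :
    q + 25 ≤ 25 * r ^ 4 := by
  let G : Subgroup (Equiv.Perm (Fin n → Fin q)) := (Aut C 0).map (MonoidHom.fst _ _)
  have hG : ∀ g ∈ G, ∃ (σ : Equiv.Perm (Fin n)) (π : Fin n → Equiv.Perm (Fin q)),
      (∀ z i, g z i = π i (z (σ i))) ∧ ∀ z, g z ∈ C ↔ z ∈ C := by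
    rintro _ ⟨g, ⟨σ, π, h1, -, h3⟩, rfl⟩
    exact ⟨σ, π, h1, h3⟩
  have hsub : ∀ c ∈ C, (C : Set (Fin n → Fin q)) ∩ MulAction.orbit G c = MulAction.orbit G c := by
    intro c hc
    refine Set.inter_eq_right.2 ?_
    rintro _ ⟨⟨g, hg⟩, rfl⟩
    obtain ⟨σ, π, -, h3⟩ := hG g hg
    exact (h3 c).2 hc
  rcases mainW C hC hq (by omega) h2 r 1 hr le_rfl G
    (fun g hg => by obtain ⟨σ, π, h1, -⟩ := hG g hg; exact ⟨σ, π, h1⟩)
    (fun c hc => by
      rw [hsub c hc]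
      convert horb c hc using 3
      ext c'
      constructor
      · rintro ⟨⟨g, hg⟩, rfl⟩
        obtain ⟨σ, π, h1, h3⟩ := hG g hg
        refine ⟨σ, π, fun z hz => ?_, (funext fun i => h1 c i).symm⟩
        rw [← funext fun i => h1 z i]
        exact (h3 z).2 hz
      · rintro ⟨σ, π, h1, rfl⟩
        obtain ⟨g, hg, h2⟩ := exists_aut C 0 σ π h1
        exact ⟨⟨g.1, g, hg, rfl⟩, h2 c⟩)
    (fun c hc => by rw [hsub c hc, one_mul]) with h | h
  · exact h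
  · omega

end Pool.Agent.Lib.Old.C68Transitive
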