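import Pool.Agent.Lib.MP_c73c36_mp.Inst

set_option autoImplicit false

namespace Pool.Agent.Lib.Old.C73c36PlaneSBC

open Pool.Agent.Lib.MP_c73c36_mp

/-- The patch with domain `D` and values `p` occurs in the configuration `X`, translated by `a`. -/
def Occurs {k : ℕ} (D : Finset (Fin 2 → ℤ)) (p X : (Fin 2 → ℤ) → Fin k) (a : Fin 2 → ℤ) : Prop :=
  ∀ i ∈ D, X (i + a) = p i

/-- No translate of a forbidden pattern occurs in `X`. -/
def Valid {k m : ℕ} (F : Fin m → Finset (Fin 2 → ℤ) × ((Fin 2 → ℤ) → Fin k))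
    (X : (Fin 2 → ℤ) → Fin k) : Prop :=
  ∀ j a, ¬ Occurs (F j).1 (F j).2 X a

/-- The translation of a configuration by `a`. -/
def translate {k : ℕ} (a : Fin 2 → ℤ) (X : (Fin 2 → ℤ) → Fin k) : (Fin 2 → ℤ) → Fin k :=
  fun i => X (i - a)

/-- A non-periodic uniquely ergodic tiling system on the square lattice that satisfies the
Strict Boundary Condition. -/
theorem result :
    ∃ k m : ℕ, ∃ F : Fin m → Finset (Fin 2 → ℤ) × ((Fin 2 → ℤ) → Fin k),
      (∃ X, Valid F X) ∧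
      (∀ X, Valid F X → ∀ a, a ≠ 0 → translate a X ≠ X) ∧
      (∃! μ : MeasureTheory.Measure ((Fin 2 → ℤ) → Fin k),
        MeasureTheory.IsProbabilityMeasure μ ∧ μ {X | ¬ Valid F X} = 0 ∧
        ∀ a, MeasureTheory.Measure.map (translate a) μ = μ) ∧
      ∀ (D : Finset (Fin 2 → ℤ)) (p : (Fin 2 → ℤ) → Fin k), ∃ C : ℝ,
        ∀ X Y : (Fin 2 → ℤ) → Fin k, Valid F X → {i | Y i ≠ X i}.Finite →
          {a | Occurs D p Y a ∧ ¬ Occurs D p X a}.Finite ∧
          {a | Occurs D p X a ∧ ¬ Occurs D p Y a}.Finite ∧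
          {a | ∃ j, Occurs (F j).1 (F j).2 Y a}.Finite ∧
          |({a | Occurs D p Y a ∧ ¬ Occurs D p X a}.ncard : ℝ) -
            ({a | Occurs D p X a ∧ ¬ Occurs D p Y a}.ncard : ℝ)| ≤
            C * ({a | ∃ j, Occurs (F j).1 (F j).2 Y a}.ncard : ℝ) := by
  classical
  obtain ⟨k, m, F, hne, hap, htr⟩ := main_of_sim theSim
  have hsub : ∀ a : Fin 2 → ℤ, (translate a : ((Fin 2 → ℤ) → Fin k) → _) = sh (-a) := by
    intro a; funext X i; simp [translate, sh, sub_eq_add_neg]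
  refine ⟨k, m, F, hne, ?_, ?_, ?_⟩
  · intro X hX a ha he
    have := hap X hX (-a) ((congrFun (hsub a) X).symm.trans he)
    exact ha (neg_eq_zero.1 this)
  · obtain ⟨μ, h1, h2, h3, h4⟩ := exists_measure_two F hne (phi (1, 0)) (phi (0, 1))
    have h5 := invariant_of_closure μ _ closure_phi (by
      intro a ha
      rcases ha with rfl | rfl
      exacts [h3, h4])
    refine ⟨μ, ⟨h1, h2, fun a => by rw [hsub]; exact h5 _⟩, ?_⟩
    rintro ν ⟨g1, g2, g3⟩
    refine unique_measure htr ν μ g2 h2 (fun a => ?_) h5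
    have := g3 (-a)
    rwa [hsub, neg_neg] at this
  · intro D p
    have hp : Loc (fun X : (Fin 2 → ℤ) → Fin k => ∀ i ∈ D, X i = p i) :=
      ⟨D, fun X Y h => propext (forall₂_congr (fun i hi => by rw [h i hi]))⟩
    obtain ⟨C, hC⟩ := (htr _ (hp.map (fun q => if q then (1 : ℝ) else 0))).sbc
    refine ⟨|C| * m, fun X Y hX hD => ?_⟩
    have h1 := hC X hX Y hD
    rw [@finsum_indicator_diff _ _ _ _ hp _ _ hD (fun _ => Classical.propDecidable _)] at h1
    have hfin := hp.finite_diff hD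
    have hdef := finite_defects (F := F) hX hD
    have hs : {a | ∃ j, Occurs (F j).1 (F j).2 Y a}.Finite :=
      (hdef.image Prod.snd).subset (fun a ⟨j, hj⟩ => ⟨(j, a), hj, rfl⟩)
    refine ⟨hfin.subset (fun a ha he => ha.2 (Eq.mp he ha.1)),
      hfin.subset (fun a ha he => ha.2 (Eq.mpr he ha.1)), hs, h1.trans ?_⟩
    have h2 : {q : Fin m × (Fin 2 → ℤ) | occ F q.1 q.2 Y}.ncard ≤
        m * {a | ∃ j, Occurs (F j).1 (F j).2 Y a}.ncard := by
      have := Set.ncard_le_ncard (s := {q : Fin m × (Fin 2 → ℤ) | occ F q.1 q.2 Y})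
        (t := (Set.univ : Set (Fin m)) ×ˢ {a | ∃ j, Occurs (F j).1 (F j).2 Y a})
        (fun q hq => ⟨trivial, q.1, hq⟩) (Set.finite_univ.prod hs)
      rwa [Set.ncard_prod, Set.ncard_univ, Nat.card_eq_fintype_card, Fintype.card_fin] at this
    have h3 : ({q : Fin m × (Fin 2 → ℤ) | occ F q.1 q.2 Y}.ncard : ℝ) ≤
        m * ({a | ∃ j, Occurs (F j).1 (F j).2 Y a}.ncard : ℝ) := by exact_mod_cast h2
    calc C * ({q : Fin m × (Fin 2 → ℤ) | occ F q.1 q.2 Y}.ncard : ℝ)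
        ≤ |C| * ({q : Fin m × (Fin 2 → ℤ) | occ F q.1 q.2 Y}.ncard : ℝ) :=
          mul_le_mul_of_nonneg_right (le_abs_self C) (Nat.cast_nonneg _)
      _ ≤ |C| * (m * ({a | ∃ j, Occurs (F j).1 (F j).2 Y a}.ncard : ℝ)) :=
          mul_le_mul_of_nonneg_left h3 (abs_nonneg C)
      _ = _ := by ring

end Pool.Agent.Lib.Old.C73c36PlaneSBC
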