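import Pool.Agent.Lib.MP_c8786f_co.W5.X6

/-!
Reducible sets in cubic multigraphs (edge `e` oriented from `s e` to `t e`).  A vertex set contains
a cycle when it spans a nonempty set of edges in which all degrees are even.  Let `p / q > 4` and
`g = 2 ^ (2 ^ 76 * p ^ 10) * (N + 1)`.  If at most `N` vertices of a bridgeless cubic multigraph
meet all cycles shorter than `g`, and some cycle avoids them, there is a set `B` containing a cycle
and left by fewer than `g` edges such that every flow with `q ≤ |f e| ≤ p - q` of the graph with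
`B` contracted extends to the whole graph.
-/

namespace Pool.Agent.Lib.Old.C8786fBoundedGirth

open Finset

theorem result (p q N : ℕ) (h : 4 * q < p) :
    ∀ (V E : Type) [Fintype V] [Fintype E] [DecidableEq V] (s t : E → V) (cyc : Finset V → Prop),
    (∀ v, (univ.filter fun e => s e = v).card + (univ.filter fun e => t e = v).card = 3) →
    (∀ Y, cyc Y ↔ ∃ C : Finset E, C.Nonempty ∧ (∀ e ∈ C, s e ∈ Y ∧ t e ∈ Y) ∧
      ∀ v, Even ((C.filter fun e => s e = v).card + (C.filter fun e => t e = v).card)) →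
    (∀ Y : Finset V, (univ.filter fun e => ¬(s e ∈ Y ↔ t e ∈ Y)).card ≠ 1) →
    ∀ S : Finset V, S.card ≤ N → cyc Sᶜ →
    (∀ Y, cyc Y → Disjoint Y S → 2 ^ (2 ^ 76 * p ^ 10) * (N + 1) ≤ Y.card) →
    ∃ B : Finset V, cyc B ∧ Disjoint B S ∧
      (univ.filter fun e => ¬(s e ∈ B ↔ t e ∈ B)).card < 2 ^ (2 ^ 76 * p ^ 10) * (N + 1) ∧
      ∀ f : E → ℤ,
      (∀ e, ¬(s e ∈ B ∧ t e ∈ B) → (q : ℤ) ≤ |f e| ∧ |f e| ≤ p - q) →
      (∀ v, v ∉ B → (p : ℤ) ∣
        ∑ e ∈ univ.filter (fun e => s e = v), f e - ∑ e ∈ univ.filter (fun e => t e = v), f e) →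
      ∃ f' : E → ℤ, (∀ e, (q : ℤ) ≤ |f' e| ∧ |f' e| ≤ p - q) ∧
        (∀ e, ¬(s e ∈ B ∧ t e ∈ B) → (p : ℤ) ∣ f' e - f e) ∧
        ∀ v, ∑ e ∈ univ.filter (fun e => s e = v), f' e =
          ∑ e ∈ univ.filter (fun e => t e = v), f' e :=
  Pool.Agent.Lib.MP_c8786f_co.W5.finalXE p q N h

end Pool.Agent.Lib.Old.C8786fBoundedGirth
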