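import Mathlib
import Pool.Agent.Lib.MP_fe6d4f_gt.Sp.Suf

/-!
Abelian groups of prime exponent that carry a group topology with a stationary winning strategy.
-/

namespace Pool.Agent.Lib.Old.Cfe6d4fPrimeExponent

open Cardinal Pool.Agent.Lib.MP_fe6d4f_gt.Sp

universe u

theorem prime_exponent (p : ℕ) (hp : p.Prime) (G : Type u) [AddCommGroup G] (hG : ∀ g : G, p • g = 0) :
    List.TFAE
      [∃ τ : TopologicalSpace G, IsTopologicalAddGroup G ∧ T2Space G ∧ WinsSsp G τ,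
       ∃ τ : TopologicalSpace G, IsTopologicalAddGroup G ∧ T2Space G ∧ WinsSp G τ,
       Finite G ∨ ∃ κ : Cardinal.{u}, ℵ₀ ≤ κ ∧ κ ^ ℵ₀ ≤ #G ∧ #G ≤ 2 ^ κ] := by
  tfae_have 1 → 2 := fun ⟨τ, a, b, c⟩ => ⟨τ, a, b, c.sp⟩
  tfae_have 2 → 3 := fun ⟨τ, a, b, c⟩ => by
    rcases finite_or_infinite G with h | h
    · exact Or.inl h
    · exact Or.inr (cond_of (aleph0_le_mk G) fun σ x y => pow_le c x y)
  tfae_have 3 → 1 := by
    rintro (h | ⟨κ, a, b, c⟩)
    · exact suf_fin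
    · exact suf hp hG a b c
  tfae_finish

end Pool.Agent.Lib.Old.Cfe6d4fPrimeExponent
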