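import Mathlib
import Pool.Agent.Lib.MP_cfe824_nt.Family

set_option autoImplicit false

namespace Pool.Agent.Lib.Old.Cfe824GenericRatio

open Pool.Agent.Lib.MP_cfe824_nt

/-- The Mordell curve y^2 = x^3 + b over the rationals
(Weierstrass coefficients a1 = a2 = a3 = a4 = 0, a6 = b). -/
def E (b : ℤ) : WeierstrassCurve ℚ := ⟨0, 0, 0, 0, (b : ℚ)⟩

/-- The rank of the Mordell-Weil group of E b, as the rank of a module over the integers. -/
noncomputable def rk (b : ℤ) : Cardinal := Module.rank ℤ (E b).toAffine.Point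

lemma rk_pos_iff (b : ℤ) : 0 < rk b ↔ Good (b : ℚ) := rank_pos_iff (b : ℚ)

lemma full (Q : ℤ) (hQ : Q ≠ 0) (x y : ℚ) (hx : x ≠ 0) (hy : y ≠ 0) (hxy : x ≠ y)
    (h : x ^ 3 + y ^ 3 = 2 * Q) : {a : ℤ | (∀ s : ℤ, s ^ 6 ∣ a → IsUnit s) ∧
      ∀ i : ℕ, Good ((a : ℚ) * (Q : ℚ) ^ i)}.Infinite := by
  have hQ' : (Q : ℚ) ≠ 0 := by exact_mod_cast hQ
  refine (fam (-x / y) (div_ne_zero (neg_ne_zero.2 hx) hy) (fun c => hQ' ?_) (fun c => hxy ?_)
    Q hQ).mono fun a ha => ⟨ha.1, fun i => ha.2 i (Or.inr ⟨-y / 2, ?_⟩)⟩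
  · field_simp at c; linarith
  · field_simp at c
    exact (Odd.strictMono_pow (by decide : Odd 3)).injective (show x ^ 3 = y ^ 3 by linarith)
  · field_simp; linarith

/-- For every nonzero integer `Q` there are infinitely many sixth-power-free integers `a` such
that `E (a * Q ^ i)` has positive rank for all `i` not congruent to five modulo six, and for all
`i` if `2 Q` or `2 Q ^ 2` is a sum of the cubes of two distinct nonzero rationals. -/
theorem result (Q : ℤ) (hQ : Q ≠ 0) :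
    {a : ℤ | (∀ s : ℤ, s ^ 6 ∣ a → IsUnit s) ∧ ∀ i : ℕ,
      (i % 6 ≠ 5 ∨ ∃ x y : ℚ, x ≠ 0 ∧ y ≠ 0 ∧ x ≠ y ∧
        (x ^ 3 + y ^ 3 = 2 * (Q : ℚ) ∨ x ^ 3 + y ^ 3 = 2 * (Q : ℚ) ^ 2)) →
      0 < rk (a * Q ^ i)}.Infinite := by
  have hQ' : (Q : ℚ) ≠ 0 := by exact_mod_cast hQ
  by_cases h : ∃ x y : ℚ, x ≠ 0 ∧ y ≠ 0 ∧ x ≠ y ∧
      (x ^ 3 + y ^ 3 = 2 * (Q : ℚ) ∨ x ^ 3 + y ^ 3 = 2 * (Q : ℚ) ^ 2)
  · obtain ⟨x, y, hx, hy, hxy, h | h⟩ := h
    · refine (full Q hQ x y hx hy hxy h).mono fun a ha => ⟨ha.1, fun i _ => ?_⟩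
      rw [rk_pos_iff]
      exact_mod_cast ha.2 i
    · refine (full (Q ^ 5) (pow_ne_zero 5 hQ) (x * Q) (y * Q) (by positivity) (by positivity)
        (fun c => hxy (mul_right_cancel₀ hQ' c))
        (by push_cast; linear_combination (Q : ℚ) ^ 3 * h)).mono fun a ha => ⟨ha.1, fun i _ => ?_⟩
      rw [rk_pos_iff]
      have := good_scale (u := ((Q : ℚ) ^ (4 * i))⁻¹) (by positivity) (ha.2 (5 * i))
      convert this using 1
      push_cast
      field_simp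
      ring
  · refine (fam 2 (by norm_num) (by norm_num) (by norm_num) Q hQ).mono fun a ha =>
      ⟨ha.1, fun i hi => ?_⟩
    rw [rk_pos_iff]
    exact_mod_cast ha.2 i (Or.inl (hi.resolve_right h))

end Pool.Agent.Lib.Old.Cfe824GenericRatio
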