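import Pool.Agent.Lib.MP_d476f3_gt.Abs.CatMain

open scoped ENNReal NNReal Manifold ContDiff

namespace Pool.Agent.Lib.Old.D476f3CategoryBound

open Pool.Agent.Lib.MP_d476f3_gt

/-- On a closed manifold of Lusternik-Schnirelmann category at most `n` all absolute systoles can be
made at least `T` with volume of order `T ^ n`. -/
theorem result : ∀ (d n : ℕ), 1 ≤ d →
    ∀ (M : Type) [TopologicalSpace M] [ChartedSpace (EuclideanSpace ℝ (Fin d)) M]
      [IsManifold (𝓡 d) ∞ M] [T2Space M] [CompactSpace M] [ConnectedSpace M]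
      (V : Fin (n + 1) → Set M), (∀ j, IsOpen (V j)) → ⋃ j, V j = Set.univ →
      (∀ j, (⟨Subtype.val, continuous_subtype_val⟩ : C(V j, M)).Nullhomotopic) →
      ∃ C : ℝ≥0, ∀ T : ℝ≥0, 1 ≤ T →
        ∃ g : Stmt.RMetric (EuclideanSpace ℝ (Fin d)) M,
          (∀ k, 1 ≤ k → k ≤ d → (T : ℝ≥0∞) ≤ Abs.absys g k) ∧
          Stmt.vol g d Set.univ ≤ ((C * T ^ n : ℝ≥0) : ℝ≥0∞) := by
  intro d n hd M _ _ _ _ _ _ V h1 h2 h3
  obtain ⟨C, hC⟩ := Abs.cat_master d hd M n V h1 h2 h3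
  refine ⟨C, fun T hT => ?_⟩
  obtain ⟨g, h4, h5⟩ := hC T hT
  exact ⟨g, fun k k0 k1 => le_iInf₂ fun A hA => h4 k k0 k1 A hA, h5⟩

end Pool.Agent.Lib.Old.D476f3CategoryBound
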