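import Pool.Agent.Lib.MP_db815c_an.Final

set_option autoImplicit false

open scoped ENNReal
open Finset

noncomputable section

namespace Pool.Agent.Lib.Old.Db815cNotInToeplitzAlgebra

section
variable {X : Type} [NormedAddCommGroup X] [InnerProductSpace ℂ X] [CompleteSpace X]

/-- The polynomial multiples of `a` are dense. -/
def IsOuter (e : ℕ → X) (a : X) : Prop :=
  Dense (Submodule.span ℂ
    {x : X | ∃ k : ℕ, ∀ n : ℕ, inner ℂ (e n) x = if k ≤ n then inner ℂ (e (n - k)) a else 0} : Set X)

/-- Bounded operators whose matrix is constant along diagonals. -/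
def toeplitz (e : ℕ → X) : Set (X →L[ℂ] X) :=
  {T | ∀ i j : ℕ, inner ℂ (e (i + 1)) (T (e (j + 1))) = inner ℂ (e i) (T (e j))}

/-- The norm closure of the star algebra generated by a set. -/
def cstar (Y : Type) [CStarAlgebra Y] (s : Set Y) : Set Y := closure (StarAlgebra.adjoin ℂ s : Set Y)

/-- The Toeplitz algebra. -/
def toeplitzAlgebra (e : ℕ → X) : Set (X →L[ℂ] X) := cstar (X →L[ℂ] X) (toeplitz e)

/-- Taylor coefficients of the Cauchy integral of `conj b * f`. -/
def coanalytic (e : ℕ → X) (b f : X) (i : ℕ) : ℂ :=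
  ∑' k : ℕ, starRingEnd ℂ (inner ℂ (e k) b) * inner ℂ (e (i + k)) f

/-- `A f` is the product of `g` and the Cauchy integral of `conj h * f`, for every `f`. -/
def IsProduct (e : ℕ → X) (g h : X) (A : X →L[ℂ] X) : Prop :=
  ∀ (f : X) (m : ℕ), inner ℂ (e m) (A f)
    = ∑ i ∈ Finset.range (m + 1), inner ℂ (e (m - i)) g * coanalytic e h f i

end

/-- The Hardy space, as square summable Taylor coefficient sequences. -/
abbrev H2 : Type := lp (fun _ : ℕ => ℂ) 2

/-- The monomials. -/
def mono (j : ℕ) : H2 := lp.single 2 j 1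

lemma mono_eq : mono = Pool.Agent.Lib.MP_db815c_an.e := rfl

open Pool.Agent.Lib.MP_db815c_an in
lemma isOuter_of (a : H2)
    (ha : ∀ x : H2, (∀ k, inner ℂ ((L ^ k) x) a = 0) → (x : ℕ → ℂ) = 0) : IsOuter e a := by
  rw [IsOuter, Submodule.dense_iff_topologicalClosure_eq_top,
    Submodule.topologicalClosure_eq_top_iff, Submodule.eq_bot_iff]
  intro x hx
  apply lp.ext
  refine ha x fun k => ?_
  rw [← inner_conj_symm, inner_L_pow_right]
  rw [(Submodule.mem_orthogonal _ _).1 hx, map_zero]
  refine Submodule.subset_span ⟨k, fun n => ?_⟩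
  rw [← inner_conj_symm, ← inner_L_pow_right, inner_conj_symm]
  split_ifs with hk
  · obtain ⟨d, rfl⟩ := Nat.exists_eq_add_of_le hk
    have : (L ^ k) (e (k + d)) = e d := by
      refine vec_ext fun i => ?_
      rw [inner_e_left, L_pow_apply, e_apply, inner_e_left, e_apply]
      have : (i + k = k + d) ↔ i = d := by omega
      simp only [this]
    rw [this, Nat.add_sub_cancel_left]
  · have : (L ^ k) (e n) = 0 := by
      refine vec_ext fun i => ?_
      rw [inner_e_left, L_pow_apply, e_apply, if_neg (by omega), inner_zero_right]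
    rw [this, inner_zero_left]

open Pool.Agent.Lib.MP_db815c_an in
lemma coanalytic_eq (f : H2) (i : ℕ) : coanalytic e h f i = inner ℂ h ((L ^ i) f) := by
  rw [coanalytic, lp.inner_eq_tsum]
  refine tsum_congr fun n => ?_
  rw [L_pow_apply, RCLike.inner_apply', add_comm, inner_e_left, inner_e_left]

open Pool.Agent.Lib.MP_db815c_an in
lemma A_apply (m : ℕ) (f : H2) : (A f : ℕ → ℂ) m
    = ∑ i ∈ range (m + 1), (g : ℕ → ℂ) (m - i) * coanalytic e h f i := by
  induction m generalizing f with
  | zero =>
    have := delta_A f (e 0)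
    rw [L_e_zero, inner_zero_left, sub_zero, inner_e_left, inner_e_left] at this
    rw [this]
    simp [coanalytic_eq]
  | succ m ih =>
    have := delta_A f (e (m + 1))
    rw [L_e_succ, inner_e_left, inner_e_left, inner_e_left, sub_eq_iff_eq_add, ih] at this
    rw [this, sum_range_succ' _ (m + 1), add_comm (_ * _)]
    congr 1
    · refine sum_congr rfl fun i _ => ?_
      rw [coanalytic_eq, coanalytic_eq, pow_succ, mul_apply_eq_comp, Nat.add_sub_add_right]
    · simp [coanalytic_eq]

theorem result : ∃ g h : H2, IsOuter mono g ∧ IsOuter mono h ∧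
    ∃ A : H2 →L[ℂ] H2, IsProduct mono g h A ∧ A ∉ toeplitzAlgebra mono := by
  rw [mono_eq]
  open Pool.Agent.Lib.MP_db815c_an in
  refine ⟨g, h, isOuter_of g cyclic_g, isOuter_of h cyclic_h, A, fun f m => ?_,
    fun hA => not_loc_A (loc_of_mem_closure_adjoin (s := toeplitz e) ?_ hA)⟩
  · open Pool.Agent.Lib.MP_db815c_an in
    simp only [inner_e_left, A_apply]
  · intro T hT
    open Pool.Agent.Lib.MP_db815c_an in
    refine ext_e fun j => vec_ext fun i => ?_
    open Pool.Agent.Lib.MP_db815c_an in
    rw [mul_apply_eq_comp, mul_apply_eq_comp, inner_L_right, S_e, S_e]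
    exact hT i j

end Pool.Agent.Lib.Old.Db815cNotInToeplitzAlgebra
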