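import Pool.Agent.Lib.MP_dd30de_lc.FinPol

set_option autoImplicit false

namespace Pool.Agent.Lib.Old.Dd30deOtherClasses

open MeasureTheory

/-- The strong operator topology on the unitary group of `H` (the group of surjective linear
isometries): pointwise norm convergence. -/
@[reducible] noncomputable def sot (H : Type) [NormedAddCommGroup H] [InnerProductSpace ℂ H] :
    TopologicalSpace (H ≃ₗᵢ[ℂ] H) :=
  TopologicalSpace.induced (fun u : H ≃ₗᵢ[ℂ] H => fun v : H => u v) Pi.topologicalSpace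

/-- Haar null sets in the sense of Christensen, for a possibly non-abelian topological group. -/
def HaarNull (G : Type) [Group G] (τ : TopologicalSpace G) (A : Set G) : Prop :=
  ∃ B : Set G, @MeasurableSet G (@borel G τ) B ∧ A ⊆ B ∧
    ∃ μ : @Measure G (@borel G τ), @IsProbabilityMeasure G (@borel G τ) μ ∧
      ∀ g h : G, μ ((fun x => g * x * h) '' B) = 0

/-- The conjugacy class of `a`. -/
def conjClass (G : Type) [Group G] (a : G) : Set G := {x | ∃ v : G, x = v * a * v⁻¹}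

theorem result (H : Type) [NormedAddCommGroup H] [InnerProductSpace ℂ H] [CompleteSpace H]
    (e : HilbertBasis ℕ ℂ H) (a : H ≃ₗᵢ[ℂ] H)
    (ha : ¬ ∃ f : HilbertBasis (ℤ × ℕ) ℂ H, ∀ n i, a (f (n, i)) = f (n + 1, i)) :
    HaarNull (H ≃ₗᵢ[ℂ] H) (sot H) (conjClass (H ≃ₗᵢ[ℂ] H) a) := by
  obtain ⟨B, h1, h2, μ, h3, h4⟩ := Pool.Agent.Lib.MP_dd30de_lc.hull_class e a ha
  refine ⟨B, h1, h2, μ, h3, fun g h => measure_mono_null ?_ (h4 g⁻¹ h⁻¹)⟩
  rintro _ ⟨x, hx, rfl⟩
  simpa [mul_assoc] using hx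

end Pool.Agent.Lib.Old.Dd30deOtherClasses
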