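import Pool.Agent.Lib.MP_dd30de_lc.Tightness

set_option autoImplicit false

namespace Pool.Agent.Lib.Old.Dd30deShiftClass

open MeasureTheory

/-- The strong operator topology on the unitary group of `H` (the group of surjective linear
isometries): pointwise norm convergence. -/
@[reducible] noncomputable def sot (H : Type) [NormedAddCommGroup H] [InnerProductSpace ℂ H] :
    TopologicalSpace (H ≃ₗᵢ[ℂ] H) :=
  TopologicalSpace.induced (fun u : H ≃ₗᵢ[ℂ] H => fun v : H => u v) Pi.topologicalSpace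

/-- Haar null sets in the sense of Christensen, for a possibly non-abelian topological group. -/
def HaarNull (G : Type) [Group G] (τ : TopologicalSpace G) (A : Set G) : Prop :=
  ∃ B : Set G, @MeasurableSet G (@borel G τ) B ∧ A ⊆ B ∧
    ∃ μ : @Measure G (@borel G τ), @IsProbabilityMeasure G (@borel G τ) μ ∧
      ∀ g h : G, μ ((fun x => g * x * h) '' B) = 0

/-- The conjugacy class of `a`. -/
def conjClass (G : Type) [Group G] (a : G) : Set G := {x | ∃ v : G, x = v * a * v⁻¹}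

/-- The conjugacy class of the bilateral shift of infinite multiplicity is not Haar null. -/
theorem result (H : Type) [NormedAddCommGroup H] [InnerProductSpace ℂ H] [CompleteSpace H]
    (e : HilbertBasis ℕ ℂ H) :
    ∃ a : H ≃ₗᵢ[ℂ] H, (∃ f : HilbertBasis (ℤ × ℕ) ℂ H, ∀ n i, a (f (n, i)) = f (n + 1, i)) ∧
      ¬ HaarNull (H ≃ₗᵢ[ℂ] H) (sot H) (conjClass (H ≃ₗᵢ[ℂ] H) a) := by
  obtain ⟨a, ha0, ha⟩ := Pool.Agent.Lib.MP_dd30de_lc.exists_class_not_null e
  refine ⟨a, ha0, ?_⟩
  rintro ⟨B, -, hB, μ, hμ, hnull⟩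
  let _ : TopologicalSpace (H ≃ₗᵢ[ℂ] H) := sot H
  let _ : MeasurableSpace (H ≃ₗᵢ[ℂ] H) := borel _
  have : BorelSpace (H ≃ₗᵢ[ℂ] H) := ⟨rfl⟩
  obtain ⟨g, hg⟩ := ha μ id (fun i j => by
    have h0 : Continuous (fun u : H ≃ₗᵢ[ℂ] H => fun v : H => u v) := continuous_induced_dom
    have h1 : Continuous (fun u : H ≃ₗᵢ[ℂ] H => u (e j)) := (continuous_apply (e j)).comp h0
    have h2 : Continuous (fun y : H => ‖inner ℂ (e i) y‖) := by fun_prop
    exact (h2.comp h1).measurable)
  refine hg (measure_mono_null (fun x hx => ?_) (hnull g⁻¹ 1))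
  refine ⟨g * x, hB ?_, by simp⟩
  obtain ⟨c, hc⟩ := isConj_iff.mp hx
  exact ⟨c, hc.symm⟩

end Pool.Agent.Lib.Old.Dd30deShiftClass
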