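import Pool.Agent.Lib.MP_de9007_nt.PS.Main
import Pool.Agent.Lib.MP_de9007_nt.PS.CY

/-! A power saving in the theorem of Stewart on the largest prime factor of `a ^ n - b ^ n`. -/

namespace Pool.Agent.Lib.Old.De9007LargePrimeFactor

open Pool.Agent.Lib.MP_de9007_nt.PS

theorem result : ∃ η : ℝ, 0 < η ∧ ∀ a b : ℤ, 1 < a → -a < b → b < a → IsCoprime a b →
    ∃ N : ℕ, ∀ n : ℕ, N ≤ n → ∃ q : ℕ, q.Prime ∧ (n : ℝ) ^ (1 + η) < q ∧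
      (q : ℤ) ∣ (a ^ n - b ^ n) / (a - b) ∧
      ∀ m : ℕ, 0 < m → m < n → ¬ (q : ℤ) ∣ a ^ m - b ^ m := by
  obtain ⟨η, h0, H⟩ := PD_of_VB VB_thm
  refine ⟨η, h0, fun a b ha h1 h2 hab => ?_⟩
  obtain ⟨N, hN⟩ := H a b hab ha h1 h2
  refine ⟨N + 2, fun n hn => ?_⟩
  obtain ⟨q, q1, q2, q3, q4⟩ := hN n (by omega)
  refine ⟨q, q1, q2, ?_, q4⟩
  rw [← Int.mul_ediv_cancel' (sub_dvd_pow_sub_pow a b n)] at q3
  refine ((Nat.prime_iff_prime_int.1 q1).dvd_or_dvd q3).resolve_left ?_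
  simpa using q4 1 one_pos (by omega)

end Pool.Agent.Lib.Old.De9007LargePrimeFactor
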