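import Mathlib

set_option autoImplicit false

open scoped InnerProductSpace

namespace Pool.Agent.Lib.Old.E5975bDisconnected

/-- The vector `F(x)(u) = (⟨F₁(x),u⟩, …, ⟨F_m(x),u⟩)` of `ℝ^m`. -/
noncomputable def pairing {n m : ℕ} (F : Fin m → EuclideanSpace ℝ (Fin n) → EuclideanSpace ℝ (Fin n))
    (x u : EuclideanSpace ℝ (Fin n)) : Fin m → ℝ :=
  fun l => ⟪F l x, u⟫_ℝ

/-- The cone `C = ℝ^m_+`. -/
def cone (m : ℕ) : Set (Fin m → ℝ) := {c | ∀ l, 0 ≤ c l}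

/-- The Pareto solution set `Sol(F,K)`. -/
def Sol {n m : ℕ} (F : Fin m → EuclideanSpace ℝ (Fin n) → EuclideanSpace ℝ (Fin n))
    (K : Set (EuclideanSpace ℝ (Fin n))) : Set (EuclideanSpace ℝ (Fin n)) :=
  {x | x ∈ K ∧ ∀ y ∈ K, pairing F x (x - y) ∉ cone m \ {0}}

/-- The weak Pareto solution set `Sol^w(F,K)`. -/
def SolW {n m : ℕ} (F : Fin m → EuclideanSpace ℝ (Fin n) → EuclideanSpace ℝ (Fin n))
    (K : Set (EuclideanSpace ℝ (Fin n))) : Set (EuclideanSpace ℝ (Fin n)) :=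
  {x | x ∈ K ∧ ∀ y ∈ K, pairing F x (x - y) ∉ interior (cone m)}

/-- The proper Pareto solution set: the union over `ξ` in the relative interior of the simplex
of the solution sets of the scalar variational inequalities given by `F_ξ = ∑ ξ_l F_l`. -/
def SolPr {n m : ℕ} (F : Fin m → EuclideanSpace ℝ (Fin n) → EuclideanSpace ℝ (Fin n))
    (K : Set (EuclideanSpace ℝ (Fin n))) : Set (EuclideanSpace ℝ (Fin n)) :=
  {x | ∃ ξ : Fin m → ℝ, (∀ l, 0 < ξ l) ∧ ∑ l, ξ l = 1 ∧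
    x ∈ K ∧ ∀ y ∈ K, 0 ≤ ⟪∑ l, ξ l • F l x, y - x⟫_ℝ}

/-- Every `F_l` is monotone on `K`. -/
def IsMonotoneVVI {n m : ℕ} (F : Fin m → EuclideanSpace ℝ (Fin n) → EuclideanSpace ℝ (Fin n))
    (K : Set (EuclideanSpace ℝ (Fin n))) : Prop :=
  ∀ l, ∀ x ∈ K, ∀ y ∈ K, 0 ≤ ⟪F l y - F l x, y - x⟫_ℝ

/-- Every `F_l` is differentiable on an open set containing `K` and has a symmetric Jacobian
matrix at every point of `K`. -/
def IsSymmetricVVI {n m : ℕ} (F : Fin m → EuclideanSpace ℝ (Fin n) → EuclideanSpace ℝ (Fin n))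
    (K : Set (EuclideanSpace ℝ (Fin n))) : Prop :=
  ∀ l, (∃ U : Set (EuclideanSpace ℝ (Fin n)), IsOpen U ∧ K ⊆ U ∧ DifferentiableOn ℝ (F l) U) ∧
    ∀ x ∈ K, ∀ i j : Fin n,
      fderiv ℝ (F l) x (EuclideanSpace.single j 1) i =
        fderiv ℝ (F l) x (EuclideanSpace.single i 1) j

/-- The constraint set of the example. -/
def K0 : Set (EuclideanSpace ℝ (Fin 3)) :=
  {x | 0 ≤ x 0 ∧ 0 ≤ x 1 ∧ 0 ≤ x 2 ∧ (1 - x 0 - x 1) ^ 2 ≤ x 0 * x 2 ∧
    (1 - x 0 - x 1) ^ 2 ≤ x 1 * x 2}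

/-- The two constant vector fields of the example. -/
noncomputable def F0 : Fin 2 → EuclideanSpace ℝ (Fin 3) → EuclideanSpace ℝ (Fin 3) :=
  fun l _ => if l = 0 then !₂[-1, 2, 0] else !₂[2, -1, 0]

/-- Two parallel rays. -/
def R0 : Set (EuclideanSpace ℝ (Fin 3)) :=
  {x | 0 ≤ x 2 ∧ ((x 0 = 1 ∧ x 1 = 0) ∨ (x 0 = 0 ∧ x 1 = 1))}

lemma inner0 (x u : EuclideanSpace ℝ (Fin 3)) : ⟪F0 0 x, u⟫_ℝ = - u 0 + 2 * u 1 := by
  simp [F0, PiLp.inner_apply, Fin.sum_univ_three]; ring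

lemma inner1 (x u : EuclideanSpace ℝ (Fin 3)) : ⟪F0 1 x, u⟫_ℝ = 2 * u 0 - u 1 := by
  simp [F0, PiLp.inner_apply, Fin.sum_univ_three]; ring

lemma soc {r₁ p₁ w₁ r₂ p₂ w₂ a b : ℝ} (ha : 0 ≤ a) (hb : 0 ≤ b) (hp₁ : 0 ≤ p₁) (hw₁ : 0 ≤ w₁)
    (hp₂ : 0 ≤ p₂) (hw₂ : 0 ≤ w₂) (h₁ : r₁ ^ 2 ≤ p₁ * w₁) (h₂ : r₂ ^ 2 ≤ p₂ * w₂) :
    (a * r₁ + b * r₂) ^ 2 ≤ (a * p₁ + b * p₂) * (a * w₁ + b * w₂) := by
  have h3 : 2 * (r₁ * r₂) ≤ p₁ * w₂ + p₂ * w₁ := by
    have h4 : (2 * (r₁ * r₂)) ^ 2 ≤ (p₁ * w₂ + p₂ * w₁) ^ 2 := by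
      have h5 : r₁ ^ 2 * r₂ ^ 2 ≤ (p₁ * w₁) * (p₂ * w₂) :=
        mul_le_mul h₁ h₂ (sq_nonneg _) (mul_nonneg hp₁ hw₁)
      nlinarith [sq_nonneg (p₁ * w₂ - p₂ * w₁)]
    exact le_trans (le_abs_self _)
      (abs_le_of_sq_le_sq' h4 (by positivity) |> abs_le.mpr)
  have hab : 0 ≤ a * b := mul_nonneg ha hb
  nlinarith [mul_le_mul_of_nonneg_left h₁ (sq_nonneg a), mul_le_mul_of_nonneg_left h₂ (sq_nonneg b),
    mul_le_mul_of_nonneg_left h3 hab]

lemma K0_convex : Convex ℝ K0 := by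
  intro x hx y hy a b ha hb hab
  obtain ⟨hx0, hx1, hx2, hx3, hx4⟩ := hx
  obtain ⟨hy0, hy1, hy2, hy3, hy4⟩ := hy
  have e : ∀ i, (a • x + b • y) i = a * x i + b * y i := by intro i; simp
  have hr : 1 - (a * x 0 + b * y 0) - (a * x 1 + b * y 1)
      = a * (1 - x 0 - x 1) + b * (1 - y 0 - y 1) := by
    have : b = 1 - a := by linarith
    subst this; ring
  refine ⟨?_, ?_, ?_, ?_, ?_⟩ <;> simp only [e]
  · positivity
  · positivity
  · positivity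
  · rw [hr]; exact soc ha hb hx0 hx2 hy0 hy2 hx3 hy3
  · rw [hr]; exact soc ha hb hx1 hx2 hy1 hy2 hx4 hy4

lemma K0_closed : IsClosed K0 := by
  have c : ∀ i : Fin 3, Continuous fun x : EuclideanSpace ℝ (Fin 3) => x i := by
    intro i; fun_prop
  have h3 : IsClosed {x : EuclideanSpace ℝ (Fin 3) | (1 - x 0 - x 1) ^ 2 ≤ x 0 * x 2} :=
    isClosed_le (by fun_prop) (by fun_prop)
  have h4 : IsClosed {x : EuclideanSpace ℝ (Fin 3) | (1 - x 0 - x 1) ^ 2 ≤ x 1 * x 2} :=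
    isClosed_le (by fun_prop) (by fun_prop)
  exact (isClosed_le continuous_const (c 0)).inter ((isClosed_le continuous_const (c 1)).inter
    ((isClosed_le continuous_const (c 2)).inter (h3.inter h4)))

lemma R0_subset_SolPr : R0 ⊆ SolPr F0 K0 := by
  rintro x ⟨h2, ⟨h0, h1⟩ | ⟨h0, h1⟩⟩
  · refine ⟨![2/3, 1/3], ?_, ?_, ⟨?_, ?_, h2, ?_, ?_⟩, ?_⟩
    · intro l; fin_cases l <;> simp
    · simp [Fin.sum_univ_two]; norm_num
    · rw [h0]; norm_num
    · rw [h1]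
    · rw [h0, h1]; simpa using h2
    · rw [h0, h1]; simp
    · intro y hy
      rw [sum_inner, Fin.sum_univ_two, real_inner_smul_left, real_inner_smul_left, inner0, inner1]
      simp [h0, h1]
      linarith [hy.2.1]
  · refine ⟨![1/3, 2/3], ?_, ?_, ⟨?_, ?_, h2, ?_, ?_⟩, ?_⟩
    · intro l; fin_cases l <;> simp
    · simp [Fin.sum_univ_two]; norm_num
    · rw [h0]
    · rw [h1]; norm_num
    · rw [h0, h1]; simp
    · rw [h0, h1]; simpa using h2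
    · intro y hy
      rw [sum_inner, Fin.sum_univ_two, real_inner_smul_left, real_inner_smul_left, inner0, inner1]
      simp [h0, h1]
      linarith [hy.1]

lemma SolPr_subset_Sol : SolPr F0 K0 ⊆ Sol F0 K0 := by
  rintro x ⟨ξ, hξ, -, hx, h⟩
  refine ⟨hx, fun y hy hc => ?_⟩
  obtain ⟨hc, hne⟩ := hc
  have h' := h y hy
  rw [sum_inner, Fin.sum_univ_two, real_inner_smul_left, real_inner_smul_left, inner0,
    inner1] at h'
  have c0 := hc 0
  have c1 := hc 1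
  simp only [pairing, inner0, inner1, PiLp.sub_apply] at c0 c1 h'
  apply hne
  have p0 := hξ 0
  have p1 := hξ 1
  have e0 : -(x 0 - y 0) + 2 * (x 1 - y 1) = 0 := by
    nlinarith [mul_nonneg p0.le c0, mul_nonneg p1.le c1]
  have e1 : 2 * (x 0 - y 0) - (x 1 - y 1) = 0 := by
    nlinarith [mul_nonneg p0.le c0, mul_nonneg p1.le c1]
  simp only [Set.mem_singleton_iff]
  funext l
  fin_cases l
  · simpa [pairing, inner0] using e0
  · simpa [pairing, inner1] using e1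

lemma mem_interior_cone {m : ℕ} (c : Fin m → ℝ) : c ∈ interior (cone m) ↔ ∀ l, 0 < c l := by
  have : cone m = Set.pi Set.univ fun _ => Set.Ici (0 : ℝ) := by
    ext c; simp only [cone, Set.mem_pi, Set.mem_ofPred_eq, Set.mem_univ, Set.mem_Ici, true_imp_iff]
  rw [this, interior_pi_set Set.finite_univ]
  simp [Set.mem_pi]

lemma Sol_subset_SolW : Sol F0 K0 ⊆ SolW F0 K0 := by
  rintro x ⟨hx, h⟩
  refine ⟨hx, fun y hy hc => h y hy ⟨interior_subset hc, ?_⟩⟩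
  rw [mem_interior_cone] at hc
  intro h0
  have := hc 0
  rw [Set.mem_singleton_iff.mp h0] at this
  simp at this

lemma SolW_subset_R0 : SolW F0 K0 ⊆ R0 := by
  rintro x ⟨⟨h0, h1, h2, h3, h4⟩, h⟩
  refine ⟨h2, ?_⟩
  rcases h0.eq_or_lt with e0 | p0
  · right
    rw [← e0] at h3
    refine ⟨e0.symm, ?_⟩
    nlinarith [sq_nonneg (1 - x 1)]
  rcases h1.eq_or_lt with e1 | p1
  · left
    rw [← e1] at h4
    refine ⟨?_, e1.symm⟩
    nlinarith [sq_nonneg (1 - x 0)]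
  exfalso
  set δ : ℝ := min (x 0) (x 1) / 2 with hδ
  have hδ0 : 0 < δ := by have := lt_min p0 p1; positivity
  have hp : 0 < x 0 - δ := by have := min_le_left (x 0) (x 1); linarith
  have hq : 0 < x 1 - δ := by have := min_le_right (x 0) (x 1); linarith
  set p := x 0 - δ
  set q := x 1 - δ
  set r := 1 - p - q
  refine h !₂[p, q, r ^ 2 / p + r ^ 2 / q] ⟨?_, ?_, ?_, ?_, ?_⟩ ?_
  · simpa using hp.le
  · simpa using hq.le
  · simp; positivity
  · simp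
    have : p * (r ^ 2 / p + r ^ 2 / q) = r ^ 2 + p * (r ^ 2 / q) := by field_simp
    rw [this]
    have : 0 ≤ p * (r ^ 2 / q) := by positivity
    linarith
  · simp
    have : q * (r ^ 2 / p + r ^ 2 / q) = r ^ 2 + q * (r ^ 2 / p) := by field_simp; ring
    rw [this]
    have : 0 ≤ q * (r ^ 2 / p) := by positivity
    linarith
  · rw [mem_interior_cone]
    intro l
    fin_cases l
    · simp [pairing, inner0, p, q]; linarith
    · simp [pairing, inner1, p, q]; linarith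

lemma R0_nonempty : R0.Nonempty := ⟨!₂[1, 0, 0], by simp [R0]⟩

lemma R0_not_preconnected : ¬ IsPreconnected R0 := by
  intro h
  have c : Continuous fun x : EuclideanSpace ℝ (Fin 3) => x 0 := by fun_prop
  have ha : (!₂[0, 1, 0] : EuclideanSpace ℝ (Fin 3)) ∈ R0 := by simp [R0]
  have hb : (!₂[1, 0, 0] : EuclideanSpace ℝ (Fin 3)) ∈ R0 := by simp [R0]
  have := h.intermediate_value ha hb c.continuousOn
    (show (1 / 2 : ℝ) ∈ Set.Icc _ _ by simp; norm_num)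
  obtain ⟨x, ⟨-, ⟨h0, -⟩ | ⟨h0, -⟩⟩, hx⟩ := this
  · simp only [h0] at hx; norm_num at hx
  · simp only [h0] at hx; norm_num at hx

theorem disconnected :
    ∃ (n m : ℕ) (K : Set (EuclideanSpace ℝ (Fin n)))
      (F : Fin m → EuclideanSpace ℝ (Fin n) → EuclideanSpace ℝ (Fin n)),
      1 ≤ n ∧ 1 ≤ m ∧ K.Nonempty ∧ IsClosed K ∧ Convex ℝ K ∧ (∀ l, ContinuousOn (F l) K) ∧
      IsSymmetricVVI F K ∧ IsMonotoneVVI F K ∧
      ((SolW F K).Nonempty ∧ ¬ IsConnected (SolW F K)) ∧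
      ((Sol F K).Nonempty ∧ ¬ IsConnected (Sol F K)) ∧
      ((SolPr F K).Nonempty ∧ ¬ IsConnected (SolPr F K)) := by
  have e1 : SolPr F0 K0 = R0 := Set.Subset.antisymm
    (SolPr_subset_Sol.trans (Sol_subset_SolW.trans SolW_subset_R0)) R0_subset_SolPr
  have e2 : Sol F0 K0 = R0 := Set.Subset.antisymm
    (Sol_subset_SolW.trans SolW_subset_R0) (R0_subset_SolPr.trans SolPr_subset_Sol)
  have e3 : SolW F0 K0 = R0 := Set.Subset.antisymm SolW_subset_R0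
    (R0_subset_SolPr.trans (SolPr_subset_Sol.trans Sol_subset_SolW))
  have hR : R0.Nonempty ∧ ¬ IsConnected R0 :=
    ⟨R0_nonempty, fun h => R0_not_preconnected h.isPreconnected⟩
  refine ⟨3, 2, K0, F0, by norm_num, by norm_num, ⟨!₂[1, 0, 0], by simp [K0]⟩, K0_closed,
    K0_convex, fun l => continuousOn_const, ?_, ?_, ?_, ?_, ?_⟩
  · intro l
    refine ⟨⟨Set.univ, isOpen_univ, Set.subset_univ _, differentiableOn_const _⟩, ?_⟩
    intro x _ i j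
    have : fderiv ℝ (F0 l) x = 0 := fderiv_const_apply _
    rw [this]; simp
  · intro l x _ y _
    simp [F0]
  · rw [e3]; exact hR
  · rw [e2]; exact hR
  · rw [e1]; exact hR

end Pool.Agent.Lib.Old.E5975bDisconnected
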