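import Pool.Agent.Lib.MP_8115c2_gt.Bu.C4

/-!
In every large dimension a multiple of the boundary of a flat parallelepiped, whose norm dominates
the Euclidean norm, bounds an integral simplicial chain of smaller Hausdorff measure.
-/

open MeasureTheory Set

namespace Pool.Agent.Lib.Old.E8115c2FlatNotMinimal

/-- The linear map sending the standard basis of Euclidean space to the vectors `v j` of the
space of real functions on `Fin N` with the sup norm. -/
noncomputable def lin {n N : ℕ} (v : Fin n → Fin N → ℝ) (x : EuclideanSpace ℝ (Fin n)) :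
    Fin N → ℝ :=
  ∑ j, x j • v j

/-- Integral simplicial chains: a simplex is the list of its vertices. -/
abbrev Chain (N : ℕ) := List (Fin N → ℝ) →₀ ℤ

/-- The boundary: the alternating sum of the faces obtained by deleting one vertex. -/
noncomputable def bdry {N : ℕ} (α : Chain N) : Chain N :=
  α.sum fun l c => ∑ i ∈ Finset.range l.length, Finsupp.single (l.eraseIdx i) ((-1) ^ i * c)

/-- The standard triangulation of the parallelepiped spanned by the vectors `v j`: one simplex
`0, v (σ 0), v (σ 0) + v (σ 1), …` for each permutation `σ`, with its sign. -/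
noncomputable def kuhn {n N : ℕ} (v : Fin n → Fin N → ℝ) : Chain N :=
  ∑ σ : Equiv.Perm (Fin n),
    Finsupp.single (List.ofFn (Fin.partialSum (v ∘ σ))) (Equiv.Perm.sign σ : ℤ)

/-- The `n`-dimensional Hausdorff measure for the sup norm. -/
noncomputable def haus {N : ℕ} (n : ℕ) (s : Set (Fin N → ℝ)) : ENNReal :=
  Measure.euclideanHausdorffMeasure n s

/-- The mass of a chain: the measures of its simplices, counted with multiplicity. -/
noncomputable def mass {N : ℕ} (n : ℕ) (α : Chain N) : ENNReal :=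
  α.sum fun l c => c.natAbs * haus n (convexHull ℝ {x | x ∈ l})

open Pool.Agent.Lib.MP_8115c2_gt.Bu in
theorem result : ∃ n₀ : ℕ, ∀ n ≥ n₀, ∃ (N k : ℕ) (v : Fin n → Fin N → ℝ) (α : Chain N),
    (∀ x : EuclideanSpace ℝ (Fin n), ‖x‖ ≤ ‖lin v x‖) ∧ (∀ l ∈ α.support, l.length = n + 1) ∧
    bdry α = k • bdry (kuhn v) ∧ mass n α < k ∧
    1 ≤ haus n (lin v '' {x | ∀ i, x i ∈ Icc (0 : ℝ) 1}) := by
  obtain ⟨n₀, h⟩ := bS
  refine ⟨max n₀ 2, fun n hn => ?_⟩
  obtain ⟨N, A₀, m, A, h1, h2, h3⟩ := h n (le_of_max_le_left hn)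
  have hn2 := le_of_max_le_right hn
  have e : lin A₀.transpose = fun x : E n => A₀.mulVec x := by
    funext x k
    simp [lin, Matrix.mulVec, dotProduct, Finset.sum_apply, mul_comm]
  have e1 : ∀ α : Chain N, io (bdry α) = bd (io α) := fun α => by
    conv_rhs => rw [← α.sum_single, map_finsuppSum, map_finsuppSum]
    rw [bdry, map_finsuppSum]
    refine Finsupp.sum_congr fun l _ => ?_
    simp [io_single, bd_single, -Finsupp.single_mul]
  have e2 : io (kuhn A₀.transpose) = Ku A₀.transpose := by
    simp only [kuhn, Ku, map_sum, io_single]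
  obtain ⟨β, h4, h5, h6⟩ := fill_real hn2 h2 h3
  obtain ⟨k, α, h7, h8, h9⟩ := exists_int (z := bdry (kuhn A₀.transpose)) _
    (by rw [h5, e1, e2]) h6
  refine ⟨N, k, A₀.transpose, α, by rw [e]; exact h1, fun l hl => h4 l (h7 hl),
    io_inj (by rw [e1, h8, map_nsmul]), ?_, by rw [e, ← vol_cube]; exact dom_le A₀ h1 _⟩
  have h0 : ∀ l ∈ α.support, (α l).natAbs * haus n (convexHull ℝ {x | x ∈ l}) ≠ ⊤ := fun l hl =>
    ENNReal.mul_ne_top (by simp) (hv_fin hn2 (h4 l (h7 hl)))
  have h10 : Ms (wt n) (io α) = (mass n α).toReal := by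
    rw [Ms_apply, mass, Finsupp.sum_of_support_subset (io α) (s := α.support)
      (Finsupp.support_mapRange (hf := Int.cast_zero)) _ (by simp), Finsupp.sum,
      ENNReal.toReal_sum h0]
    refine Finset.sum_congr rfl fun l _ => ?_
    rw [ENNReal.toReal_mul, ENNReal.toReal_natCast, Nat.cast_natAbs, Int.cast_abs]
    rfl
  have h11 : mass n α ≠ ⊤ := ENNReal.sum_ne_top.2 h0
  rw [h10, ← ENNReal.toReal_natCast] at h9
  exact (ENNReal.toReal_lt_toReal h11 (by simp)).1 h9

end Pool.Agent.Lib.Old.E8115c2FlatNotMinimal
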