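import Mathlib
import Pool.Agent.Lib.MP_e96620_co.Main

set_option autoImplicit false

namespace Pool.Agent.Lib.Old.E96620PolyDiscrepancy

/-- The tower function: `tower 0 = 1`, `tower 1 = 2`, `tower (i + 1) = 2 ^ tower i`. -/
def tower : ℕ → ℕ
  | 0 => 1
  | i + 1 => 2 ^ tower i

theorem tower_eq (i : ℕ) : tower i = Pool.Agent.Lib.MP_e96620_co.tw i := by
  induction i with
  | zero => rfl
  | succ i ih => rw [Pool.Agent.Lib.MP_e96620_co.tw_succ, tower, ih]

/-- For every `r` there is `ε > 0` such that for all large `k` and all `N ≤ tower ⌊ε k⌋` some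
`±1` colouring of the subsets of an `N`-element set has normalised discrepancy at most `1 / k ^ r`
on the `k`-subsets of every `2 k`-element set. -/
theorem result (r : ℕ) :
    ∃ ε : ℝ, 0 < ε ∧ ∃ k₀ : ℕ, ∀ k : ℕ, k₀ ≤ k → ∀ N : ℕ, N ≤ tower ⌊ε * (k : ℝ)⌋₊ →
      ∃ γ : Finset (Fin N) → ℝ, (∀ T, γ T = 1 ∨ γ T = -1) ∧
        ∀ S : Finset (Fin N), S.card = 2 * k →
          |∑ T ∈ S.powersetCard k, γ T| / ((S.powersetCard k).card : ℝ) ≤ 1 / (k : ℝ) ^ r := by
  obtain ⟨C, hC, c, hc, hbd⟩ := Pool.Agent.Lib.MP_e96620_co.bd_iterate (2 * (2 * r + 6))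
  have hCR : (2 : ℝ) ≤ C := by exact_mod_cast hC
  have hC0 : (0 : ℝ) < C := by linarith
  refine ⟨1 / C, by positivity, ?_⟩
  refine ⟨C + ⌈102 * c * C ^ (2 * r + 6)⌉₊, fun k hk N hN => ?_⟩
  set h := ⌊1 / (C : ℝ) * k⌋₊ with hh
  rw [tower_eq] at hN
  have hkC : C ≤ k := by omega
  have hk1 : 1 ≤ k := by omega
  have hkR : (C : ℝ) ≤ k := by exact_mod_cast hkC
  have hk1R : (1 : ℝ) ≤ k := by exact_mod_cast hk1
  have hkbig : 102 * c * C ^ (2 * r + 6) ≤ k := by
    refine (Nat.le_ceil _).trans ?_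
    have : ⌈102 * c * C ^ (2 * r + 6)⌉₊ ≤ k := by omega
    exact_mod_cast this
  have hfl : (h : ℝ) ≤ 1 / (C : ℝ) * k := Nat.floor_le (by positivity)
  have hfl2 : 1 / (C : ℝ) * k < h + 1 := Nat.lt_floor_add_one _
  have hCh : (C : ℝ) * h ≤ k := by
    calc (C : ℝ) * h ≤ C * (1 / (C : ℝ) * k) := by gcongr
      _ = k := by field_simp
  have hChN : C * h ≤ k := by exact_mod_cast hCh
  have hCt : C * (h + 1) ≤ 2 * k := by rw [mul_add]; omega
  have ht : h + 1 ≤ k := by nlinarith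
  have hkt : (k : ℝ) ≤ C * ((h + 1 : ℕ) : ℝ) := by
    push_cast
    calc (k : ℝ) = C * (1 / (C : ℝ) * k) := by field_simp
      _ ≤ C * (h + 1) := by gcongr
  have htpos : (0 : ℝ) < ((h + 1 : ℕ) : ℝ) := by positivity
  have hsq : Real.sqrt ((h + 1 : ℕ) : ℝ) ^ (2 * (2 * r + 6)) =
      ((h + 1 : ℕ) : ℝ) ^ (2 * r + 6) := by
    rw [pow_mul, Real.sq_sqrt htpos.le]
  have hb := hbd (h + 1) h le_rfl h le_rfl
  rw [hsq] at hb
  have hchoose : (0 : ℝ) < ((2 * k).choose k : ℕ) := by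
    exact_mod_cast Nat.choose_pos (by omega)
  set δ : ℝ := 1 / (k : ℝ) ^ r with hδdef
  have hδ : 0 < δ := by positivity
  have key : ∃ γ : Finset (Fin N) → Bool, ∀ S : Finset (Fin N), S.card = 2 * k →
      |∑ T ∈ S.powersetCard k, (if γ T then (1 : ℝ) else -1)| ≤
        δ * ((2 * k).choose k : ℕ) := by
    refine Pool.Agent.Lib.MP_e96620_co.exists_colouring (h := h)
      (β := c / ((h + 1 : ℕ) : ℝ) ^ (2 * r + 6))
      hk1 (le_trans hN (Nat.le_add_right _ _)) (by positivity) (by positivity) ?_ ?_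
    · intro A 𝒯 hg hA
      have := hb ∅ A 𝒯 hg (by omega)
      rw [hA] at this
      exact this
    · have h1 : (((2 * (2 * k)) ^ (2 * k * (2 * k) * (h + 1)) : ℕ) : ℝ) ≤
          Real.exp (16 * (k : ℝ) ^ 4) := by
        have a1 : ((2 * (2 * k) : ℕ) : ℝ) ≤ Real.exp (4 * k) := by
          have := Real.add_one_le_exp (4 * (k : ℝ))
          push_cast
          linarith
        have a2 : ((2 * k * (2 * k) * (h + 1) : ℕ) : ℝ) ≤ 4 * (k : ℝ) ^ 3 := by
          have : ((h + 1 : ℕ) : ℝ) ≤ k := by exact_mod_cast ht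
          calc ((2 * k * (2 * k) * (h + 1) : ℕ) : ℝ) = 4 * (k : ℝ) ^ 2 * ((h + 1 : ℕ) : ℝ) := by
                push_cast; ring
            _ ≤ 4 * (k : ℝ) ^ 2 * k := by gcongr
            _ = _ := by ring
        rw [Nat.cast_pow]
        calc ((2 * (2 * k) : ℕ) : ℝ) ^ (2 * k * (2 * k) * (h + 1))
            ≤ Real.exp (4 * k) ^ (2 * k * (2 * k) * (h + 1)) := by gcongr
          _ = Real.exp (((2 * k * (2 * k) * (h + 1) : ℕ) : ℝ) * (4 * k)) := by
              rw [Real.exp_nat_mul]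
          _ ≤ Real.exp (4 * (k : ℝ) ^ 3 * (4 * k)) := by gcongr
          _ = _ := by congr 1; ring
      have h2 : 17 * (k : ℝ) ^ 4 ≤ (δ * ((2 * k).choose k : ℕ)) ^ 2 /
          (2 * (2 ^ (2 * k) * (c / ((h + 1 : ℕ) : ℝ) ^ (2 * r + 6)) *
            ((2 * k).choose k : ℕ))) := by
        have b1 : (2 : ℝ) ^ (2 * k) ≤ 3 * k * ((2 * k).choose k : ℕ) := by
          have := Nat.four_pow_le_two_mul_add_one_mul_central_binom k
          have h' : (4 : ℝ) ^ k ≤ (2 * k + 1) * ((2 * k).choose k : ℕ) := by exact_mod_cast this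
          rw [pow_mul]
          norm_num
          refine h'.trans ?_
          gcongr
          linarith
        have b2 : c / ((h + 1 : ℕ) : ℝ) ^ (2 * r + 6) ≤ c * C ^ (2 * r + 6) / k ^ (2 * r + 6) := by
          rw [div_le_div_iff₀ (by positivity) (by positivity), mul_assoc, ← mul_pow]
          gcongr
        rw [le_div_iff₀ (by positivity)]
        calc 17 * (k : ℝ) ^ 4 *
              (2 * (2 ^ (2 * k) * (c / ((h + 1 : ℕ) : ℝ) ^ (2 * r + 6)) * ((2 * k).choose k : ℕ)))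
            ≤ 17 * (k : ℝ) ^ 4 * (2 * ((3 * k * ((2 * k).choose k : ℕ)) *
                (c * C ^ (2 * r + 6) / k ^ (2 * r + 6)) * ((2 * k).choose k : ℕ))) := by gcongr
          _ = (102 * c * C ^ (2 * r + 6)) / k ^ (2 * r + 1) *
                (((2 * k).choose k : ℕ) : ℝ) ^ 2 := by
              field_simp
              ring
          _ ≤ k / k ^ (2 * r + 1) * (((2 * k).choose k : ℕ) : ℝ) ^ 2 := by gcongr
          _ = _ := by
              rw [hδdef]
              field_simp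
              ring
      have h3 : (2 : ℝ) < Real.exp ((k : ℝ) ^ 4) := by
        have a1 : (1 : ℝ) ≤ (k : ℝ) ^ 4 := one_le_pow₀ hk1R
        have a2 := Real.add_one_lt_exp (x := (k : ℝ) ^ 4) (by positivity)
        linarith
      calc 2 * (((2 * (2 * k)) ^ (2 * k * (2 * k) * (h + 1)) : ℕ) : ℝ) *
            Real.exp (-((δ * ((2 * k).choose k : ℕ)) ^ 2 /
              (2 * (2 ^ (2 * k) * (c / ((h + 1 : ℕ) : ℝ) ^ (2 * r + 6)) *
                ((2 * k).choose k : ℕ)))))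
          ≤ 2 * Real.exp (16 * (k : ℝ) ^ 4) * Real.exp (-(17 * (k : ℝ) ^ 4)) := by
            gcongr
        _ < Real.exp ((k : ℝ) ^ 4) * Real.exp (16 * (k : ℝ) ^ 4) *
            Real.exp (-(17 * (k : ℝ) ^ 4)) := by gcongr
        _ = 1 := by
            rw [← Real.exp_add, ← Real.exp_add, ← Real.exp_zero]
            congr 1
            ring
  obtain ⟨γ, hγ⟩ := key
  refine ⟨fun T => if γ T then 1 else -1, fun T => ?_, fun S hS => ?_⟩
  · by_cases hT : γ T <;> simp [hT]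
  · rw [Finset.card_powersetCard, hS, div_le_iff₀ hchoose]
    exact hγ S hS

end Pool.Agent.Lib.Old.E96620PolyDiscrepancy
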