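import Mathlib
import Pool.Agent.Lib.MP_e968d9_an.Model

set_option autoImplicit false

namespace Pool.Agent.Lib.Old.E968d9Affine

/-- `H` with `ι` is any Hilbert space realisation of the Hardy space of the right half-plane
(one exists: `Pool.Agent.Lib.MP_e968d9_an.model_exists`). If the composition operator with an
analytic selfmap `φ` is a bounded normal operator `T`, then `φ` is affine. -/
theorem result {H : Type*} [NormedAddCommGroup H] [InnerProductSpace ℂ H] [CompleteSpace H]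
    (ι : H →ₗ[ℂ] (ℂ → ℂ))
    (hdiff : ∀ f : H, DifferentiableOn ℂ (ι f) {z : ℂ | 0 < z.re})
    (hnorm : ∀ f : H, (⨆ (x : ℝ) (_ : 0 < x), ∫⁻ y : ℝ,
      (‖ι f ((x : ℂ) + (y : ℂ) * Complex.I)‖₊ : ENNReal) ^ 2) = ENNReal.ofReal (‖f‖ ^ 2))
    (hsurj : ∀ F : ℂ → ℂ, DifferentiableOn ℂ F {z : ℂ | 0 < z.re} →
      (⨆ (x : ℝ) (_ : 0 < x), ∫⁻ y : ℝ,
        (‖F ((x : ℂ) + (y : ℂ) * Complex.I)‖₊ : ENNReal) ^ 2) < ⊤ →
      ∃ f : H, ∀ z : ℂ, 0 < z.re → ι f z = F z)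
    (φ : ℂ → ℂ) (hd : DifferentiableOn ℂ φ {z : ℂ | 0 < z.re})
    (hm : Set.MapsTo φ {z : ℂ | 0 < z.re} {z : ℂ | 0 < z.re})
    (T : H →L[ℂ] H) (hT : ∀ (f : H) (z : ℂ), 0 < z.re → ι (T f) z = ι f (φ z))
    (hn : IsStarNormal T) :
    ∃ (a : ℝ) (b : ℂ), 0 < a ∧ 0 ≤ b.re ∧ ∀ z : ℂ, 0 < z.re → φ z = a * z + b :=
  Pool.Agent.Lib.MP_e968d9_an.affine_of_model ι hdiff hnorm hsurj hd hm hT hn

end Pool.Agent.Lib.Old.E968d9Affine
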