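import Mathlib

/-!
Randomized `F_2`-linear sketches can be polynomially longer than public-coin one-way protocols for
the XOR function.

The inputs have `3 m` address bits `u (c, a)` and `m ^ 3` data bits `v T`, one for each triple
`T : Fin 3 → Fin m`. The function is the OR of the data bits `v T` over the triples `T` for which
the number of `c` with `u (c, T c) = 1` is not `1`. Alice sends her address bits and a random
`F_3`-linear sketch with `3 m + 1` entries, so `9 m + 2` bits suffice. A randomized `F_2`-linear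
sketch needs `m ^ 2 / 9` parities, by a rank argument for the Hadamard product with the matrix of
intersection sizes modulo 2.
-/

namespace Pool.Agent.Lib.Old.Ed2356SketchGap

open Finset

/-- Randomized linear sketch complexity: the least `k` for which there are a probability
distribution `μ` on `k`-tuples of subsets of `[n]` and a recovery rule `g` that is correct with
probability at least `2 / 3` on every input. -/
noncomputable def Rlin {n : ℕ} (f : (Fin n → ZMod 2) → Bool) : ℕ :=
  sInf {k : ℕ | ∃ (μ : (Fin k → Finset (Fin n)) → ℝ)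
      (g : (Fin k → Finset (Fin n)) → (Fin k → ZMod 2) → Bool),
      (∀ S, 0 ≤ μ S) ∧ ∑ S, μ S = 1 ∧
      ∀ x, (2 / 3 : ℝ) ≤ ∑ S, if g S (fun i => ∑ j ∈ S i, x j) = f x then μ S else 0}

/-- Public-coin one-way communication complexity: the least `c` for which there are a finite
probability space of public coins `ω`, messages `a ω x` of `c` bits from Alice and outputs
`b ω msg y` of Bob, correct with probability at least `2 / 3` on every input. -/
noncomputable def Rone {X Y : Type} (F : X → Y → Bool) : ℕ :=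
  sInf {c : ℕ | ∃ (Ω : Type) (_ : Fintype Ω) (μ : Ω → ℝ) (a : Ω → X → (Fin c → Bool))
      (b : Ω → (Fin c → Bool) → Y → Bool),
      (∀ ω, 0 ≤ μ ω) ∧ ∑ ω, μ ω = 1 ∧
      ∀ x y, (2 / 3 : ℝ) ≤ ∑ ω, if b ω (a ω x) y = F x y then μ ω else 0}

/-- A protocol with uniform coins and messages from a small finite set. -/
theorem Rone_le {X Y Ω M : Type} [Fintype Ω] [Nonempty Ω] [Fintype M] [Nonempty M]
    (F : X → Y → Bool) (c : ℕ) (hM : Fintype.card M ≤ 2 ^ c)
    (a : Ω → X → M) (b : Ω → M → Y → Bool)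
    (h : ∀ x y, 2 * Fintype.card Ω ≤ 3 * (univ.filter (fun ω => b ω (a ω x) y = F x y)).card) :
    Rone F ≤ c := by
  classical
  have hc : Fintype.card M ≤ Fintype.card (Fin c → Bool) := by simpa using hM
  obtain ⟨enc⟩ := Function.Embedding.nonempty_of_card_le hc
  have hpos : (0 : ℝ) < Fintype.card Ω := by exact_mod_cast Fintype.card_pos
  apply Nat.sInf_le
  refine ⟨Ω, inferInstance, fun _ => 1 / (Fintype.card Ω : ℝ), fun ω x => enc (a ω x),
    fun ω msg y => b ω (Function.invFun enc msg) y, fun _ => by positivity, ?_, ?_⟩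
  · simp only [Finset.sum_const, Finset.card_univ, nsmul_eq_mul]
    field_simp
  · intro x y
    have hl : ∀ ω, Function.invFun enc (enc (a ω x)) = a ω x := fun ω =>
      Function.leftInverse_invFun enc.injective _
    simp only [hl]
    rw [← Finset.sum_filter, Finset.sum_const, nsmul_eq_mul]
    have h1 : (2 * Fintype.card Ω : ℝ) ≤
        3 * ((univ.filter (fun ω => b ω (a ω x) y = F x y)).card : ℝ) := by
      exact_mod_cast h x y
    rw [mul_one_div, le_div_iff₀ hpos]
    linarith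

/-- A nonzero linear form over `F_3` is nonzero at two thirds of the points. -/
theorem count_nonzero {V : Type} [Fintype V] [DecidableEq V] (d : V → ZMod 3) (T₀ : V)
    (h : d T₀ ≠ 0) :
    2 * Fintype.card (V → ZMod 3) ≤
      3 * (univ.filter (fun s : V → ZMod 3 => ∑ T, s T * d T ≠ 0)).card := by
  classical
  have : Fact (Nat.Prime 3) := ⟨by norm_num⟩
  let φ : (V → ZMod 3) →+ ZMod 3 :=
    { toFun := fun s => ∑ T, s T * d T
      map_zero' := by simp
      map_add' := by intro s t; simp [add_mul, Finset.sum_add_distrib] }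
  have hsurj : ∀ t : ZMod 3, t ∈ Set.range φ := by
    intro t
    refine ⟨Pi.single T₀ (t / d T₀), ?_⟩
    simp only [φ, AddMonoidHom.coe_mk, ZeroHom.coe_mk, Pi.single_apply, ite_mul, zero_mul,
      Finset.sum_ite_eq', Finset.mem_univ, if_true]
    field_simp
  have hfib : ∀ t : ZMod 3, (univ.filter (fun s => φ s = t)).card
      = (univ.filter (fun s => φ s = 0)).card := fun t =>
    AddMonoidHom.card_fiber_eq_of_mem_range φ (hsurj t) (hsurj 0)
  have htot : Fintype.card (V → ZMod 3) = ∑ t : ZMod 3, (univ.filter (fun s => φ s = t)).card := by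
    rw [← Finset.card_univ]
    exact Finset.card_eq_sum_card_fiberwise (fun _ _ => Finset.mem_univ _)
  simp only [hfib, Finset.sum_const, Finset.card_univ, ZMod.card, smul_eq_mul] at htot
  have hsplit := Finset.card_filter_add_card_filter_not (s := (univ : Finset (V → ZMod 3)))
    (fun s => φ s = 0)
  rw [Finset.card_univ] at hsplit
  have : (univ.filter (fun s : V → ZMod 3 => ∑ T, s T * d T ≠ 0))
      = univ.filter (fun s => ¬ φ s = 0) := rfl
  rw [this]
  omega

/-- The coordinates: address bits and data bits. -/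
abbrev Idx (m : ℕ) : Type := (Fin 3 × Fin m) ⊕ (Fin 3 → Fin m)

/-- A bit read in `F_3`. -/
def lift (x : ZMod 2) : ZMod 3 := if x = 1 then 1 else 0

/-- The entry of the `F_3` matrix. -/
def ent {m : ℕ} (u : Fin 3 × Fin m → ZMod 2) (T : Fin 3 → Fin m) : ZMod 3 :=
  ∑ c, lift (u (c, T c)) - 1

/-- The separating function. -/
def sep {m : ℕ} (z : Idx m → ZMod 2) : Bool :=
  decide (∃ T, z (Sum.inr T) ≠ 0 ∧ ent (fun p => z (Sum.inl p)) T ≠ 0)

theorem lift_sub_ne (x y : ZMod 2) : lift x - lift y ≠ 0 ↔ x + y ≠ 0 := by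
  revert x y; decide

theorem upper {m n : ℕ} (e : Idx m ≃ Fin n) :
    Rone (fun x y : Fin n → ZMod 2 => sep ((x + y) ∘ e)) ≤ 9 * m + 2 := by
  classical
  have : Fact (Nat.Prime 3) := ⟨by norm_num⟩
  refine Rone_le (Ω := (Fin 3 → Fin m) → ZMod 3)
    (M := (Fin 3 × Fin m → ZMod 2) × (Fin 3 × Fin m → ZMod 3) × ZMod 3) _ _ ?_
    (fun s x => (fun p => x (e (Sum.inl p)),
      fun p => ∑ T, if T p.1 = p.2 then s T * lift (x (e (Sum.inr T))) else 0,
      ∑ T, s T * lift (x (e (Sum.inr T)))))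
    (fun s msg y => decide (∑ p, lift (msg.1 p + y (e (Sum.inl p))) * msg.2.1 p - msg.2.2
      - ∑ T, s T * lift (y (e (Sum.inr T))) * ent (fun p => msg.1 p + y (e (Sum.inl p))) T ≠ 0))
    ?_
  · simp only [Fintype.card_prod, Fintype.card_pi, ZMod.card, Finset.prod_const,
      Finset.card_univ, Fintype.card_fin]
    have h1 : 3 ^ (3 * m) ≤ 4 ^ (3 * m) := Nat.pow_le_pow_left (by norm_num) _
    have h2 : 2 ^ (9 * m + 2) = 2 ^ (3 * m) * (4 ^ (3 * m) * 4) := by
      rw [show (4 : ℕ) = 2 ^ 2 by norm_num, ← pow_mul, ← pow_add, ← pow_add]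
      congr 1; ring
    rw [h2]
    exact Nat.mul_le_mul_left _ (Nat.mul_le_mul h1 (by norm_num))
  · intro x y
    set u : Fin 3 × Fin m → ZMod 2 := fun p => x (e (Sum.inl p)) + y (e (Sum.inl p)) with hu
    set d : (Fin 3 → Fin m) → ZMod 3 :=
      fun T => (lift (x (e (Sum.inr T))) - lift (y (e (Sum.inr T)))) * ent u T with hd
    have key : ∀ s : (Fin 3 → Fin m) → ZMod 3,
        ∑ p : Fin 3 × Fin m, lift (u p) *
          (∑ T : Fin 3 → Fin m, if T p.1 = p.2 then s T * lift (x (e (Sum.inr T))) else 0)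
          - ∑ T, s T * lift (x (e (Sum.inr T)))
          - ∑ T, s T * lift (y (e (Sum.inr T))) * ent u T = ∑ T, s T * d T := by
      intro s
      have h1 : ∑ p : Fin 3 × Fin m, lift (u p) *
          (∑ T : Fin 3 → Fin m, if T p.1 = p.2 then s T * lift (x (e (Sum.inr T))) else 0)
          = ∑ T : Fin 3 → Fin m, s T * lift (x (e (Sum.inr T))) * ∑ c, lift (u (c, T c)) := by
        simp only [Finset.mul_sum]
        rw [Finset.sum_comm]
        refine Finset.sum_congr rfl (fun T _ => ?_)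
        rw [Fintype.sum_prod_type]
        refine Finset.sum_congr rfl (fun c _ => ?_)
        simp only [mul_ite, mul_zero, Finset.sum_ite_eq, Finset.mem_univ, if_true]
        ring
      rw [h1, ← Finset.sum_sub_distrib, ← Finset.sum_sub_distrib]
      refine Finset.sum_congr rfl (fun T _ => ?_)
      simp only [hd, ent]
      ring
    have hsep : sep ((x + y) ∘ e) = decide (∃ T, d T ≠ 0) := by
      simp only [sep, Function.comp, Pi.add_apply, hd, mul_ne_zero_iff, lift_sub_ne]
      rfl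
    have hfil : (univ.filter (fun s : (Fin 3 → Fin m) → ZMod 3 =>
        decide (∑ p : Fin 3 × Fin m, lift (u p) *
          (∑ T : Fin 3 → Fin m, if T p.1 = p.2 then s T * lift (x (e (Sum.inr T))) else 0)
          - ∑ T, s T * lift (x (e (Sum.inr T)))
          - ∑ T, s T * lift (y (e (Sum.inr T))) * ent u T ≠ 0) = sep ((x + y) ∘ e)))
        = univ.filter (fun s : (Fin 3 → Fin m) → ZMod 3 =>
          decide (∑ T, s T * d T ≠ 0) = decide (∃ T, d T ≠ 0)) := by
      simp only [key, hsep]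
    refine le_of_le_of_eq ?_ (congrArg (fun t => 3 * t.card) hfil).symm
    by_cases hex : ∃ T, d T ≠ 0
    · obtain ⟨T₀, hT₀⟩ := id hex
      have := count_nonzero d T₀ hT₀
      simpa [hex] using this
    · have h0 : ∀ T, d T = 0 := by simpa using hex
      rw [Finset.filter_true_of_mem (by intro s _; simp [h0]), Finset.card_univ]
      omega

/-- The address bits of a triple. -/
def addr {m : ℕ} (a : Fin 3 → Fin m) : Fin 3 × Fin m → ZMod 2 :=
  fun p => if a p.1 = p.2 then 1 else 0

/-- The data bits that the hard distribution may switch on for the address `a`. -/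
def InD {m : ℕ} (a T : Fin 3 → Fin m) : Prop := T = a ∨ ent (addr a) T = 0

instance {m : ℕ} (a T : Fin 3 → Fin m) : Decidable (InD a T) := by
  unfold InD; infer_instance

/-- The hard inputs. -/
def inp {m : ℕ} (a : Fin 3 → Fin m) (v : (Fin 3 → Fin m) → ZMod 2) : Idx m → ZMod 2 :=
  Sum.elim (addr a) (fun T => if InD a T then v T else 0)

theorem ent_self {m : ℕ} (a : Fin 3 → Fin m) : ent (addr a) a ≠ 0 := by
  simp only [ent, addr, if_true, Fin.sum_univ_three]
  decide

theorem sep_inp {m : ℕ} (a : Fin 3 → Fin m) (v : (Fin 3 → Fin m) → ZMod 2) :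
    sep (inp a v) = decide (v a ≠ 0) := by
  have hu : (fun p => inp a v (Sum.inl p)) = addr a := rfl
  simp only [sep, hu, decide_eq_decide]
  constructor
  · rintro ⟨T, h1, h2⟩
    simp only [inp, Sum.elim_inr] at h1
    by_cases hD : InD a T
    · rcases hD with rfl | hD
      · simpa [InD] using h1
      · exact absurd hD h2
    · simp [hD] at h1
  · intro h
    exact ⟨a, by simpa [inp, InD] using h, ent_self a⟩

theorem parity_zero {m : ℕ} (a T : Fin 3 → Fin m) (h : ¬ InD a T) :
    (∑ c, if T c = a c then (1 : ZMod 2) else 0) = 0 := by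
  simp only [InD, not_or, ent, addr, Fin.sum_univ_three] at h
  obtain ⟨h1, h2⟩ := h
  rw [Fin.sum_univ_three]
  by_cases h0 : T 0 = a 0 <;> by_cases h1' : T 1 = a 1 <;> by_cases h2' : T 2 = a 2
  · exact absurd (funext fun c => by fin_cases c <;> assumption) h1
  all_goals
    simp only [h0, h1', h2', eq_comm (a := a _), if_true, if_false] at h2 ⊢
    first
      | decide
      | exact absurd (by decide) h2

/-- The sketch determines the addressed bit. -/
def Good {m k : ℕ} (b : Fin k → (Fin 3 → Fin m) → ZMod 2) (a : Fin 3 → Fin m) : Prop :=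
  ¬ ∃ δ : (Fin 3 → Fin m) → ZMod 2, δ a ≠ 0 ∧ (∀ T, ¬ InD a T → δ T = 0) ∧
    ∀ i, ∑ T, b i T * δ T = 0

open Classical in
theorem good_card {m k : ℕ} (b : Fin k → (Fin 3 → Fin m) → ZMod 2) :
    (univ.filter (Good b)).card ≤ k * (3 * m) := by
  let β : (univ.filter (Good b)) → (Fin k × (Fin 3 × Fin m) → ZMod 2) :=
    fun T q => b q.1 T.1 * (if T.1 q.2.1 = q.2.2 then 1 else 0)
  have hli : LinearIndependent (ZMod 2) β := by
    rw [Fintype.linearIndependent_iff]
    intro g hg a
    by_contra hne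
    have hgood : Good b a.1 := (Finset.mem_filter.mp a.2).2
    apply hgood
    let g' : (Fin 3 → Fin m) → ZMod 2 :=
      fun T => if h : T ∈ univ.filter (Good b) then g ⟨T, h⟩ else 0
    refine ⟨fun T => g' T * ∑ c, if T c = a.1 c then (1 : ZMod 2) else 0, ?_, ?_, ?_⟩
    · have h1 : g' a.1 = g a := by simp only [g', a.2, dif_pos]
      have h2 : (∑ c : Fin 3, if a.1 c = a.1 c then (1 : ZMod 2) else 0) = 1 := by
        simp only [if_true, Fin.sum_univ_three]; decide
      show g' a.1 * (∑ c : Fin 3, if a.1 c = a.1 c then (1 : ZMod 2) else 0) ≠ 0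
      rw [h1, h2, mul_one]
      exact hne
    · intro T hT
      simp only [parity_zero _ _ hT, mul_zero]
    · intro i
      have h1 : ∀ c : Fin 3, ∑ T, g' T * (b i T * if T c = a.1 c then (1 : ZMod 2) else 0) = 0 := by
        intro c
        have h2 := congrFun hg (i, (c, a.1 c))
        simp only [Finset.sum_apply, Pi.smul_apply, smul_eq_mul, β, Pi.zero_apply] at h2
        refine Eq.trans ?_ h2
        rw [← Finset.sum_subset (Finset.subset_univ (univ.filter (Good b)))]
        · rw [← Finset.sum_coe_sort]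
          refine Finset.sum_congr rfl (fun T _ => ?_)
          simp only [g', T.2, dif_pos]
        · intro T _ hT
          simp only [g', hT, dif_neg, not_false_eq_true, zero_mul]
      calc ∑ T, b i T * (g' T * ∑ c, if T c = a.1 c then (1 : ZMod 2) else 0)
          = ∑ T, ∑ c, g' T * (b i T * if T c = a.1 c then (1 : ZMod 2) else 0) := by
            refine Finset.sum_congr rfl (fun T _ => ?_)
            rw [← Finset.mul_sum, ← Finset.mul_sum]; ring
        _ = ∑ c, ∑ T, g' T * (b i T * if T c = a.1 c then (1 : ZMod 2) else 0) :=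
            Finset.sum_comm
        _ = 0 := by simp only [h1, Finset.sum_const_zero]
  have := hli.fintype_card_le_finrank
  rw [Fintype.card_coe] at this
  simpa using this

theorem half_count {m k n : ℕ} (e : Idx m ≃ Fin n) (S : Fin k → Finset (Fin n))
    (g : (Fin k → ZMod 2) → Bool) (a : Fin 3 → Fin m)
    (h : ¬ Good (fun i T => if e (Sum.inr T) ∈ S i then 1 else 0) a) :
    2 * (univ.filter (fun v : (Fin 3 → Fin m) → ZMod 2 =>
      g (fun i => ∑ j ∈ S i, inp a v (e.symm j)) = decide (v a ≠ 0))).card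
      ≤ Fintype.card ((Fin 3 → Fin m) → ZMod 2) := by
  classical
  obtain ⟨δ, h1, h2, h3⟩ := not_not.mp h
  have hsk : ∀ v : (Fin 3 → Fin m) → ZMod 2,
      (fun i => ∑ j ∈ S i, inp a (v + δ) (e.symm j)) = fun i => ∑ j ∈ S i, inp a v (e.symm j) := by
    intro v
    funext i
    have hadd : ∀ t, inp a (v + δ) t = inp a v t + Sum.elim (fun _ => 0) δ t := by
      rintro (p | T)
      · simp [inp]
      · by_cases hD : InD a T
        · simp [inp, hD]
        · simp [inp, hD, h2 T hD]
    simp only [hadd, Finset.sum_add_distrib, add_eq_left]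
    have h4 : ∑ j ∈ S i, Sum.elim (fun _ => (0 : ZMod 2)) δ (e.symm j)
        = ∑ t : Idx m, if e t ∈ S i then Sum.elim (fun _ => (0 : ZMod 2)) δ t else 0 := by
      rw [← Equiv.sum_comp e.symm]
      simp [Finset.sum_ite_mem]
    rw [h4, Fintype.sum_sum_type]
    have h5 := h3 i
    simp only [ite_mul, one_mul, zero_mul] at h5
    simp [h5]
  have hsplit := Finset.card_filter_add_card_filter_not
    (s := (univ : Finset ((Fin 3 → Fin m) → ZMod 2)))
    (fun v => g (fun i => ∑ j ∈ S i, inp a v (e.symm j)) = decide (v a ≠ 0))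
  rw [Finset.card_univ] at hsplit
  have hle : (univ.filter (fun v : (Fin 3 → Fin m) → ZMod 2 =>
      g (fun i => ∑ j ∈ S i, inp a v (e.symm j)) = decide (v a ≠ 0))).card
      ≤ (univ.filter (fun v : (Fin 3 → Fin m) → ZMod 2 =>
      ¬ g (fun i => ∑ j ∈ S i, inp a v (e.symm j)) = decide (v a ≠ 0))).card := by
    refine Finset.card_le_card_of_injOn (fun v => v + δ) ?_ ?_
    · intro v hv
      simp only [Finset.coe_filter, Finset.mem_univ, true_and, Set.mem_ofPred_eq] at hv ⊢
      rw [hsk v, hv, Pi.add_apply]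
      have : ∀ x y : ZMod 2, y ≠ 0 → ¬ decide (x ≠ 0) = decide (x + y ≠ 0) := by decide
      exact this _ _ h1
    · intro v _ w _ hvw
      exact add_right_cancel hvw
  omega

theorem sketch_count {m k n : ℕ} (e : Idx m ≃ Fin n) (S : Fin k → Finset (Fin n))
    (g : (Fin k → ZMod 2) → Bool) :
    2 * ∑ a : Fin 3 → Fin m, (univ.filter (fun v : (Fin 3 → Fin m) → ZMod 2 =>
      g (fun i => ∑ j ∈ S i, inp a v (e.symm j)) = decide (v a ≠ 0))).card
      ≤ Fintype.card ((Fin 3 → Fin m) → ZMod 2) * (m ^ 3 + k * (3 * m)) := by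
  classical
  set b : Fin k → (Fin 3 → Fin m) → ZMod 2 := fun i T => if e (Sum.inr T) ∈ S i then 1 else 0
  set N := Fintype.card ((Fin 3 → Fin m) → ZMod 2) with hN
  have h1 : ∀ a : Fin 3 → Fin m, 2 * (univ.filter (fun v : (Fin 3 → Fin m) → ZMod 2 =>
      g (fun i => ∑ j ∈ S i, inp a v (e.symm j)) = decide (v a ≠ 0))).card
      ≤ N * (1 + if Good b a then 1 else 0) := by
    intro a
    by_cases hg : Good b a
    · have := Finset.card_le_univ (univ.filter (fun v : (Fin 3 → Fin m) → ZMod 2 =>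
        g (fun i => ∑ j ∈ S i, inp a v (e.symm j)) = decide (v a ≠ 0)))
      simp only [hg, if_true]
      omega
    · have := half_count e S g a hg
      simp only [hg, if_false]
      omega
  rw [Finset.mul_sum]
  refine (Finset.sum_le_sum (fun a _ => h1 a)).trans ?_
  rw [← Finset.mul_sum, Finset.sum_add_distrib]
  apply Nat.mul_le_mul_left
  have h2 := good_card b
  rw [Finset.card_filter] at h2
  simp only [Finset.sum_const, Finset.card_univ, Fintype.card_pi, Fintype.card_fin,
    Finset.prod_const, smul_eq_mul, mul_one]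
  exact Nat.add_le_add_left h2 _

theorem lower {m n : ℕ} (hm : 0 < m) (e : Idx m ≃ Fin n) :
    m ^ 2 ≤ 9 * Rlin (fun x : Fin n → ZMod 2 => sep (x ∘ e)) := by
  classical
  set f : (Fin n → ZMod 2) → Bool := fun x => sep (x ∘ e) with hf
  have hne : {k : ℕ | ∃ (μ : (Fin k → Finset (Fin n)) → ℝ)
      (g : (Fin k → Finset (Fin n)) → (Fin k → ZMod 2) → Bool),
      (∀ S, 0 ≤ μ S) ∧ ∑ S, μ S = 1 ∧
      ∀ x, (2 / 3 : ℝ) ≤ ∑ S, if g S (fun i => ∑ j ∈ S i, x j) = f x then μ S else 0}.Nonempty := by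
    refine ⟨n, fun S => if S = fun i => {i} then 1 else 0, fun _ v => f v, ?_, ?_, ?_⟩
    · intro S; dsimp only; split_ifs <;> norm_num
    · simp
    · intro x
      rw [Finset.sum_eq_single (fun i => {i})]
      · simp; norm_num
      · intro S _ hS; simp [hS]
      · simp
  obtain ⟨μ, g, hμ0, hμ1, hμ⟩ := Nat.sInf_mem hne
  change m ^ 2 ≤ 9 * sInf _
  generalize sInf {k : ℕ | ∃ (μ : (Fin k → Finset (Fin n)) → ℝ)
      (g : (Fin k → Finset (Fin n)) → (Fin k → ZMod 2) → Bool),
      (∀ S, 0 ≤ μ S) ∧ ∑ S, μ S = 1 ∧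
      ∀ x, (2 / 3 : ℝ) ≤ ∑ S, if g S (fun i => ∑ j ∈ S i, x j) = f x then μ S else 0} = k
      at μ g hμ0 hμ1 hμ ⊢
  set N := Fintype.card ((Fin 3 → Fin m) → ZMod 2) with hN
  have hNpos : (0 : ℝ) < N := by exact_mod_cast Fintype.card_pos
  have hfi : ∀ a v, f (inp a v ∘ e.symm) = decide (v a ≠ 0) := by
    intro a v
    rw [← sep_inp]
    simp only [hf]
    congr 1
    funext t
    simp
  have h1 : ∑ a : Fin 3 → Fin m, ∑ v : (Fin 3 → Fin m) → ZMod 2, (2 / 3 : ℝ)
      ≤ ∑ a : Fin 3 → Fin m, ∑ v : (Fin 3 → Fin m) → ZMod 2, ∑ S,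
        if g S (fun i => ∑ j ∈ S i, inp a v (e.symm j)) = decide (v a ≠ 0) then μ S else 0 := by
    refine Finset.sum_le_sum (fun a _ => Finset.sum_le_sum (fun v _ => ?_))
    have := hμ (inp a v ∘ e.symm)
    rw [hfi] at this
    exact this
  have h2 : ∑ a : Fin 3 → Fin m, ∑ v : (Fin 3 → Fin m) → ZMod 2, ∑ S,
        (if g S (fun i => ∑ j ∈ S i, inp a v (e.symm j)) = decide (v a ≠ 0) then μ S else 0)
      = ∑ S, μ S * ((∑ a : Fin 3 → Fin m, (univ.filter (fun v : (Fin 3 → Fin m) → ZMod 2 =>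
        g S (fun i => ∑ j ∈ S i, inp a v (e.symm j)) = decide (v a ≠ 0))).card : ℕ) : ℝ) := by
    simp only [Nat.cast_sum, Finset.mul_sum]
    conv_rhs => rw [Finset.sum_comm]
    refine Finset.sum_congr rfl (fun a _ => ?_)
    rw [Finset.sum_comm]
    refine Finset.sum_congr rfl (fun S _ => ?_)
    rw [← Finset.sum_filter, Finset.sum_const, nsmul_eq_mul, mul_comm]
  have h3 : ∑ S, μ S * ((∑ a : Fin 3 → Fin m, (univ.filter (fun v : (Fin 3 → Fin m) → ZMod 2 =>
        g S (fun i => ∑ j ∈ S i, inp a v (e.symm j)) = decide (v a ≠ 0))).card : ℕ) : ℝ)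
      ≤ ∑ S, μ S * ((N : ℝ) * (m ^ 3 + k * (3 * m)) / 2) := by
    refine Finset.sum_le_sum (fun S _ => mul_le_mul_of_nonneg_left ?_ (hμ0 S))
    have := sketch_count e S (g S)
    have h4 : (2 : ℝ) * ((∑ a : Fin 3 → Fin m, (univ.filter (fun v : (Fin 3 → Fin m) → ZMod 2 =>
        g S (fun i => ∑ j ∈ S i, inp a v (e.symm j)) = decide (v a ≠ 0))).card : ℕ) : ℝ)
        ≤ (N : ℝ) * (m ^ 3 + k * (3 * m)) := by exact_mod_cast this
    linarith
  rw [← Finset.sum_mul, hμ1, one_mul] at h3
  rw [h2] at h1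
  simp only [Finset.sum_const, Finset.card_univ, nsmul_eq_mul, ← hN] at h1
  simp only [Fintype.card_pi, Fintype.card_fin, Finset.prod_const, Finset.card_univ] at h1
  have h5 := h1.trans h3
  push_cast at h5
  have hmpos : (0 : ℝ) < m := by exact_mod_cast hm
  have h6 : (N : ℝ) * m * (m ^ 2) ≤ (N : ℝ) * m * (9 * k) := by nlinarith
  have h7 : (m : ℝ) ^ 2 ≤ 9 * k := le_of_mul_le_mul_left h6 (by positivity)
  exact_mod_cast h7

theorem exists_large (C : ℝ) (hC : 0 < C) :
    ∃ m : ℕ, 2 ≤ m ∧ 99 * (C * (1 + Real.logb 2 ((3 * m + m ^ 3 : ℕ) : ℝ)) ^ C) < m := by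
  have hlo := (isLittleO_log_rpow_rpow_atTop C (s := 1) one_pos).comp_tendsto
    tendsto_natCast_atTop_atTop
  have hK : (0 : ℝ) < 99 * C * 9 ^ C := by positivity
  have hev := hlo.bound (c := 1 / (2 * (99 * C * 9 ^ C))) (by positivity)
  obtain ⟨m, hm, hm3⟩ := (hev.and (Filter.eventually_ge_atTop 3)).exists
  refine ⟨m, by omega, ?_⟩
  have hm3' : (3 : ℝ) ≤ m := by exact_mod_cast hm3
  have hlog1 : 1 ≤ Real.log m := by
    rw [Real.le_log_iff_exp_le (by linarith)]
    have := Real.exp_one_lt_d9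
    linarith
  have hn : ((3 * m + m ^ 3 : ℕ) : ℝ) ≤ (m : ℝ) ^ 5 := by
    push_cast
    have h1 : (m : ℝ) ^ 5 = m ^ 2 * m ^ 3 := by ring
    have h2 : (9 : ℝ) ≤ m ^ 2 := by nlinarith
    have h3 : (m : ℝ) ≤ m ^ 3 := by nlinarith
    have h4 : (0 : ℝ) ≤ m ^ 3 := by positivity
    nlinarith
  have hnpos : (1 : ℝ) ≤ ((3 * m + m ^ 3 : ℕ) : ℝ) := by
    have : 1 ≤ 3 * m + m ^ 3 := by omega
    exact_mod_cast this
  have hl2 : (0.69 : ℝ) < Real.log 2 := by have := Real.log_two_gt_d9; linarith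
  have hlogb : Real.logb 2 ((3 * m + m ^ 3 : ℕ) : ℝ) ≤ 8 * Real.log m := by
    rw [Real.logb, div_le_iff₀ (by linarith)]
    have h1 := Real.log_le_log (by linarith) hn
    rw [Real.log_pow] at h1
    push_cast at h1 ⊢
    nlinarith
  have hlogb0 : 0 ≤ Real.logb 2 ((3 * m + m ^ 3 : ℕ) : ℝ) := Real.logb_nonneg (by norm_num) hnpos
  have hpow : (1 + Real.logb 2 ((3 * m + m ^ 3 : ℕ) : ℝ)) ^ C ≤ 9 ^ C * Real.log m ^ C := by
    rw [← Real.mul_rpow (by norm_num) (by linarith)]
    exact Real.rpow_le_rpow (by linarith) (by linarith) hC.le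
  simp only [Function.comp, Real.rpow_one, Real.norm_eq_abs] at hm
  rw [abs_of_nonneg (by positivity), abs_of_nonneg (by positivity)] at hm
  calc 99 * (C * (1 + Real.logb 2 ((3 * m + m ^ 3 : ℕ) : ℝ)) ^ C)
      ≤ 99 * (C * (9 ^ C * Real.log m ^ C)) := by gcongr
    _ = (99 * C * 9 ^ C) * Real.log m ^ C := by ring
    _ ≤ (99 * C * 9 ^ C) * (1 / (2 * (99 * C * 9 ^ C)) * m) := by gcongr
    _ = m / 2 := by field_simp
    _ < m := by linarith

theorem result (C : ℝ) (hC : 0 < C) :
    ∃ (n : ℕ) (f : (Fin n → ZMod 2) → Bool), 1 ≤ n ∧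
      C * (1 + Real.logb 2 n) ^ C * (Rone (fun x y => f (x + y)) : ℝ) < (Rlin f : ℝ) := by
  obtain ⟨m, hm, hlt⟩ := exists_large C hC
  have hcard : Fintype.card (Idx m) = 3 * m + m ^ 3 := by simp [Idx]
  let e : Idx m ≃ Fin (3 * m + m ^ 3) := Fintype.equivFinOfCardEq hcard
  refine ⟨3 * m + m ^ 3, fun x => sep (x ∘ e), by omega, ?_⟩
  have hu : (Rone (fun x y : Fin (3 * m + m ^ 3) → ZMod 2 => sep ((x + y) ∘ e)) : ℝ)
      ≤ 9 * m + 2 := by exact_mod_cast upper e
  have hl : (m : ℝ) ^ 2 ≤ 9 * (Rlin (fun x : Fin (3 * m + m ^ 3) → ZMod 2 => sep (x ∘ e)) : ℝ) := by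
    exact_mod_cast lower (by omega) e
  have hm' : (2 : ℝ) ≤ m := by exact_mod_cast hm
  have hnpos : (1 : ℝ) ≤ ((3 * m + m ^ 3 : ℕ) : ℝ) := by
    have : 1 ≤ 3 * m + m ^ 3 := by omega
    exact_mod_cast this
  have hlogb0 : 0 ≤ Real.logb 2 ((3 * m + m ^ 3 : ℕ) : ℝ) := Real.logb_nonneg (by norm_num) hnpos
  set K := C * (1 + Real.logb 2 ((3 * m + m ^ 3 : ℕ) : ℝ)) ^ C with hKdef
  have hK : 0 ≤ K := by positivity
  calc K * (Rone (fun x y : Fin (3 * m + m ^ 3) → ZMod 2 => sep ((x + y) ∘ e)) : ℝ)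
      ≤ K * (11 * m) := by gcongr; linarith
    _ = (99 * K) * m / 9 := by ring
    _ < m * m / 9 := by gcongr
    _ ≤ _ := by nlinarith

end Pool.Agent.Lib.Old.Ed2356SketchGap
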