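import Pool.Agent.Lib.MP_edb142_al.H.QL

open CategoryTheory MonoidalCategory Limits
open Pool.Agent.Lib.MP_edb142_al

namespace Pool.Agent.Lib.Old.Edb142Quadratic

universe v u

theorem quadratic
    {D : Type u} [Category.{v} D] [Preadditive D] [Linear ℂ D] [MonoidalCategory D]
    [MonoidalPreadditive D] [MonoidalLinear ℂ D] [HasFiniteBiproducts D] [BraidedCategory D]
    [RigidCategory D] {J : Type} [Fintype J] [DecidableEq J] (N : Modular D J) (Dg : Dagger D)
    {G Γ P : Type} [AddCommGroup G] [AddCommGroup Γ] [AddCommGroup P] [Fintype G] [Fintype Γ]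
    [Fintype P] (s : G → ℂ) (t : Γ → ℂ) (p : P → ℂ) (hs : IsMetric s) (ht : IsMetric t)
    (hp : IsMetric p) (A : Finset G) (B : Finset Γ) (hA : IsHalf A) (hB : IsHalf B)
    (hP : Odd (Fintype.card P)) (hΓ : Fintype.card Γ = Fintype.card G + 4) (δ : ℂ)
    (hδ : δ ^ 2 = Fintype.card G * (δ + 1)) (e : J ≃ QL A B × P)
    (h₁ : ∀ i j, N.S i j = qS δ s t (e i).1 (e j).1 * pol p (e i).2 (e j).2)
    (h₂ : ∀ i, N.T i = qT s t (e i).1 * p (e i).2) :
    List.TFAE
      [IsCentre D,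
       ∃ Λ : AddSubgroup (G × P), (∀ l ∈ Λ, s l.1 * p l.2 = 1) ∧
         Nat.card Λ ^ 2 = Fintype.card G * Fintype.card P,
       ∃ (C : Type u) (_ : Category.{v} C) (_ : Preadditive C) (_ : Linear ℂ C)
         (_ : MonoidalCategory C) (_ : MonoidalPreadditive C) (_ : MonoidalLinear ℂ C)
         (_ : HasFiniteBiproducts C) (_ : BraidedCategory C) (_ : RigidCategory C) (I : Type)
         (_ : Fintype I) (_ : DecidableEq I) (M : Modular C I) (f : I ≃ J),
         (∀ i j, M.S i j = N.S (f i) (f j)) ∧ (∀ i, M.T i = N.T (f i)) ∧ IsCentre C] := by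
  classical
  tfae_have 1 → 3 := fun h => ⟨D, _, _, _, _, inferInstance, inferInstance, _, _, _, J, _, _, N,
    Equiv.refl J, fun _ _ => rfl, fun _ => rfl, h⟩
  tfae_have 3 → 2 := by
    rintro ⟨C, _, _, _, _, _, _, _, _, _, I, _, _, M, f, a1, a2, h⟩
    obtain ⟨M', H⟩ := quad_reindex M (f.trans e) hs ht hp hA hB hP hΓ hδ
      (fun i j => (a1 i j).trans (h₁ _ _)) fun i => (a2 i).trans (h₂ _)
    exact H.lagrangian h
  tfae_have 2 → 1 := by
    rintro ⟨Λ, a1, a2⟩
    obtain ⟨M', H⟩ := quad_reindex N e hs ht hp hA hB hP hΓ hδ h₁ h₂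
    exact H.centre Dg Λ a1 a2
  tfae_finish

end Pool.Agent.Lib.Old.Edb142Quadratic
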