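import Pool.Agent.Lib.MP_f65947_an.ConvexD

set_option autoImplicit false

namespace Pool.Agent.Lib.Old.F65947Convexifiable

/-- The question of Rossi has a positive answer, with the dimension of the Levi null spaces, at
every boundary point near which the domain is convex in some holomorphic coordinates. -/
theorem result (n q : ℕ) (U V : Set (Fin n → ℂ)) (hU : IsOpen U) (hV : IsOpen V)
    (ρ : (Fin n → ℂ) → ℝ) (hρ : ContDiffOn ℝ 2 ρ U)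
    (Φ : (Fin n → ℂ) → (Fin n → ℂ)) (hΦ : AnalyticOnNhd ℂ Φ V) (hm : Set.MapsTo Φ V U)
    (hb : ∀ x ∈ V, Function.Bijective (fderiv ℂ Φ x))
    (hconv : Convex ℝ {x | x ∈ V ∧ ρ (Φ x) ≤ 0})
    (hnull : ∀ z ∈ U, ρ z = 0 → ∃ N : Submodule ℂ (Fin n → ℂ), q ≤ Module.finrank ℂ N ∧
      ∀ w ∈ N, fderiv ℝ ρ z w = 0 ∧ fderiv ℝ (fderiv ℝ ρ) z w w +
        fderiv ℝ (fderiv ℝ ρ) z (Complex.I • w) (Complex.I • w) = 0)
    (ξ : Fin n → ℂ) (hξ : ξ ∈ V) (h0 : ρ (Φ ξ) = 0) (hd : fderiv ℝ ρ (Φ ξ) ≠ 0) :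
    ∃ W : Submodule ℂ (Fin n → ℂ), q ≤ Module.finrank ℂ W ∧
      ∃ ε : ℝ, 0 < ε ∧ ∀ w ∈ W, ‖w‖ < ε → ξ + w ∈ V ∧ ρ (Φ (ξ + w)) = 0 :=
  Pool.Agent.Lib.MP_f65947_an.Cvx.convexifiable_case n q U V hU hV ρ hρ Φ hΦ hm hb hconv hnull
    ξ hξ h0 hd

end Pool.Agent.Lib.Old.F65947Convexifiable
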