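import Pool.Agent.Lib.MP_f65947_an.Main

set_option autoImplicit false

open Metric

namespace Pool.Agent.Lib.Old.F65947NoDisc

section
variable {E : Type} [NormedAddCommGroup E] [NormedSpace ℝ E] [NormedSpace ℂ E]

/-- The real differential of `ρ` at `z`. -/
noncomputable def dif (ρ : E → ℝ) (z : E) : E →L[ℝ] ℝ := fderiv ℝ ρ z

/-- The real Hessian of `ρ` at `z` evaluated on `(w, w)`. -/
noncomputable def hess (ρ : E → ℝ) (z w : E) : ℝ := fderiv ℝ (dif ρ) z w w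

/-- The Levi form of `ρ` at `z` in direction `w`, up to a positive constant factor. -/
noncomputable def levi (ρ : E → ℝ) (z w : E) : ℝ := hess ρ z w + hess ρ z (Complex.I • w)

/-- `w` is complex tangent at `z` to the level set of `ρ`. -/
def cTangent (ρ : E → ℝ) (z w : E) : Prop := dif ρ z w = 0 ∧ dif ρ z (Complex.I • w) = 0

end

/-- A smooth plurisubharmonic defining function on the unit polydisc in complex dimension three,
all of whose level sets have degenerate Levi form at every point, such that the zero level set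
contains no nonconstant holomorphic disc through the origin. -/
theorem result : ∃ ρ : (Fin 3 → ℂ) → ℝ, ContDiff ℝ ((⊤ : ℕ∞) : WithTop ℕ∞) ρ ∧ ρ 0 = 0 ∧
    (∀ z, dif ρ z ≠ 0) ∧
    (∀ z ∈ ball (0 : Fin 3 → ℂ) 1, ∀ w, 0 ≤ levi ρ z w) ∧
    (∀ z ∈ ball (0 : Fin 3 → ℂ) 1, ∃ w, w ≠ 0 ∧ cTangent ρ z w ∧ levi ρ z w = 0) ∧
    ∀ f : ℂ → (Fin 3 → ℂ), DifferentiableOn ℂ f (ball (0 : ℂ) 1) → f 0 = 0 →
      (∀ t ∈ ball (0 : ℂ) 1, f t ∈ ball (0 : Fin 3 → ℂ) 1 ∧ ρ (f t) = 0) →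
      ∀ t ∈ ball (0 : ℂ) 1, f t = 0 := by
  obtain ⟨ρ, h1, h2, h3, h4, h5, h6⟩ := Pool.Agent.Lib.MP_f65947_an.exists_example
  refine ⟨ρ, h1, h2, h3, h4, fun z hz => ?_, fun f hf h0 hin t ht => ?_⟩
  · obtain ⟨w, hw, a, b, c⟩ := h5 z hz
    exact ⟨w, hw, ⟨a, b⟩, c⟩
  · by_contra hne
    exact h6 f hf h0 ⟨t, ht, hne⟩ hin

end Pool.Agent.Lib.Old.F65947NoDisc
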