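import Mathlib
import Pool.Agent.Lib.MP_faf25a_an.Space

set_option autoImplicit false

open Cardinal

namespace Pool.Agent.Lib.Old.Faf25aNotThreeSpace

universe u

/-- `E` is universally `κ`-injective, tested on real Banach spaces `V` in universe `u`: every
operator into `E` defined on a closed subspace of density character less than `κ` extends. -/
def UnivInjective (κ : Cardinal.{u}) (E : Type) [NormedAddCommGroup E] [NormedSpace ℝ E] : Prop :=
  ∀ (V : Type u) [NormedAddCommGroup V] [NormedSpace ℝ V] [CompleteSpace V] (W : Submodule ℝ V),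
    IsClosed (W : Set V) → (∃ s : Set W, Dense s ∧ Cardinal.mk s < κ) →
      ∀ t : W →L[ℝ] E, ∃ T : V →L[ℝ] E, ∀ w : W, T w = t w

open Pool.Agent.Lib.MP_faf25a_an in
lemma aux {X : Type} [NormedAddCommGroup X] [NormedSpace ℝ X] [CompleteSpace X]
    (π : X →L[ℝ] LO) (hπ : Function.Surjective π)
    (h1 : UnivInjective (aleph 1 : Cardinal.{u}) π.ker)
    (h2 : ¬ UnivInjective (aleph 1 : Cardinal.{0}) X) :
    ∃ (X : Type) (_ : NormedAddCommGroup X) (_ : NormedSpace ℝ X) (_ : CompleteSpace X)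
      (Y : Submodule ℝ X) (_ : IsClosed (Y : Set X)),
      UnivInjective (aleph 1 : Cardinal.{u}) Y ∧ UnivInjective (aleph 1 : Cardinal.{u}) (X ⧸ Y) ∧
        ¬ UnivInjective (aleph 1 : Cardinal.{0}) X := by
  have hc : IsClosed (π.ker : Set X) := π.isClosed_ker
  refine ⟨X, inferInstance, inferInstance, inferInstance, π.ker, hc, h1, ?_, h2⟩
  rintro V _ _ _ W - - t
  exact usi_quot π hπ π.ker rfl W t

open Pool.Agent.Lib.MP_faf25a_an in
theorem result :
    ∃ (X : Type) (_ : NormedAddCommGroup X) (_ : NormedSpace ℝ X) (_ : CompleteSpace X)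
      (Y : Submodule ℝ X) (_ : IsClosed (Y : Set X)),
      UnivInjective (aleph 1 : Cardinal.{u}) Y ∧ UnivInjective (aleph 1 : Cardinal.{u}) (X ⧸ Y) ∧
        ¬ UnivInjective (aleph 1 : Cardinal.{0}) X := by
  refine aux (X := XS) proj proj_surjective ?_ ?_
  · rintro V _ _ _ W - ⟨s, hs, hc⟩ t
    exact usi_YS W s hs ((Cardinal.lt_aleph_one_iff.trans le_aleph0_iff_set_countable).mp hc) t
  · intro h
    obtain ⟨s, hs, hc⟩ := separable_cz
    exact no_extension (h LO cz (Submodule.isClosed_topologicalClosure _)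
      ⟨s, hs, (Cardinal.lt_aleph_one_iff.trans le_aleph0_iff_set_countable).mpr hc⟩ tst)

end Pool.Agent.Lib.Old.Faf25aNotThreeSpace
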