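import Mathlib
import Pool.Agent.Lib.MP_fefe6a_co.Poly

namespace Pool.Agent.Lib.Old.Fefe6aUnboundedSpread

open Pool.Agent.Lib.MP_fefe6a_co

/-- For every `N > 0` there are a finite nonempty simple graph `Γ` and a group `G` of
automorphisms of `Γ` whose orbital chromatic polynomial has a real root at least
`N` above the largest real root of the chromatic polynomial. -/
theorem result : ∀ N : ℝ, 0 < N →
    ∃ (V : Type) (_ : Finite V) (_ : Nonempty V) (Γ : SimpleGraph V) (G : Subgroup (Γ ≃g Γ))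
      (P Q : Polynomial ℝ) (lam r : ℝ),
      IsChromaticPoly Γ P ∧ IsOrbitalChromaticPoly Γ G Q ∧
        IsGreatest {x : ℝ | P.IsRoot x} lam ∧ Q.IsRoot r ∧ lam + N ≤ r := by
  intro N hN
  obtain ⟨t, ht⟩ := exists_nat_ge (N + 2)
  have ht0 : 0 < t := by
    have : (0 : ℝ) < t := by linarith
    exact_mod_cast this
  obtain ⟨j, hj, hP⟩ := P_pos t
  obtain ⟨r, hQ⟩ := Q_neg t j ht0 hj
  set P := Ppoly (2 * t + 1) t r (j * (r + 1)) with hPdef
  set Q := Qpoly (2 * t + 1) t r (j * (r + 1)) with hQdef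
  have hP0 : P ≠ 0 := by
    intro h
    have := hP r (t + 2) le_rfl
    rw [← hPdef, h] at this
    simp at this
  have hfin : {x : ℝ | P.IsRoot x}.Finite := Polynomial.finite_setOfPred_isRoot hP0
  have hne : {x : ℝ | P.IsRoot x}.Nonempty := by
    refine ⟨0, ?_⟩
    change P.eval 0 = 0
    rw [hPdef, eval_Ppoly]
    refine Finset.sum_eq_zero fun k _ => ?_
    have : dsc 0 (k + t) = 0 :=
      Finset.prod_eq_zero (i := 0) (Finset.mem_range.2 (by omega)) (by simp)
    simp [this]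
  obtain ⟨lam, hlam, hmax⟩ := Set.exists_max_image _ id hfin hne
  have hlt : lam < t + 2 := by
    by_contra h
    have := hP r lam (not_lt.1 h)
    rw [← hPdef, Polynomial.IsRoot.def.1 hlam] at this
    exact lt_irrefl _ this
  have hq : 0 ≤ Q.eval ((2 * t + 1 : ℕ) : ℝ) := by
    rw [hQdef, isOrbital _ _ _ _ (2 * t + 1) (by omega)]
    positivity
  have hle : ((2 * t : ℕ) : ℝ) + 1 / 2 ≤ ((2 * t + 1 : ℕ) : ℝ) := by push_cast; linarith
  obtain ⟨ρ, hρ, hρ0⟩ := intermediate_value_Icc hle (Q.continuous.continuousOn) ⟨hQ.le, hq⟩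
  refine ⟨Vx (2 * t + 1) t r (j * (r + 1)), inferInstance, ⟨.inl (.inl 0)⟩, gr _ _ _ _,
    twinGroup _ _ _ _, P, Q, lam, ρ, isChromatic _ _ _ _, isOrbital _ _ _ _,
    ⟨hlam, fun x hx => hmax x hx⟩, hρ0, ?_⟩
  have := hρ.1
  push_cast at this
  linarith

end Pool.Agent.Lib.Old.Fefe6aUnboundedSpread
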