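import Pool.Agent.Lib.MP_11d477_gt.HI.Main
import Pool.Agent.Lib.MP_11d477_gt.HI.Zero

set_option autoImplicit false

namespace Pool.Agent.Lib.Old.L11d477IndecomposableDim

/-- Covering dimension at most `n`: each finite open cover has an open shrinking of order at most
`n + 1`. -/
def DimLE (X : Type) [TopologicalSpace X] (n : ℕ) : Prop :=
  ∀ (k : ℕ) (U : Fin k → Set X), (∀ i, IsOpen (U i)) → (⋃ i, U i) = Set.univ →
    ∃ V : Fin k → Set X, (∀ i, IsOpen (V i)) ∧ (∀ i, V i ⊆ U i) ∧ (⋃ i, V i) = Set.univ ∧
      ∀ x : X, Set.ncard {i : Fin k | x ∈ V i} ≤ n + 1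

/-- Trivial shape: for some embedding in the Hilbert cube, each open neighbourhood of the image
contains an open neighbourhood of the image that contracts inside it. -/
def TrivialShape (X : Type) [TopologicalSpace X] : Prop :=
  ∃ e : X → (ℕ → unitInterval), Topology.IsEmbedding e ∧
    ∀ U : Set (ℕ → unitInterval), IsOpen U → Set.range e ⊆ U →
      ∃ V : Set (ℕ → unitInterval), IsOpen V ∧ Set.range e ⊆ V ∧
        ∃ h : V ⊆ U, (ContinuousMap.inclusion h).Nullhomotopic

/-- Indecomposable: the space is not the union of two proper subcontinua. -/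
def Indecomposable (X : Type) [TopologicalSpace X] : Prop :=
  ∀ K L : Set X, IsCompact K → IsConnected K → IsCompact L → IsConnected L → K ∪ L = Set.univ →
    K = Set.univ ∨ L = Set.univ

/-- A homogeneous indecomposable nondegenerate metric continuum of trivial shape has covering
dimension exactly one. -/
theorem result (X : Type) [MetricSpace X] [CompactSpace X] [ConnectedSpace X] [Nontrivial X]
    (hom : ∀ x y : X, ∃ h : X ≃ₜ X, h x = y) (hi : Indecomposable X) (hs : TrivialShape X) :
    DimLE X 1 ∧ ¬ DimLE X 0 :=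
  ⟨(Lib.MP_11d477_gt.HI.main hom (fun K L a b e => hi K L a.1 a.2 b.1 b.2 e) hs).2,
    Lib.MP_11d477_gt.HI.not_dim_zero X⟩

end Pool.Agent.Lib.Old.L11d477IndecomposableDim
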