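import Pool.Agent.Lib.MP_11d477_gt.HI.Main

set_option autoImplicit false

namespace Pool.Agent.Lib.Old.L11d477IndecomposableHered

/-- Trivial shape: for some embedding in the Hilbert cube, each open neighbourhood of the image
contains an open neighbourhood of the image that contracts inside it. -/
def TrivialShape (X : Type) [TopologicalSpace X] : Prop :=
  ∃ e : X → (ℕ → unitInterval), Topology.IsEmbedding e ∧
    ∀ U : Set (ℕ → unitInterval), IsOpen U → Set.range e ⊆ U →
      ∃ V : Set (ℕ → unitInterval), IsOpen V ∧ Set.range e ⊆ V ∧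
        ∃ h : V ⊆ U, (ContinuousMap.inclusion h).Nullhomotopic

/-- Indecomposable: the set `M` is not the union of two proper subcontinua. -/
def Indecomposable {X : Type} [TopologicalSpace X] (M : Set X) : Prop :=
  ∀ K L : Set X, IsCompact K → IsConnected K → IsCompact L → IsConnected L → K ∪ L = M →
    K = M ∨ L = M

/-- A homogeneous indecomposable metric continuum of trivial shape is hereditarily
indecomposable. -/
theorem result (X : Type) [MetricSpace X] [CompactSpace X] [ConnectedSpace X]
    (hom : ∀ x y : X, ∃ h : X ≃ₜ X, h x = y) (hi : Indecomposable (Set.univ : Set X))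
    (hs : TrivialShape X) :
    ∀ M : Set X, IsCompact M → IsConnected M → Indecomposable M := by
  obtain ⟨hn, -⟩ := Lib.MP_11d477_gt.HI.main hom
    (fun K L a b e => hi K L a.1 a.2 b.1 b.2 e) hs
  intro M _ hM K L a b c d e
  have hm : (K ∩ L).Nonempty := by
    by_contra h
    have hKL : Disjoint K L :=
      Set.disjoint_iff_inter_eq_empty.mpr (Set.not_nonempty_iff_eq_empty.mp h)
    have hK : M ⊆ K := Lib.MP_11d477_gt.HI.side hM.isPreconnected a.isClosed c.isClosed hKL e.ge
      (b.nonempty.mono fun z hz => ⟨e ▸ Or.inl hz, hz⟩)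
    obtain ⟨z, hz⟩ := d.nonempty
    exact Set.disjoint_left.mp hKL (hK (e ▸ Or.inr hz)) hz
  rcases hn K L ⟨a, b⟩ ⟨c, d⟩ hm with h | h
  · exact Or.inr (by rw [← e, Set.union_eq_right.mpr h])
  · exact Or.inl (by rw [← e, Set.union_eq_left.mpr h])

end Pool.Agent.Lib.Old.L11d477IndecomposableHered
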