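import Mathlib
import Pool.Agent.Lib.MP_137890_nt.Main
import Pool.Agent.Lib.MP_137890_nt.Lower

set_option autoImplicit false

open Filter Topology

namespace Pool.Agent.Lib.Old.L137890LimitOneThird

/-- `n` is a sum of exactly `k` elements of `A`, repetitions allowed. -/
def IsSumOf (A : Set ℕ) (k n : ℕ) : Prop :=
  ∃ a : Fin k → ℕ, (∀ i, a i ∈ A) ∧ ∑ i, a i = n

/-- Every large `n` is a sum of exactly `j` elements of `A` for some `j ≤ r`. -/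
def IsBasisOfOrder (A : Set ℕ) (r : ℕ) : Prop :=
  ∃ N : ℕ, ∀ n : ℕ, N ≤ n → ∃ j : ℕ, j ≤ r ∧ IsSumOf A j n

/-- `k` is the least integer such that every large `n` is a sum of exactly `k` elements of `A`. -/
def HasExactOrder (A : Set ℕ) (k : ℕ) : Prop :=
  IsLeast {l : ℕ | ∃ N : ℕ, ∀ n : ℕ, N ≤ n → IsSumOf A l n} k

section Proof

open Pointwise Pool.Agent.Lib.MP_137890_nt

lemma isSumOf_iff (A : Set ℕ) (k n : ℕ) : IsSumOf A k n ↔ n ∈ k • A :=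
  Set.mem_nsmul_iff_sum.symm

lemma isSumOf_iff_int (A : Set ℕ) (k n : ℕ) :
    IsSumOf A k n ↔ (n : ℤ) ∈ k • ((fun a : ℕ => (a : ℤ)) '' A) := by
  rw [Set.mem_nsmul_iff_sum]
  constructor
  · rintro ⟨a, ha, rfl⟩
    exact ⟨fun i => a i, fun i => ⟨a i, ha i, rfl⟩, by push_cast; rfl⟩
  · rintro ⟨f, hf, hs⟩
    choose a ha hfa using hf
    refine ⟨a, ha, ?_⟩
    have : ((∑ i, a i : ℕ) : ℤ) = n := by
      push_cast
      rw [← hs]
      exact Finset.sum_congr rfl fun i _ => hfa i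
    exact_mod_cast this

lemma upper {τ : ℝ} (hτ : 0 < τ) (hτ3 : τ ≤ 1 / 3) : ∃ r0 : ℕ, ∀ r : ℕ, r0 ≤ r →
    ∀ (A : Set ℕ) (k : ℕ), IsBasisOfOrder A r → HasExactOrder A k →
      (k : ℝ) ≤ (1 / 3 + 100 * τ) * (r : ℝ) ^ 2 := by
  obtain ⟨r0, h⟩ := upper_bound hτ hτ3
  refine ⟨r0, fun r hr A k ⟨N, hN⟩ ⟨⟨N', hN'⟩, hk⟩ => ?_⟩
  obtain ⟨a0, ha0⟩ : ∃ a0, a0 ∈ A := by
    obtain ⟨j, -, a, ha, hs⟩ := hN (N + 1) (Nat.le_succ N)
    rcases j with _ | j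
    · simp at hs
    · exact ⟨a 0, ha 0⟩
  have S : Setup ((fun a : ℕ => (a : ℤ)) '' A) r a0 N := by
    refine ⟨⟨a0, ha0, rfl⟩, ?_, ?_, ?_⟩
    · rintro _ ⟨a, -, rfl⟩
      exact Int.natCast_nonneg a
    · intro n hn
      obtain ⟨m, rfl⟩ := Int.eq_ofNat_of_zero_le ((Int.natCast_nonneg N).trans hn)
      obtain ⟨j, hj, hs⟩ := hN m (by exact_mod_cast hn)
      exact ⟨j, hj, (isSumOf_iff_int A j m).mp hs⟩
    · exact ⟨k, (N' + 1 : ℕ), (isSumOf_iff_int A k _).mp (hN' _ (Nat.le_succ _)), N',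
        (isSumOf_iff_int A k _).mp (hN' _ le_rfl), by push_cast; ring⟩
  obtain ⟨K, hK, N1, hcov⟩ := h r hr _ _ _ S
  have : k ≤ K := hk ⟨N1.toNat, fun n hn => (isSumOf_iff_int A K n).mpr (hcov n (by omega))⟩
  exact le_trans (by exact_mod_cast this) hK

lemma lower (r : ℕ) (hr : 3 ≤ r) : ∃ (A : Set ℕ) (k : ℕ), IsBasisOfOrder A r ∧ HasExactOrder A k ∧
    (r : ℝ) ^ 2 / 3 - 2 * r ≤ k := by
  set m := r / 3 with hm
  have hm1 : 1 ≤ m := by omega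
  have hg : 2 ≤ 3 * m * m + 2 * m := by omega
  refine ⟨twoRes (3 * m * m + 2 * m) (3 * m), 3 * m * m + 2 * m - 1, ?_, ⟨?_, ?_⟩, ?_⟩
  · obtain ⟨N, hN⟩ := twoRes_basis m hm1
    refine ⟨N, fun n hn => ?_⟩
    obtain ⟨j, hj, h⟩ := hN n hn
    exact ⟨j, by omega, (isSumOf_iff _ _ _).mpr h⟩
  · obtain ⟨N, hN⟩ := twoRes_cofinite (x := 3 * m) hg
    exact ⟨N, fun n hn => (isSumOf_iff _ _ _).mpr (hN n hn)⟩
  · rintro l ⟨N, hN⟩
    by_contra hc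
    exact twoRes_not_cofinite (g := 3 * m * m + 2 * m) (x := 3 * m) (k := l) (by omega)
      ⟨N, fun n hn => (isSumOf_iff _ _ _).mp (hN n hn)⟩
  · rw [Nat.cast_sub (by omega)]
    have h1 : (r : ℝ) ≤ 3 * m + 2 := by
      have : r ≤ 3 * m + 2 := by omega
      exact_mod_cast this
    have h2 : 3 * (m : ℝ) ≤ r := by
      have : 3 * m ≤ r := by omega
      exact_mod_cast this
    have h3 : (1 : ℝ) ≤ m := by exact_mod_cast hm1
    push_cast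
    nlinarith

lemma bdd (r : ℕ) : BddAbove {k : ℕ | ∃ A : Set ℕ, IsBasisOfOrder A r ∧ HasExactOrder A k} := by
  obtain ⟨r0, h⟩ := upper (τ := 1 / 3) (by norm_num) le_rfl
  refine ⟨⌈(1 / 3 + 100 * (1 / 3)) * ((max r r0 : ℕ) : ℝ) ^ 2⌉₊, ?_⟩
  rintro k ⟨A, ⟨N, hN⟩, hk⟩
  have := h (max r r0) (le_max_right _ _) A k ⟨N, fun n hn => by
    obtain ⟨j, hj, hs⟩ := hN n hn
    exact ⟨j, hj.trans (le_max_left _ _), hs⟩⟩ hk
  exact_mod_cast this.trans (Nat.le_ceil _)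

lemma nonempty (r : ℕ) (hr : 1 ≤ r) :
    {k : ℕ | ∃ A : Set ℕ, IsBasisOfOrder A r ∧ HasExactOrder A k}.Nonempty := by
  have h1 : ∀ n, IsSumOf Set.univ 1 n := fun n => ⟨fun _ => n, fun _ => trivial, by simp⟩
  refine ⟨1, Set.univ, ⟨0, fun n _ => ⟨1, hr, h1 n⟩⟩, ⟨0, fun n _ => h1 n⟩, ?_⟩
  rintro l ⟨N, hN⟩
  obtain ⟨a, -, hs⟩ := hN (N + 1) (Nat.le_succ N)
  rcases l with _ | l
  · simp at hs
  · omega

end Proof

/-- The maximal exact order `h r` of a basis of order `r` exists and `h r / r ^ 2` tends to `1 / 3`. -/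
theorem result : ∃ h : ℕ → ℕ,
    (∀ r : ℕ, 2 ≤ r →
      IsGreatest {k : ℕ | ∃ A : Set ℕ, IsBasisOfOrder A r ∧ HasExactOrder A k} (h r)) ∧
    Tendsto (fun r : ℕ => (h r : ℝ) / (r : ℝ) ^ 2) atTop (𝓝 (1 / 3)) := by
  have hg : ∀ r : ℕ, 1 ≤ r →
      IsGreatest {k : ℕ | ∃ A : Set ℕ, IsBasisOfOrder A r ∧ HasExactOrder A k}
        (sSup {k : ℕ | ∃ A : Set ℕ, IsBasisOfOrder A r ∧ HasExactOrder A k}) :=
    fun r hr => ⟨Nat.sSup_mem (nonempty r hr) (bdd r), fun k hk => le_csSup (bdd r) hk⟩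
  refine ⟨fun r => sSup {k : ℕ | ∃ A : Set ℕ, IsBasisOfOrder A r ∧ HasExactOrder A k},
    fun r hr => hg r (by omega), ?_⟩
  rw [tendsto_order]
  constructor
  · intro a ha
    obtain ⟨r1, hr1⟩ := exists_nat_gt (2 / (1 / 3 - a))
    filter_upwards [eventually_ge_atTop 3, eventually_ge_atTop r1] with r h3 h1
    obtain ⟨A, k, hA, hk, hle⟩ := lower r h3
    have h4 := (hg r (by omega)).2 ⟨A, hA, hk⟩
    have h5 : (k : ℝ) ≤ ((sSup {k : ℕ | ∃ A : Set ℕ, IsBasisOfOrder A r ∧ HasExactOrder A k} : ℕ) : ℝ) := by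
      exact_mod_cast h4
    have hr : (3 : ℝ) ≤ r := by exact_mod_cast h3
    have h6 : 2 / (1 / 3 - a) < r := hr1.trans_le (by exact_mod_cast h1)
    rw [div_lt_iff₀ (by linarith)] at h6
    rw [lt_div_iff₀ (by positivity)]
    nlinarith
  · intro a ha
    obtain ⟨r0, h⟩ := upper (τ := min (1 / 3) ((a - 1 / 3) / 200))
      (lt_min (by norm_num) (by linarith)) (min_le_left _ _)
    filter_upwards [eventually_ge_atTop 1, eventually_ge_atTop r0] with r h1 h0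
    obtain ⟨A, hA, hk⟩ := (hg r h1).1
    have h2 := h r h0 A _ hA hk
    have hr : (1 : ℝ) ≤ r := by exact_mod_cast h1
    have h3 := min_le_right (1 / 3 : ℝ) ((a - 1 / 3) / 200)
    rw [div_lt_iff₀ (by positivity)]
    refine h2.trans_lt (mul_lt_mul_of_pos_right (by linarith) (by positivity))

end Pool.Agent.Lib.Old.L137890LimitOneThird
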