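import Pool.Agent.Lib.MP_2081ef_co.NN4

namespace Pool.Agent.Lib.Old.L2081efGateFreeFacets

open Pool.Agent.Lib.MP_2081ef_co

variable {V : Type}

/-- a root of the inequality `a · x ≤ 1` on `G[B]`: a stable set inside `B` of weight one -/
def Root (G : SimpleGraph V) (B : Finset V) (a : V → ℝ) (S : Finset V) : Prop :=
  S ⊆ B ∧ G.IsIndepSet (S : Set V) ∧ ∑ v ∈ S, a v = 1

/-- `a · x ≤ 1` defines a facet of `STAB(G[B])` with full support `B` -/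
def Facet (G : SimpleGraph V) (B : Finset V) (a : V → ℝ) : Prop :=
  (∀ v ∈ B, 0 < a v) ∧ (∀ S ⊆ B, G.IsIndepSet (S : Set V) → ∑ v ∈ S, a v ≤ 1) ∧
    ∀ c : V → ℝ, (∀ S, Root G B a S → ∑ v ∈ S, c v = 0) → ∀ v ∈ B, c v = 0

/-- no nested gate; and either weight above `5/2`, or weight above `2` and no covering gate -/
def GateFree (G : SimpleGraph V) (B : Finset V) (a : V → ℝ) : Prop :=
  (∀ i ∈ B, ∀ v ∈ B, ∀ w ∈ B, G.Adj v w → i ≠ v →
    (∃ S, Root G B a S ∧ i ∈ S ∧ v ∉ S ∧ w ∉ S) ∨ ∃ S, Root G B a S ∧ v ∈ S ∧ i ∉ S) ∧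
  (5 / 2 < ∑ v ∈ B, a v ∨ (2 < ∑ v ∈ B, a v ∧
    ∀ i ∈ B, ∀ v ∈ B, ∀ w ∈ B, G.Adj v w → i ≠ v → i ≠ w →
      (∃ S, Root G B a S ∧ i ∉ S ∧ v ∉ S ∧ w ∉ S) ∨ ∃ S, Root G B a S ∧ v ∈ S ∧ i ∈ S))

/-- A gate free facet of the stable set polytope of an induced subgraph is valid for `LS₊(G)`
if and only if it is a joined antiweb constraint. -/
theorem result (V : Type) [Fintype V] [DecidableEq V] (G : SimpleGraph V) (B : Finset V)
    (a : V → ℝ) (hF : Facet G B a) (hG : GateFree G B a) :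
    (∀ x ∈ LSplus (ESTAB G), ∑ v ∈ B, a v * x v ≤ 1) ↔
      ∃ J : JoinedAntiweb G, ∀ x, J.lhs x = ∑ v ∈ B, a v * x v := by
  have fo : FacetOn G B a :=
    ⟨hF.1, hF.2.1, fun c hc => hF.2.2 c fun S hS => hc S hS.1 hS.2.1 hS.2.2⟩
  refine ⟨fun hval => NN.gatefree fo (by simpa only [Root, and_assoc] using hG.1)
    (by simpa only [Root, and_assoc] using hG.2) hval, fun ⟨J, hJ⟩ x hx => ?_⟩
  rw [← hJ]
  exact (LSplus_subset_ASTAB G hx).2 J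

end Pool.Agent.Lib.Old.L2081efGateFreeFacets
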