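import Pool.Agent.Lib.MP_2081ef_co.NN4

namespace Pool.Agent.Lib.Old.L2081efGateFreeJoined

open Pool.Agent.Lib.MP_2081ef_co

variable {V : Type}

/-- a root of the inequality `a · x ≤ 1` on `G[B]`: a stable set inside `B` of weight one -/
def Root (G : SimpleGraph V) (B : Finset V) (a : V → ℝ) (S : Finset V) : Prop :=
  S ⊆ B ∧ G.IsIndepSet (S : Set V) ∧ ∑ v ∈ S, a v = 1

/-- `a · x ≤ 1` defines a facet of `STAB(G[B])` with full support `B` -/
def Facet (G : SimpleGraph V) (B : Finset V) (a : V → ℝ) : Prop :=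
  (∀ v ∈ B, 0 < a v) ∧ (∀ S ⊆ B, G.IsIndepSet (S : Set V) → ∑ v ∈ S, a v ≤ 1) ∧
    ∀ c : V → ℝ, (∀ S, Root G B a S → ∑ v ∈ S, c v = 0) → ∀ v ∈ B, c v = 0

/-- no nested gate; and either weight above `5/2`, or weight above `2` and no covering gate -/
def GateFree (G : SimpleGraph V) (B : Finset V) (a : V → ℝ) : Prop :=
  (∀ i ∈ B, ∀ v ∈ B, ∀ w ∈ B, G.Adj v w → i ≠ v →
    (∃ S, Root G B a S ∧ i ∈ S ∧ v ∉ S ∧ w ∉ S) ∨ ∃ S, Root G B a S ∧ v ∈ S ∧ i ∉ S) ∧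
  (5 / 2 < ∑ v ∈ B, a v ∨ (2 < ∑ v ∈ B, a v ∧
    ∀ i ∈ B, ∀ v ∈ B, ∀ w ∈ B, G.Adj v w → i ≠ v → i ≠ w →
      (∃ S, Root G B a S ∧ i ∉ S ∧ v ∉ S ∧ w ∉ S) ∨ ∃ S, Root G B a S ∧ v ∈ S ∧ i ∈ S))

/-- A gate free facet of the stable set polytope of an induced subgraph is valid for `LS₊(G)`
if and only if it is a joined antiweb constraint; hence the conjecture holds for every graph whose
stable set polytope is cut out of `ASTAB*(G)` by gate free facets. -/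
theorem result (V : Type) [Fintype V] [DecidableEq V] (G : SimpleGraph V) :
    (∀ (B : Finset V) (a : V → ℝ), Facet G B a → GateFree G B a →
      ((∀ x ∈ LSplus (ESTAB G), ∑ v ∈ B, a v * x v ≤ 1) ↔
        ∃ J : JoinedAntiweb G, ∀ x, J.lhs x = ∑ v ∈ B, a v * x v)) ∧
    ((∀ x ∈ ASTABstar G, (∀ (B : Finset V) (a : V → ℝ), Facet G B a → GateFree G B a →
        ∑ v ∈ B, a v * x v ≤ 1) → x ∈ STAB G) →
      (LSplus (ESTAB G) = STAB G ↔ LSplus (ESTAB G) = ASTABstar G)) := by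
  have fo : ∀ (B : Finset V) (a : V → ℝ), Facet G B a → FacetOn G B a := fun B a h =>
    ⟨h.1, h.2.1, fun c hc => h.2.2 c fun S hS => hc S hS.1 hS.2.1 hS.2.2⟩
  have key : ∀ (B : Finset V) (a : V → ℝ), Facet G B a → GateFree G B a →
      (∀ x ∈ LSplus (ESTAB G), ∑ v ∈ B, a v * x v ≤ 1) →
        ∃ J : JoinedAntiweb G, ∀ x, J.lhs x = ∑ v ∈ B, a v * x v := fun B a hF hG hval =>
    NN.gatefree (fo B a hF) (by simpa only [Root, and_assoc] using hG.1)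
      (by simpa only [Root, and_assoc] using hG.2) hval
  refine ⟨fun B a hF hG => ⟨key B a hF hG, fun ⟨J, hJ⟩ x hx => ?_⟩,
    fun hC => ⟨fun h => ?_, backward G⟩⟩
  · rw [← hJ]
    exact (LSplus_subset_ASTAB G hx).2 J
  · refine Set.Subset.antisymm (LSplus_subset_ASTAB G) fun x hx => ?_
    rw [h]
    refine hC x hx fun B a hF hG => ?_
    obtain ⟨J, hJ⟩ := key B a hF hG fun y hy => (fo B a hF).stab_valid (h ▸ hy)
    rw [← hJ]
    exact hx.2 J

end Pool.Agent.Lib.Old.L2081efGateFreeJoined
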