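import Pool.Agent.Lib.MP_33ede1_an.Prim

/-!
Steklov isospectral, non-congruent planar domains exist (the case `n = 2` of the question).
The plane is `ℂ` with its Euclidean metric; `ℂ ≃ᵢ ℂ` is the group of all its isometries.
-/

open Pool.Agent.Lib.MP_33ede1_an

namespace Pool.Agent.Lib.Old.L33ede1PlanarPair

theorem result : ∃ Ω₁ Ω₂ : Set ℂ, IsSmoothDomain Ω₁ ∧ IsSmoothDomain Ω₂ ∧
    IsAnalyticDisc Ω₁ ∧ IsAnalyticDisc Ω₂ ∧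
    (∀ σ : ℝ, steklovMultiplicity Ω₁ σ = steklovMultiplicity Ω₂ σ) ∧
    ∀ φ : ℂ ≃ᵢ ℂ, φ '' Ω₁ ≠ Ω₂ :=
  main

end Pool.Agent.Lib.Old.L33ede1PlanarPair
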