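import Pool.Agent.Lib.MP_3eb21e_gt.Ch.Top

/-!
The map induced on the symmetric products by a map of a continuum onto a chainable continuum is
universal. With the identity map: all symmetric products of a chainable continuum have the fixed
point property.
-/

namespace Pool.Agent.Lib.Old.L3eb21eArcLikeAll

open Pool.Agent.Lib.MP_3eb21e_gt

theorem result (X Y : Type) [TopologicalSpace X] [CompactSpace X] [T2Space X] [ConnectedSpace X]
    [TopologicalSpace Y] [CompactSpace Y] [T2Space Y] (hY : Chainable Y)
    (f : X → Y) (hf : Continuous f) (hs : Function.Surjective f) (n : ℕ) (hn : 1 ≤ n)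
    (g : SymProd X n → SymProd Y n) (hg : Continuous g) :
    ∃ A : SymProd X n, (g A).pts = f '' A.pts := by
  let _ : UniformSpace X := uniformSpaceOfCompactR1
  let _ : UniformSpace Y := uniformSpaceOfCompactR1
  exact Ch.universal hY f hf hs hn g hg

/-- The case of the identity map. -/
theorem fpp (E : Type) [TopologicalSpace E] [CompactSpace E] [T2Space E] [ConnectedSpace E]
    (hE : Chainable E) (n : ℕ) (hn : 1 ≤ n) : FPP (SymProd E n) := by
  intro g hg
  obtain ⟨A, hA⟩ := result E E hE id continuous_id Function.surjective_id n hn g hg
  refine ⟨A, ?_⟩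
  rw [Set.image_id] at hA
  revert hA
  generalize g A = B
  cases A
  cases B
  simp

end Pool.Agent.Lib.Old.L3eb21eArcLikeAll
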