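import Pool.Agent.Lib.MP_3eb21e_gt.Pr.Top

/-!
The map induced on the symmetric products by a product of maps of continua onto chainable continua
is universal. With the identity maps: all symmetric products of a product of chainable continua
have the fixed point property.
-/

namespace Pool.Agent.Lib.Old.L3eb21eArcLikeProducts

open Pool.Agent.Lib.MP_3eb21e_gt

theorem result (I : Type) (X Y : I → Type)
    [∀ i, TopologicalSpace (X i)] [∀ i, CompactSpace (X i)] [∀ i, T2Space (X i)]
    [∀ i, ConnectedSpace (X i)]
    [∀ i, TopologicalSpace (Y i)] [∀ i, CompactSpace (Y i)] [∀ i, T2Space (Y i)]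
    (hY : ∀ i, Chainable (Y i)) (f : ∀ i, X i → Y i) (hf : ∀ i, Continuous (f i))
    (hs : ∀ i, Function.Surjective (f i)) (n : ℕ) (hn : 1 ≤ n)
    (g : SymProd (∀ i, X i) n → SymProd (∀ i, Y i) n) (hg : Continuous g) :
    ∃ A : SymProd (∀ i, X i) n, (g A).pts = (fun x i => f i (x i)) '' A.pts := by
  let _ : ∀ i, UniformSpace (X i) := fun _ => uniformSpaceOfCompactR1
  let _ : ∀ i, UniformSpace (Y i) := fun _ => uniformSpaceOfCompactR1
  exact Pr.universal hY f hf hs hn g hg

end Pool.Agent.Lib.Old.L3eb21eArcLikeProducts
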