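import Pool.Agent.Lib.MP_480559_an.Fixed

/-!
The pressure function does not determine a smooth area-preserving Anosov diffeomorphism of the
two-torus up to smooth conjugacy within its homotopy class.

The maps are `f (x, y) = (x + φ₁ (y + φ₁ x), y + φ₁ x)` and the same formula `g` with `φ₂`, where
`φ_m t = 2 t + sin (2 π m t) / (2 π m)`. The map `g` is the lift of `f` through the fourfold
cover `p ↦ 2 p`, so the pressure functions agree; `f` has a fixed point with trace `3`, while all
fixed points of `g` have trace `11`.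
-/

open MeasureTheory Pool.Agent.Lib.MP_480559_an

namespace Pool.Agent.Lib.Old.L480559NotRigid

theorem result :
    ∃ (f g : Torus ≃ₜ Torus) (Es Eu Es' Eu' : Torus → Submodule ℝ Plane),
      IsDiffeo ((⊤ : ℕ∞) : WithTop ℕ∞) f ∧ IsDiffeo ((⊤ : ℕ∞) : WithTop ℕ∞) g ∧
      MeasurePreserving f (volume : Measure Torus) (volume : Measure Torus) ∧
      MeasurePreserving g (volume : Measure Torus) (volume : Measure Torus) ∧
      IsAnosovSplitting f Es Eu ∧ IsAnosovSplitting g Es' Eu' ∧
      ContinuousMap.Homotopic (f : C(Torus, Torus)) (g : C(Torus, Torus)) ∧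
      (∀ t : ℝ, pressure f (geomPotential f Eu t) = pressure g (geomPotential g Eu' t)) ∧
      ∀ r : WithTop ℕ∞, 1 ≤ r → ∀ h : Torus ≃ₜ Torus, IsDiffeo r h →
        (¬ ∀ p : Torus, h (f p) = g (h p)) ∧ (¬ ∀ p : Torus, h (f p) = g.symm (h p)) := by
  let f := shearMap 1
  let u : Torus → ℝ := fun p => slope 1 p.1
  let w : Torus → ℝ := fun p => slope 1 (f p).2
  have hu : Continuous u := (continuous_slope 1).comp continuous_fst
  have hw : Continuous w := (continuous_slope 1).comp (continuous_snd.comp f.continuous)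
  have hu1 : ∀ p, 1 ≤ u p := fun p => one_le_slope _ _
  have hw1 : ∀ p, 1 ≤ w p := fun p => one_le_slope _ _
  obtain ⟨s, hs, hs0, hs1, hsf⟩ := exists_slope f.symm f.symm.continuous (u ∘ f.symm) (w ∘ f.symm)
    (hu.comp f.symm.continuous) (hw.comp f.symm.continuous) (fun p => hu1 _) (fun p => hw1 _)
  have hsf' : ∀ p, s (f p) = slopeMap (u p) (w p) (s p) := fun p => by
    rw [hsf]; simp
  obtain ⟨r, hr, hr0, hr1, hrf⟩ := exists_slope f f.continuous w u hw hu hw1 hu1
  have hD : ∀ p, D f p = shearCLM (u p) (w p) := D_shearMap one_ne_zero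
  have hD2 : ∀ p, D (shearMap 2) p = shearCLM ((u ∘ dbl) p) ((w ∘ dbl) p) := by
    intro p
    rw [D_shearMap two_ne_zero]
    simp only [Function.comp_apply, u, w, f]
    rw [← dbl_semiconj]
    simp only [dbl, slope_dbl]
  refine ⟨f, shearMap 2, lineS r, lineU s, lineS (r ∘ dbl), lineU (s ∘ dbl),
    isDiffeo_shearMap 1 _, isDiffeo_shearMap 2 _,
    measurePreserving_pairFun (continuous_pert 1), measurePreserving_pairFun (continuous_pert 2),
    isAnosovSplitting_of_slopes (diffLift_shearMap 1) hD hu1 hw1 hs hs0 hs1 hsf' hr hr0 hr1 hrf,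
    isAnosovSplitting_of_slopes (diffLift_shearMap 2) hD2 (fun p => hu1 _) (fun p => hw1 _)
      (hs.comp continuous_dbl) (fun p => hs0 _) (fun p => hs1 _) (fun p => ?_)
      (hr.comp continuous_dbl) (fun p => hr0 _) (fun p => hr1 _) (fun p => ?_),
    homotopic_shear, fun t => ?_, fun k hk h hh => ?_⟩
  · simp only [Function.comp_apply]
    rw [dbl_semiconj]
    exact hsf' _
  · simp only [Function.comp_apply]
    rw [dbl_semiconj]
    exact hrf _
  · rw [← pressure_dbl (measurable_geomPotential hD hu hw hs t)]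
    congr 1
    funext p
    simp only [Function.comp_apply, geomPotential]
    rw [hD, hD2]
    rfl
  · exact ⟨not_conj (hh.1.diffLift hk) (hh.2.diffLift hk),
      not_conj_inv (hh.1.diffLift hk) (hh.2.diffLift hk)⟩

end Pool.Agent.Lib.Old.L480559NotRigid
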