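import Pool.Agent.Lib.MP_4ba7b3_gt.Top
import Pool.Agent.Lib.MP_4ba7b3_gt.AllC

/-! For a large class of D-sequences every character of the integers is continuous for `s_b`. -/

namespace Pool.Agent.Lib.Old.L4ba7b3DualAllFour

open Pool.Agent.Lib.MP_4ba7b3_gt

theorem result (b : ℕ → ℕ) (hb : IsDSeq b) (P : ℕ) (hP : 0 < P)
    (h : ∀ m : ℕ, 0 < m → Nat.Coprime m P → ∃ n, m ∣ b n) (χ : ℤ →+ UnitAddCircle) :
    (∃ c : Fin 4 → ℕ → ℕ, (∀ s, IsDInf (c s) ∧ lam (c s) = lam b) ∧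
      @Continuous ℤ UnitAddCircle (⨅ s, tau (c s)) _ χ) ∧
    @Continuous ℤ UnitAddCircle (supTop b) _ χ := by
  obtain ⟨p, rfl⟩ : ∃ p, P = p + 1 := ⟨P - 1, by omega⟩
  obtain ⟨α, hα⟩ := QuotientAddGroup.mk_surjective (χ 1)
  obtain ⟨c, g, δ₀, h0, hc⟩ := four_chains hb.1 hb.2.1 hb.dvd hb.le p h α
  have h1 := cont_of_bound c χ h0 fun δ hδ k hk => by
    rw [chi_eq χ hα.symm]; exact hc δ hδ k hk
  exact ⟨⟨c, fun s => (g s).dinf, h1⟩,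
    continuous_le_dom (supTop_le c fun s => (g s).dinf) h1⟩

end Pool.Agent.Lib.Old.L4ba7b3DualAllFour
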