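import Mathlib
import Pool.Agent.Lib.MP_4ba7b3_gt.Chains

namespace Pool.Agent.Lib.Old.L4ba7b3SupNotCompatible

open Filter Topology

/-- D-sequences. -/
def IsDSeq (b : ℕ → ℕ) : Prop :=
  b 0 = 1 ∧ (∀ n, 0 < b n) ∧ (∀ n, b n ∣ b (n + 1)) ∧ ∀ n, b n ≠ b (n + 1)

/-- D-sequences whose ratios tend to infinity. -/
def IsDInf (c : ℕ → ℕ) : Prop :=
  IsDSeq c ∧ Tendsto (fun n => (c (n + 1) : ℝ) / (c n : ℝ)) atTop atTop

/-- The linear topology on `ℤ`: generated by the cosets `x + b n ℤ`. -/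
def lam (b : ℕ → ℕ) : TopologicalSpace ℤ :=
  TopologicalSpace.generateFrom {O : Set ℤ | ∃ (x : ℤ) (n : ℕ), O = {y | (b n : ℤ) ∣ y - x}}

/-- The topology on `ℤ` of uniform convergence on `{1 / c n + ℤ : n ≥ 1}`: a set is open iff
with each point `x` it contains `x + {k : ‖k / c n‖ ≤ ε for all n ≥ 1}` for some `ε > 0`. -/
def tau (c : ℕ → ℕ) : TopologicalSpace ℤ where
  IsOpen O := ∀ x ∈ O, ∃ ε : ℝ, 0 < ε ∧ ∀ k : ℤ,
    (∀ n, 1 ≤ n → ‖(((k : ℝ) / (c n : ℝ) : ℝ) : UnitAddCircle)‖ ≤ ε) → x + k ∈ O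
  isOpen_univ := fun _ _ => ⟨1, one_pos, fun _ _ => trivial⟩
  isOpen_inter := fun _ _ h1 h2 x hx => by
    obtain ⟨ε1, p1, q1⟩ := h1 x hx.1
    obtain ⟨ε2, p2, q2⟩ := h2 x hx.2
    exact ⟨min ε1 ε2, lt_min p1 p2, fun k hk =>
      ⟨q1 k fun n hn => (hk n hn).trans (min_le_left _ _),
        q2 k fun n hn => (hk n hn).trans (min_le_right _ _)⟩⟩
  isOpen_sUnion := fun _ h x ⟨O, hO, hx⟩ => by
    obtain ⟨ε, p, q⟩ := h O hO x hx
    exact ⟨ε, p, fun k hk => ⟨O, hO, q k hk⟩⟩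

/-- The coarsest topology finer than all `tau c` with `c` in `D_∞` and `lam c = lam b`
(in Mathlib's order on topologies, finer means smaller, so this is an infimum). -/
def supTop (b : ℕ → ℕ) : TopologicalSpace ℤ :=
  sInf {t | ∃ c : ℕ → ℕ, IsDInf c ∧ lam c = lam b ∧ t = tau c}

open Pool.Agent.Lib.MP_4ba7b3_gt

lemma lam_le {b c : ℕ → ℕ} (h : ∀ n, ∃ m, c n ∣ b m) : lam b ≤ lam c := by
  apply le_generateFrom
  rintro _ ⟨x, n, rfl⟩
  obtain ⟨m, hm⟩ := h n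
  letI := lam b
  rw [isOpen_iff_forall_mem_open]
  intro y hy
  refine ⟨{z | (b m : ℤ) ∣ z - y}, ?_, ?_, by simp⟩
  · intro z hz
    have h1 : (c n : ℤ) ∣ z - y := (Int.natCast_dvd_natCast.mpr hm).trans hz
    have h2 : (c n : ℤ) ∣ y - x := hy
    have := dvd_add h1 h2
    rwa [sub_add_sub_cancel] at this
  · exact TopologicalSpace.isOpen_generateFrom_of_mem ⟨y, m, rfl⟩

lemma lam_open {b : ℕ → ℕ} (hb : ∀ m n, m ≤ n → b m ∣ b n) {O : Set ℤ} (h : IsOpen[lam b] O) :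
    ∀ x ∈ O, ∃ m, ∀ k : ℤ, (b m : ℤ) ∣ k → x + k ∈ O := by
  induction h with
  | basic s hs =>
    obtain ⟨y, n, rfl⟩ := hs
    intro x hx
    refine ⟨n, fun k hk => ?_⟩
    have h2 : (b n : ℤ) ∣ x - y := hx
    have := dvd_add h2 hk
    show (b n : ℤ) ∣ x + k - y
    rwa [show x + k - y = x - y + k by ring]
  | univ => exact fun _ _ => ⟨0, fun _ _ => trivial⟩
  | inter s t _ _ ih1 ih2 =>
    intro x hx
    obtain ⟨m1, h1⟩ := ih1 x hx.1
    obtain ⟨m2, h2⟩ := ih2 x hx.2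
    exact ⟨max m1 m2, fun k hk =>
      ⟨h1 k ((Int.natCast_dvd_natCast.mpr (hb _ _ (le_max_left _ _))).trans hk),
        h2 k ((Int.natCast_dvd_natCast.mpr (hb _ _ (le_max_right _ _))).trans hk)⟩⟩
  | sUnion S _ ih =>
    rintro x ⟨O, hO, hx⟩
    obtain ⟨m, hm⟩ := ih O hO x hx
    exact ⟨m, fun k hk => ⟨O, hO, hm k hk⟩⟩

/-- Open balls for `tau c`. -/
def tball (c : ℕ → ℕ) (x : ℤ) (δ : ℝ) : Set ℤ :=
  {y | ∃ δ' < δ, ∀ n, 1 ≤ n → ‖((((y - x : ℤ) : ℝ) / (c n : ℝ) : ℝ) : UnitAddCircle)‖ ≤ δ'}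

lemma tball_open (c : ℕ → ℕ) (x : ℤ) (δ : ℝ) : IsOpen[tau c] (tball c x δ) := by
  rintro y ⟨δ', h1, h2⟩
  refine ⟨(δ - δ') / 2, by linarith, fun k hk => ⟨δ' + (δ - δ') / 2, by linarith, fun n hn => ?_⟩⟩
  have e : (((y + k - x : ℤ) : ℝ) / (c n : ℝ)) = ((y - x : ℤ) : ℝ) / (c n : ℝ) + (k : ℝ) / c n := by
    push_cast; ring
  rw [e, AddCircle.coe_add]
  exact (norm_add_le _ _).trans (add_le_add (h2 n hn) (hk n hn))

lemma mem_tball (c : ℕ → ℕ) (x : ℤ) {δ : ℝ} (h : 0 < δ) : x ∈ tball c x δ :=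
  ⟨0, h, fun n _ => by simp⟩

noncomputable def chi : ℤ →+ UnitAddCircle := zmultiplesHom _ ((xi : ℝ) : UnitAddCircle)

lemma chi_apply (k : ℤ) : chi k = ((k * xi : ℝ) : UnitAddCircle) := by
  rw [chi, zmultiplesHom_apply, ← AddCircle.coe_zsmul, zsmul_eq_mul]

lemma isDInf_U : IsDInf (chain U) ∧ lam (chain U) = lam (fun n => (n + 1).factorial) := by
  obtain ⟨a1, a2, a3, a4, a5, a6, -⟩ := chain_spec U U00 (fun n j h => U_next h) fact_dvd_U
  refine ⟨⟨⟨a1, a2, a3, a4⟩, a5⟩, le_antisymm (lam_le a6) (lam_le fun n => ?_)⟩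
  exact ⟨chain U n, Nat.dvd_factorial (a2 n) (by omega)⟩

lemma isDInf_V : IsDInf (chain V) ∧ lam (chain V) = lam (fun n => (n + 1).factorial) := by
  obtain ⟨a1, a2, a3, a4, a5, a6, -⟩ := chain_spec V V00 (fun n j h => V_next h) fact_dvd_V
  refine ⟨⟨⟨a1, a2, a3, a4⟩, a5⟩, le_antisymm (lam_le a6) (lam_le fun n => ?_)⟩
  exact ⟨chain V n, Nat.dvd_factorial (a2 n) (by omega)⟩

lemma chi_cont : Continuous[tau (chain U) ⊓ tau (chain V), _] chi := by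
  obtain ⟨-, -, -, -, -, -, hU⟩ := chain_spec U U00 (fun n j h => U_next h) fact_dvd_U
  obtain ⟨-, -, -, -, -, -, hV⟩ := chain_spec V V00 (fun n j h => V_next h) fact_dvd_V
  letI : TopologicalSpace ℤ := tau (chain U) ⊓ tau (chain V)
  rw [continuous_def]
  intro O hO
  rw [isOpen_iff_forall_mem_open]
  intro x hx
  obtain ⟨ε, hε, hball⟩ := Metric.isOpen_iff.mp hO _ hx
  set δ := min (ε / 8) (1 / 8) with hδ
  have hδ0 : 0 < δ := lt_min (by linarith) (by norm_num)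
  refine ⟨tball (chain U) x δ ∩ tball (chain V) x δ, ?_, ?_,
    mem_tball _ _ hδ0, mem_tball _ _ hδ0⟩
  · rintro y ⟨⟨δ1, p1, q1⟩, ⟨δ2, p2, q2⟩⟩
    apply hball
    rw [Metric.mem_ball, dist_eq_norm, ← map_sub, chi_apply]
    have := xi_bound (y - x) δ (min_le_right _ _)
      (fun n j hj => by
        obtain ⟨i, hi, e⟩ := hU n j hj
        rw [← e]; exact (q1 i hi).trans p1.le)
      (fun n j hj => by
        obtain ⟨i, hi, e⟩ := hV n j hj
        rw [← e]; exact (q2 i hi).trans p2.le)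
    have h3 : δ ≤ ε / 8 := min_le_left _ _
    linarith
  · apply IsOpen.inter
    · exact (tball_open _ _ _).mono inf_le_left
    · exact (tball_open _ _ _).mono inf_le_right

lemma chi_fact (m : ℕ) : chi (((m + 1).factorial : ℕ) : ℤ) ≠ 0 := by
  rw [chi_apply]
  exact_mod_cast xi_irr m

theorem result :
    ∃ b : ℕ → ℕ, IsDSeq b ∧ (∀ n, b n = (n + 1).factorial) ∧
      ∃ χ : ℤ →+ UnitAddCircle,
        (∃ c c' : ℕ → ℕ, IsDInf c ∧ IsDInf c' ∧ lam c = lam b ∧ lam c' = lam b ∧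
          @Continuous ℤ UnitAddCircle (tau c ⊓ tau c') _ χ) ∧
        @Continuous ℤ UnitAddCircle (supTop b) _ χ ∧
        ¬ @Continuous ℤ UnitAddCircle (lam b) _ χ ∧
        ∀ (k : ℤ) (n : ℕ), χ 1 ≠ (((k : ℝ) / (b n : ℝ) : ℝ) : UnitAddCircle) := by
  refine ⟨fun n => (n + 1).factorial, ⟨rfl, fun n => Nat.factorial_pos _,
    fun n => Nat.factorial_dvd_factorial (by omega), fun n => ?_⟩, fun _ => rfl, chi,
    ⟨chain U, chain V, isDInf_U.1, isDInf_V.1, isDInf_U.2, isDInf_V.2, chi_cont⟩, ?_, ?_, ?_⟩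
  · exact (Nat.factorial_lt_of_lt (by omega) (by omega)).ne
  · apply continuous_le_dom _ chi_cont
    exact le_inf (sInf_le ⟨chain U, isDInf_U.1, isDInf_U.2, rfl⟩)
      (sInf_le ⟨chain V, isDInf_V.1, isDInf_V.2, rfl⟩)
  · intro hc
    have h1 := (@continuous_def _ _ (lam fun n => (n + 1).factorial) _ _).mp hc _
      (Metric.isOpen_ball (x := (0 : UnitAddCircle)) (ε := 1 / 4))
    obtain ⟨m, hm⟩ := lam_open (fun m n h => Nat.factorial_dvd_factorial (by omega)) h1 0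
      (by simp)
    apply chi_fact m
    set z := chi (((m + 1).factorial : ℕ) : ℤ) with hz
    have h2 : ∀ j : ℕ, ‖2 ^ j • z‖ ≤ 1 / 4 := by
      intro j
      have := hm ((2 ^ j : ℕ) • (((m + 1).factorial : ℕ) : ℤ)) (by
        rw [nsmul_eq_mul]; exact Dvd.intro_left _ rfl)
      rw [zero_add, Set.mem_preimage, map_nsmul, Metric.mem_ball, dist_zero_right] at this
      exact this.le
    by_contra h0
    have h3 : 0 < ‖z‖ := norm_pos_iff.mpr h0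
    obtain ⟨n, hn⟩ := pow_unbounded_of_one_lt (1 / ‖z‖) (one_lt_two (α := ℝ))
    have h4 := h2 n
    rw [norm_pow_nsmul z n (fun j _ => h2 j)] at h4
    rw [div_lt_iff₀ h3] at hn
    linarith
  · intro k n h
    apply chi_fact n
    have e : (((n + 1).factorial : ℕ) : ℤ) = ((n + 1).factorial : ℕ) • (1 : ℤ) := by simp
    rw [e, map_nsmul, h, ← AddCircle.coe_nsmul, AddCircle.coe_eq_zero_iff]
    refine ⟨k, ?_⟩
    have : (((n + 1).factorial : ℕ) : ℝ) ≠ 0 := by exact_mod_cast (Nat.factorial_pos _).ne'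
    rw [zsmul_eq_mul, nsmul_eq_mul]; field_simp

end Pool.Agent.Lib.Old.L4ba7b3SupNotCompatible
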