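import Mathlib

set_option autoImplicit false

namespace Pool.Agent.Lib.Old.L52c232CubeUnimodular

/-- The explicit witness: a 5 x 5 matrix with all entries at least 2. -/
private theorem witness :
    (∀ i j, (2 : ℤ) ≤ (!![2,3,3,2,2; 3,4,10,4,7; 3,4,5,3,2; 2,3,4,3,2; 3,5,4,4,3] :
        Matrix (Fin 5) (Fin 5) ℤ) i j) ∧
    (!![2,3,3,2,2; 3,4,10,4,7; 3,4,5,3,2; 2,3,4,3,2; 3,5,4,4,3] :
        Matrix (Fin 5) (Fin 5) ℤ).det = 1 ∧
    ((!![2,3,3,2,2; 3,4,10,4,7; 3,4,5,3,2; 2,3,4,3,2; 3,5,4,4,3] :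
        Matrix (Fin 5) (Fin 5) ℤ).map (fun a => a ^ 3)).det = 1 := by
  refine ⟨?_, by decide +kernel, by decide +kernel⟩
  intro i j
  fin_cases i <;> fin_cases j <;> simp

/-- There is a square integer matrix of order at least one, none of whose entries is
-1, 0 or 1, such that both the matrix and its entrywise cube have determinant one. -/
theorem result :
    ∃ (n : ℕ) (A : Matrix (Fin n) (Fin n) ℤ), 1 ≤ n ∧
      (∀ i j, A i j ≠ -1 ∧ A i j ≠ 0 ∧ A i j ≠ 1) ∧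
      A.det = 1 ∧ (A.map (fun a => a ^ 3)).det = 1 := by
  refine ⟨5, _, by norm_num, ?_, witness.2.1, witness.2.2⟩
  intro i j
  have h := witness.1 i j
  refine ⟨?_, ?_, ?_⟩ <;> omega

end Pool.Agent.Lib.Old.L52c232CubeUnimodular
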