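import Mathlib
import Pool.Agent.Lib.MP_6441f0_al.UG2

set_option autoImplicit false

namespace Pool.Agent.Lib.Old.L6441f0DerivedLengthThree

open Pool.Agent.Lib.MP_6441f0_al

/-- For every prime `p ≥ 5` and `f ≥ 2` there is a finite `p`-group with character degrees
`1, p ^ f, p ^ (2 f)` that is not metabelian. -/
theorem result (p f : ℕ) (hp : p.Prime) (h5 : 5 ≤ p) (hf : 2 ≤ f) :
    ∃ (P : Type) (_ : Group P) (_ : Finite P) (cd : Set ℕ), IsPGroup p P ∧
      cd = {n : ℕ | ∃ (V : Type) (_ : AddCommGroup V) (_ : Module ℂ V)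
        (_ : FiniteDimensional ℂ V) (ρ : Representation ℂ P V),
        ρ.IsIrreducible ∧ ρ.character 1 = n} ∧
      cd = {1, p ^ f, p ^ (2 * f)} ∧ cd.ncard = 3 ∧ p ∉ cd ∧ derivedSeries P 2 ≠ ⊥ := by
  have : Fact p.Prime := ⟨hp⟩
  let K := GaloisField p f
  have : Fintype K := Fintype.ofFinite K
  have hcardN : Nat.card K = p ^ f := GaloisField.card p f (by omega)
  have hcard : Fintype.card K = p ^ f := by rw [← Nat.card_eq_fintype_card, hcardN]
  have h2 : (2 : K) ≠ 0 := by
    intro h0
    have := Nat.le_of_dvd (by norm_num) ((CharP.cast_eq_zero_iff K p 2).1 (by exact_mod_cast h0))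
    omega
  have h3 : (3 : K) ≠ 0 := by
    intro h0
    have := Nat.le_of_dvd (by norm_num) ((CharP.cast_eq_zero_iff K p 3).1 (by exact_mod_cast h0))
    omega
  have hP : IsPGroup p (GG K) :=
    IsPGroup.of_card (n := f * 6) (by rw [GG.card, hcardN, ← pow_mul])
  have hdeg := degrees_GG (K := K) h2 h3
  rw [hcard, ← pow_mul, mul_comm f 2] at hdeg
  have hp1 : 1 < p := hp.one_lt
  have e1 : p ^ 1 < p ^ f := Nat.pow_lt_pow_right hp1 (by omega)
  have e2 : p ^ f < p ^ (2 * f) := Nat.pow_lt_pow_right hp1 (by omega)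
  rw [pow_one] at e1
  refine ⟨GG K, inferInstance, inferInstance, {1, p ^ f, p ^ (2 * f)}, hP, ?_, rfl, ?_, ?_,
    derived_GG h2 h3⟩
  · rw [← hdeg]
    ext n
    simp only [Set.mem_ofPred_eq]
    constructor
    · rintro ⟨V, i1, i2, i3, ρ, hnt, hirr, rfl⟩
      refine ⟨V, i1, i2, i3, ρ, ?_, by simp⟩
      have hbt : (⊥ : Subrepresentation ρ) ≠ ⊤ := by
        intro h
        have h' : (⊥ : Submodule ℂ V) = ⊤ := congrArg Subrepresentation.toSubmodule h
        exact bot_ne_top h'
      have : Nontrivial (Subrepresentation ρ) := ⟨⊥, ⊤, hbt⟩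
      refine ⟨fun W => ?_⟩
      rcases hirr W.toSubmodule (fun g v hv => W.apply_mem_toSubmodule g hv) with h | h
      · exact Or.inl (Subrepresentation.toSubmodule_injective h)
      · exact Or.inr (Subrepresentation.toSubmodule_injective h)
    · rintro ⟨V, i1, i2, i3, ρ, hirr, hn⟩
      refine ⟨V, i1, i2, i3, ρ, ?_, ?_, ?_⟩
      · by_contra hV
        have : Subsingleton V := not_nontrivial_iff_subsingleton.1 hV
        have hbt : (⊥ : Subrepresentation ρ) ≠ ⊤ := bot_ne_top
        exact hbt (Subrepresentation.toSubmodule_injective (Subsingleton.elim _ _))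
      · intro W hW
        rcases hirr.eq_bot_or_eq_top ⟨W, fun g v hv => hW g v hv⟩ with h | h
        · exact Or.inl (congrArg Subrepresentation.toSubmodule h)
        · exact Or.inr (congrArg Subrepresentation.toSubmodule h)
      · simpa using hn
  · rw [Set.ncard_eq_three]
    exact ⟨1, p ^ f, p ^ (2 * f), by omega, by omega, by omega, rfl⟩
  · simp only [Set.mem_insert_iff, Set.mem_singleton_iff]
    omega

end Pool.Agent.Lib.Old.L6441f0DerivedLengthThree
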