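import Pool.Agent.Lib.MP_6cc228_al.Final

/-!
An infinite finitely generated periodic group with an involution whose centralizer is locally
finite with Sylow 2-subgroups of order 2.
-/

namespace Pool.Agent.Lib.Old.L6cc228Counterexample

theorem counterexample : ∃ (G : Type) (_ : Group G) (t : G),
    Group.FG G ∧ Infinite G ∧ (∀ g : G, ∃ a : ℕ, g ^ (2 * 3 ^ a) = 1) ∧ orderOf t = 2 ∧
    (∀ H : Subgroup G, H ≤ Subgroup.centralizer {t} → H.FG → Finite H) ∧
    ∀ P : Sylow 2 (Subgroup.centralizer ({t} : Set G)),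
      Nat.card (P : Subgroup (Subgroup.centralizer ({t} : Set G))) = 2 := by
  obtain ⟨G, _, t, hfg, hinf, htor, ht, hloc, h2⟩ := Pool.Agent.Lib.MP_6cc228_al.exists_group
  refine ⟨G, inferInstance, t, hfg, hinf, htor, ht, ?_,
    Pool.Agent.Lib.MP_6cc228_al.sylow_card ht h2⟩
  rintro _ hH ⟨s, rfl⟩
  exact hloc s s.finite_toSet fun x hx => hH (Subgroup.subset_closure hx)

end Pool.Agent.Lib.Old.L6cc228Counterexample
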