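import Pool.Agent.Lib.MP_e62806_an.L1

/-!
For every countable infinite group `G` all of whose Bernoulli shifts are circle-cocycle superrigid
and every `f ∈ ℤG` invertible in `ℓ¹(G)`, the cohomology group `H¹(G, ℤG/ℤGf)` vanishes.
-/

open Pool.Agent.Lib.MP_e62806_an

namespace Pool.Agent.Lib.Old.Le62806L1Vanishing

theorem result (G : Type) [Group G] [Countable G] [Infinite G] (hG : InClass G)
    (f : MonoidAlgebra ℤ G) (hf : InvertibleL1 f) : H1Vanishes f :=
  h1Vanishes_of_invertible (hG Bool coin) hf

end Pool.Agent.Lib.Old.Le62806L1Vanishing
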