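import Pool.Agent.Lib.MP_e62806_an.L2

/-!
For every countable infinite group `G` all of whose Bernoulli shifts are circle-cocycle superrigid
and every `f ∈ ℤG` with a square-summable convolution inverse, `H¹(G, ℤG/ℤGf)` vanishes.
-/

open Pool.Agent.Lib.MP_e62806_an

namespace Pool.Agent.Lib.Old.Le62806L2Vanishing

/-- Some square-summable `u` satisfies `f * u = u * f = δ₁`. -/
def HasL2Inverse {G : Type} [Group G] (f : MonoidAlgebra ℤ G) : Prop :=
  ∃ u : G → ℂ, Summable (fun g : G => ‖u g‖ ^ 2) ∧
    (∀ h : G, ∑' k : G, ((f.coeff k : ℤ) : ℂ) * u (k⁻¹ * h) =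
      (((1 : MonoidAlgebra ℤ G).coeff h : ℤ) : ℂ)) ∧
    (∀ h : G, ∑' k : G, u k * ((f.coeff (k⁻¹ * h) : ℤ) : ℂ) =
      (((1 : MonoidAlgebra ℤ G).coeff h : ℤ) : ℂ))

theorem result (G : Type) [Group G] [Countable G] [Infinite G] (hG : InClass G)
    (f : MonoidAlgebra ℤ G) (hf : HasL2Inverse f) : H1Vanishes f := by
  obtain ⟨u, hu, h1, h2⟩ := hf
  refine h1Vanishes_of_l2 (hG (Bool × Bool) coin2) (u := fun g => (u g).re) ?_ ?_ ?_
  · refine Summable.of_nonneg_of_le (fun g => by positivity) (fun g => ?_) hu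
    rw [← sq_abs]
    exact pow_le_pow_left₀ (abs_nonneg _) (Complex.abs_re_le_norm _) 2
  · funext h
    have := h1 h
    rw [tsum_eq_sum (s := f.coeff.support) (fun k hk => by
      rw [Finsupp.notMem_support_iff.1 hk]; simp)] at this
    have := congrArg Complex.re this
    rw [Complex.re_sum] at this
    simpa [lconv, Finsupp.sum] using this
  · funext h
    have := h2 h
    rw [← ((Equiv.inv G).trans (Equiv.mulLeft h)).tsum_eq,
      tsum_eq_sum (s := f.coeff.support) (fun k hk => by
        simp [Finsupp.notMem_support_iff.1 hk])] at this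
    have := congrArg Complex.re this
    rw [Complex.re_sum] at this
    simpa [rconv, Finsupp.sum] using this

end Pool.Agent.Lib.Old.Le62806L2Vanishing
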