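import Mathlib
import Pool.Agent.Lib.MP_356f68_co.Cube.Main

/-! Every Latin hypercube of dimension at least three and large order has a set of `n - 1` cells
that differ in every coordinate and carry distinct symbols. -/

set_option autoImplicit false

namespace Pool.Agent.Lib.Old.M356f68NearLargeOrder

open Pool.Agent.Lib.MP_356f68_co.Cube

theorem result : ∃ n0 : ℕ, ∀ n : ℕ, n0 ≤ n → ∀ d : ℕ, 3 ≤ d →
    ∀ L : (Fin d → Fin n) → Fin n,
      (∀ (x : Fin d → Fin n) (j : Fin d),
        Function.Bijective (fun a : Fin n => L (Function.update x j a))) →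
      ∃ T : Fin (n - 1) → (Fin d → Fin n),
        (∀ j : Fin d, Function.Injective (fun i => T i j)) ∧
        Function.Injective (fun i => L (T i)) := by
  obtain ⟨n0, h⟩ := near_large
  refine ⟨n0, fun n hn d hd L hL => ?_⟩
  let π : Fin d → Fin 5 := fun j =>
    if j.val = 0 then 1 else if j.val = 1 then 2 else if j.val = 2 then 3 else 0
  have key : ∀ (k : Fin 5) (j : Fin d), k ≠ 4 → π j = k → (∀ j', π j' = k → j' = j) →
      ∀ g : Fin 5 → Fin n, ∃! a, L (fun j => Function.update g k a (π j))
        = Function.update g k a 4 := by
    intro k j hk h1 h2 g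
    have e : ∀ a, (fun j => Function.update g k a (π j))
        = Function.update (fun j => g (π j)) j a := by
      intro a
      funext j'
      by_cases h3 : j' = j
      · rw [h3, h1, Function.update_self, Function.update_self]
      · rw [Function.update_of_ne h3, Function.update_of_ne (fun h4 => h3 (h2 j' h4))]
    simp only [e, Function.update_of_ne hk.symm]
    exact (hL _ j).existsUnique _
  have h4 : ∀ j, π j ≠ 4 := by
    intro j; simp only [π]; split_ifs <;> decide
  obtain ⟨U, h1, h2⟩ := h (Fin n) (by simpa using hn) (fun g => L (fun j => g (π j)) = g 4) (by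
    intro k hk g
    fin_cases k
    · exact absurd rfl hk
    · refine key 1 ⟨0, by omega⟩ (by decide) rfl (fun j hj => Fin.ext ?_) g
      simp only [π] at hj; split_ifs at hj <;> first | assumption | exact absurd hj (by decide)
    · refine key 2 ⟨1, by omega⟩ (by decide) rfl (fun j hj => Fin.ext ?_) g
      simp only [π] at hj; split_ifs at hj <;> first | assumption | exact absurd hj (by decide)
    · refine key 3 ⟨2, by omega⟩ (by decide) rfl (fun j hj => Fin.ext ?_) g
      simp only [π] at hj; split_ifs at hj <;> first | assumption | exact absurd hj (by decide)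
    · change ∃! a, L (fun j => Function.update g 4 a (π j)) = Function.update g 4 a 4
      simp only [Function.update_of_ne (h4 _), Function.update_self]
      exact existsUnique_eq')
  rw [Fintype.card_fin] at h2
  obtain ⟨T, g1, g2⟩ := h1.extract h2
  refine ⟨fun i j => T i (π j), fun j => g2 (π j), fun a b hab => g2 4 ?_⟩
  exact (g1 a).symm.trans (hab.trans (g1 b))

end Pool.Agent.Lib.Old.M356f68NearLargeOrder
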