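import Mathlib
import Pool.Agent.Lib.MP_356f68_co.Solv

set_option autoImplicit false

namespace Pool.Agent.Lib.Old.M356f68SolvableSymmetry

open Pool.Agent.Lib.MP_356f68_co

theorem result (d n : ℕ) (hd : 1 ≤ d) (L : (Fin d → Fin n) → Fin n)
    (hL : ∀ x : Fin d → Fin n, ∀ j : Fin d,
      Function.Bijective (fun a : Fin n => L (Function.update x j a)))
    (G : Type) [Group G] [Finite G] [Group.IsSolvable G] (hG : (Nat.card G).Coprime n)
    (ρ : G →* Equiv.Perm (Fin d)) (φ : G →* Equiv.Perm (Fin d → Fin n))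
    (hc : ∀ g j x y, x j = y j → φ g x (ρ g j) = φ g y (ρ g j))
    (hinv : ∀ g x, L (φ g x) = L x) (htr : ∀ j k, ∃ g, ρ g j = k) :
    ∃ T : Fin n → (Fin d → Fin n),
      (∀ j : Fin d, Function.Injective (fun i : Fin n => T i j)) ∧
      Function.Injective (fun i : Fin n => L (T i)) ∧ ∀ g i, φ g (T i) = T i := by
  rcases Nat.eq_zero_or_pos n with rfl | hn
  · exact ⟨fun i => i.elim0, fun _ i => i.elim0, fun i => i.elim0, fun _ i => i.elim0⟩
  have : Nonempty (Fin n) := ⟨⟨0, hn⟩⟩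
  obtain ⟨⟨x, hx⟩, h⟩ := claim rfl L hL _ G rfl (by simpa using hG) ρ φ hc hinv
  choose T h1 _ h3 using h x hx ⟨0, hd⟩
  refine ⟨T, fun j s s' hs => ?_, fun s s' hs => ?_, fun g i => h1 i g⟩
  · have : T s = T s' := funext fun k => fx_ext hc (h1 s) (h1 s') hs (htr j k)
    rw [← h3 s, this, h3]
  · simpa only [h3] using hs

end Pool.Agent.Lib.Old.M356f68SolvableSymmetry
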