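import Mathlib
import Pool.Agent.Lib.MP_356f68_co.Win.Main

/-! A Latin square of large order `n` whose move operator has no eigenvalue strictly between
`1 - n ^ (-1/400)` and `1` has a transversal exactly if `n` is odd or no abelian quotient
forbids it. -/

set_option autoImplicit false

namespace Pool.Agent.Lib.Old.M356f68SpectralWindow

open Pool.Agent.Lib.MP_356f68_co.Win Pool.Agent.Lib.MP_356f68_co.Cube

theorem result : ∃ n0 : ℕ, ∀ n : ℕ, n0 ≤ n → ∀ L : Fin n → Fin n → Fin n,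
    (∀ r : Fin n, Function.Bijective (fun c : Fin n => L r c)) →
    (∀ c : Fin n, Function.Bijective (fun r : Fin n => L r c)) →
    (∀ (f : Fin n → Fin n → ℝ) (μ : ℝ), f ≠ 0 →
      (∀ r c : Fin n, ∑ x : Fin n, ∑ y : Fin n, ∑ r' : Fin n, ∑ c' : Fin n,
        (if L r' y = L x c ∧ L x c' = L r y then f r' c' else 0) = μ * (n : ℝ) ^ 2 * f r c) →
      μ = 1 ∨ μ ≤ 1 - (n : ℝ) ^ (-(1 / 400 : ℝ))) →
    ((∃ π : Equiv.Perm (Fin n), Function.Injective (fun r : Fin n => L r (π r))) ↔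
      (Odd n ∨ ∀ (A : Type) [AddCommGroup A] (φ ψ σ : Fin n → A),
        (∀ r c : Fin n, φ r + ψ c = σ (L r c)) → ∑ r, φ r + ∑ c, ψ c = ∑ s, σ s)) := by
  obtain ⟨C, h⟩ := window
  obtain ⟨p, hp⟩ : ∃ p : ℕ, p = 396 := ⟨_, rfl⟩
  obtain ⟨q, hq⟩ : ∃ q : ℕ, q = 1001 := ⟨_, rfl⟩
  rw [← hp, ← hq] at h
  obtain ⟨n0, h0⟩ := polylog ((C * 2 ^ p) ^ 100) (q * 100)
  refine ⟨max n0 1, fun n hn L h1 h2 hW => ⟨fun ⟨π, hπ⟩ => Or.inr fun A _ => trans_sum hπ,
    fun hS => pm_trans ?_⟩⟩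
  have hL : Lq L := ⟨h1, h2⟩
  have hn1 : (1 : ℝ) ≤ n := by exact_mod_cast le_of_max_le_right hn
  set r : ℝ := (n : ℝ) ^ (1 / 400 : ℝ) with hr
  have r1 : 1 ≤ r := Real.one_le_rpow hn1 (by norm_num)
  have r2 : (r ^ 4) ^ 100 = n := by
    rw [hr, ← pow_mul, ← Real.rpow_natCast, ← Real.rpow_mul (by linarith)]
    norm_num
  have r3 : r ≤ ⌈r⌉₊ := Nat.le_ceil r
  have r4 : (⌈r⌉₊ : ℝ) ≤ 2 * r := by linarith [Nat.ceil_lt_add_one (show 0 ≤ r by linarith)]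
  refine h (Fin n) ⌈r⌉₊ (by exact_mod_cast r1.trans r3) ?_ L hL (fun f μ f0 f1 => ?_)
    (hS.elim (fun ho A _ => odd_sum hL (by rwa [Fintype.card_fin])) id)
  · rw [Fintype.card_fin]
    have g1 := h0 n (le_of_max_le_left hn)
    rw [pow_mul, ← mul_pow] at g1
    have g2 : ((C * 2 ^ p * (Nat.log 2 n + 1) ^ q : ℕ) : ℝ) ≤ r ^ 4 := by
      refine le_of_pow_le_pow_left₀ (n := 100) (by norm_num) (by positivity) ?_
      rw [r2]
      exact_mod_cast g1
    have g3 : r ^ 4 * r ^ p = n := by rw [← r2, ← pow_add, ← pow_mul, hp]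
    have g4 : ((C * (Nat.log 2 n + 1) ^ q * ⌈r⌉₊ ^ p : ℕ) : ℝ) ≤ n := by
      calc _ ≤ (C * (Nat.log 2 n + 1) ^ q * (2 * r) ^ p : ℝ) := by push_cast; gcongr
        _ = ((C * 2 ^ p * (Nat.log 2 n + 1) ^ q : ℕ) : ℝ) * r ^ p := by push_cast; ring
        _ ≤ _ := g3 ▸ mul_le_mul_of_nonneg_right g2 (by positivity)
    exact_mod_cast g4
  · refine (hW (fun a b => f (a, b)) μ (fun e => f0 (funext fun u => congrFun₂ e u.1 u.2))
      fun a b => ?_).imp_right fun g => g.trans ?_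
    · have := f1 (a, b)
      simp only [Fintype.sum_prod_type, Fintype.card_fin] at this
      exact this
    · rw [Real.rpow_neg (by linarith), ← hr, one_div]
      exact sub_le_sub_left (inv_anti₀ (by linarith) r3) 1

end Pool.Agent.Lib.Old.M356f68SpectralWindow
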