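import Pool.Agent.Lib.MP_4b554f_an.All.Final

set_option autoImplicit false

namespace Pool.Agent.Lib.Old.M4b554fNeverStabilises

/-- `X` is a shift of finite type on `ℤ^d`: it is the set of configurations in which no translate
of a pattern from a finite set of forbidden finite patterns occurs. -/
def IsSFT {d : ℕ} {A : Type} (X : Set ((Fin d → ℤ) → A)) : Prop :=
  ∃ Fb : Set (Σ D : Finset (Fin d → ℤ), (D → A)), Fb.Finite ∧
    X = {x | ∀ q ∈ Fb, ∀ v : Fin d → ℤ, ¬ ∀ u : q.1, x (v + u) = q.2 u}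

/-- The trace of `X`: restrictions of its configurations to the first coordinate axis. -/
def trace {d : ℕ} {A : Type} (X : Set ((Fin d → ℤ) → A)) : Set (ℤ → A) :=
  {y | ∃ x ∈ X, ∀ i : ℤ, y i = x (fun j : Fin d => if j.val = 0 then i else 0)}

theorem isSFT_iff {d : ℕ} {A : Type} [Finite A] (X : Set ((Fin d → ℤ) → A)) :
    IsSFT X ↔ ∃ (F : Finset (Fin d → ℤ)) (P : Set ((Fin d → ℤ) → A)),
      X = {x | ∀ v, ∃ p ∈ P, ∀ u ∈ F, x (v + u) = p u} := by
  classical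
  constructor
  · rintro ⟨Fb, h1, rfl⟩
    refine ⟨h1.toFinset.biUnion (fun q => q.1), {p | ∀ q ∈ Fb, ¬ ∀ u : q.1, p u = q.2 u}, ?_⟩
    ext x
    constructor
    · intro hx v
      exact ⟨fun u => x (v + u), fun q hq => hx q hq v, fun _ _ => rfl⟩
    · intro hx q hq v h2
      obtain ⟨p, h3, h4⟩ := hx v
      refine h3 q hq (fun u => ?_)
      rw [← h2 u, h4 u (Finset.mem_biUnion.2 ⟨q, h1.mem_toFinset.2 hq, u.2⟩)]
  · rintro ⟨F, P, rfl⟩
    refine ⟨(fun r : F → A => (⟨F, r⟩ : Σ D : Finset (Fin d → ℤ), (D → A))) ''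
      {r | ¬ ∃ p ∈ P, ∀ u : F, r u = p u}, (Set.toFinite _).image _, ?_⟩
    ext x
    constructor
    · rintro hx _ ⟨r, h1, rfl⟩ v h2
      obtain ⟨p, h3, h4⟩ := hx v
      exact h1 ⟨p, h3, fun u => by rw [← h4 u u.2]; exact (h2 u).symm⟩
    · intro hx v
      by_contra h1
      refine hx ⟨F, fun u => x (v + u)⟩ ⟨_, ?_, rfl⟩ v (fun _ => rfl)
      rintro ⟨p, h2, h3⟩
      exact h1 ⟨p, h2, fun u hu => h3 ⟨u, hu⟩⟩

theorem trace_up {d D : ℕ} {A : Type} [Finite A] (hd : 1 ≤ d) (hD : d ≤ D)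
    {X : Set ((Fin d → ℤ) → A)} (hX : IsSFT X) :
    ∃ X' : Set ((Fin D → ℤ) → A), IsSFT X' ∧ trace X = trace X' := by
  classical
  obtain ⟨F, P, rfl⟩ := (isSFT_iff X).1 hX
  let up : (Fin d → ℤ) → (Fin D → ℤ) := fun v j => if h : j.val < d then v ⟨j.val, h⟩ else 0
  let dn : (Fin D → ℤ) → (Fin d → ℤ) := fun w j => w (Fin.castLE hD j)
  have h1 : ∀ v u, up (v + u) = up v + up u := by
    intro v u
    funext j
    simp only [up, Pi.add_apply]
    split_ifs <;> simp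
  have h2 : ∀ w u, dn (w + up u) = dn w + u := by
    intro w u
    funext j
    simp [dn, up]
  refine ⟨_, (isSFT_iff _).2 ⟨F.image up, {q | ∃ p ∈ P, ∀ u ∈ F, q (up u) = p u}, rfl⟩, ?_⟩
  ext y
  constructor
  · rintro ⟨x, h3, h4⟩
    refine ⟨fun w => x (dn w), fun w => ?_, fun i => h4 i⟩
    obtain ⟨p, h5, h6⟩ := h3 (dn w)
    exact ⟨fun u => x (dn (w + u)), ⟨p, h5, fun u hu => by simp only [h2, h6 u hu]⟩,
      fun _ _ => rfl⟩
  · rintro ⟨x, h3, h4⟩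
    refine ⟨fun v => x (up v), fun v => ?_, fun i => ?_⟩
    · obtain ⟨q, ⟨p, h5, h6⟩, h7⟩ := h3 (up v)
      exact ⟨p, h5, fun u hu => by
        simp only [← h6 u hu, ← h7 _ (Finset.mem_image_of_mem _ hu), h1]⟩
    · rw [h4]
      congr 1
      funext j
      simp only [up]
      split_ifs <;> first | rfl | omega

/-- For `d ≥ 2` and `D ≥ d + 4` some one-dimensional subshift is the trace of a `ℤ^D` shift of
finite type but, even after an injective relabelling into a larger finite alphabet, of no `ℤ^d`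
shift of finite type. -/
theorem result (d D : ℕ) (hd : 2 ≤ d) (hD : d + 4 ≤ D) : ∃ (n : ℕ) (Y : Set (ℤ → Fin n)),
    (∃ X : Set ((Fin D → ℤ) → Fin n), IsSFT X ∧ Y = trace X) ∧
    ∀ (m : ℕ) (e : Fin n → Fin m), Function.Injective e →
      ¬ ∃ X : Set ((Fin d → ℤ) → Fin m), IsSFT X ∧ (fun y => e ∘ y) '' Y = trace X := by
  obtain ⟨k, rfl⟩ : ∃ k, d = k + 2 := ⟨d - 2, by omega⟩
  obtain ⟨n, Y, ⟨F, P, h1⟩, h2⟩ := @Pool.Agent.Lib.MP_4b554f_an.All.exists_sep ⟨k⟩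
  obtain ⟨X0, h5, h6⟩ := trace_up (d := k + 3 + 3) (D := D) (by omega) (by omega)
    ((isSFT_iff _).2 ⟨F, P, rfl⟩)
  refine ⟨n, Y, ⟨X0, h5, h1.trans h6⟩, ?_⟩
  rintro m e he ⟨X, h3, h4⟩
  obtain ⟨F', P', rfl⟩ := (isSFT_iff X).1 h3
  refine h2 ⟨F', {p | ∃ p' ∈ P', ∀ u ∈ F', e (p u) = p' u}, ?_⟩
  ext y
  constructor
  · intro hy
    obtain ⟨x, h5, h6⟩ : e ∘ y ∈ trace _ := h4 ▸ Set.mem_image_of_mem _ hy
    have h7 : ∀ w, ∃ a, e a = x w := by
      intro w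
      have h8 : (fun i : ℤ => x ((fun j : Fin (k + 2) => if j.val = 0 then i else 0) + w)) ∈
          (fun y => e ∘ y) '' Y := by
        rw [h4]
        refine ⟨fun v => x (v + w), fun v => ?_, fun _ => rfl⟩
        obtain ⟨p, h9, h10⟩ := h5 (v + w)
        exact ⟨p, h9, fun u hu => by rw [← h10 u hu, add_right_comm]⟩
      obtain ⟨y', _, h9⟩ := h8
      refine ⟨y' 0, (congrFun h9 0).trans ?_⟩
      congr 1
      funext j
      simp
    choose x' hx' using h7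
    refine ⟨x', fun v => ?_, fun i => he ?_⟩
    · obtain ⟨p, h9, h10⟩ := h5 v
      exact ⟨fun u => x' (v + u), ⟨p, h9, fun u hu => by rw [hx', h10 u hu]⟩, fun _ _ => rfl⟩
    · rw [hx']; exact h6 i
  · rintro ⟨x, h5, h6⟩
    have h8 : e ∘ y ∈ (fun y => e ∘ y) '' Y := by
      rw [h4]
      refine ⟨e ∘ x, fun v => ?_, fun i => by simp [h6]⟩
      obtain ⟨p, ⟨p', h9, h10⟩, h11⟩ := h5 v
      exact ⟨p', h9, fun u hu => by rw [← h10 u hu, ← h11 u hu]; rfl⟩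
    obtain ⟨y', h9, h10⟩ := h8
    rwa [← he.comp_left h10]

end Pool.Agent.Lib.Old.M4b554fNeverStabilises
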