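import Mathlib
import Pool.Agent.Lib.MP_51cccb_an.Example

set_option autoImplicit false

namespace Pool.Agent.Lib.Old.M51cccbSqrtLog

open Pool.Agent.Lib.MP_51cccb_an

theorem result :
    ∃ (f : ℂ → ℂ) (γ : ℕ → ℂ) (c : ℝ), 0 < c ∧
      AnalyticOnNhd ℂ f (Metric.ball (0 : ℂ) 1) ∧
      Set.InjOn f (Metric.ball (0 : ℂ) 1) ∧
      f 0 = 0 ∧
      deriv f 0 = 1 ∧
      (∀ z : ℂ, ‖z‖ < 1 →
        ∃ s : ℂ, HasSum (fun k : ℕ => γ (k + 1) * z ^ (k + 1)) s ∧
          f z = z * Complex.exp (2 * s)) ∧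
      (∀ r : ℝ, 0 ≤ r → r < 1 →
        Summable (fun k : ℕ => ((k : ℝ) + 1) * ‖γ (k + 1)‖ * r ^ (k + 1))) ∧
      ∃ᶠ r : ℝ in nhdsWithin (1 : ℝ) (Set.Iio 1),
        c * Real.sqrt (Real.log (1 / (1 - r))) / (1 - r) ≤
          ∑' k : ℕ, ((k : ℝ) + 1) * ‖γ (k + 1)‖ * r ^ (k + 1) := by
  refine ⟨fun z => z * Complex.exp (ex.g z), coef ex.g, 1 / (40960 * Real.exp 2), by positivity,
    ?_, ex.injOn, by simp, ?_, ?_, ?_, ?_⟩
  · exact (differentiableOn_id.mul ex.differentiableOn_g.cexp).analyticOnNhd Metric.isOpen_ball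
  · have h1 := (hasDerivAt_id (0 : ℂ)).mul (ex.hasDerivAt_g (z := 0) (by simp)).cexp
    have h2 := h1.deriv
    simp only [Disc.g_zero, Complex.exp_zero, id_eq, zero_mul, mul_one, add_zero] at h2
    exact h2
  · intro z hz
    refine ⟨_, hasSum_coef ex.differentiableOn_g ex.g_zero hz, ?_⟩
    congr 2
    ring
  · intro r hr0 hr1
    have h3 := (hasSum_coef_deriv ex.differentiableOn_g (z := (r : ℂ))
      (by rw [Complex.norm_real, Real.norm_of_nonneg hr0]; exact hr1)).summable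
    refine (summable_norm_iff.mpr h3).congr fun k => ?_
    rw [norm_mul, norm_mul, norm_pow, Complex.norm_real, Real.norm_of_nonneg hr0]
    congr 2
    exact_mod_cast Complex.norm_natCast (k + 1)
  · refine tendsto_r.frequently (Filter.Eventually.frequently ?_)
    have h2 : Filter.Tendsto (fun b : ℕ => (2 : ℝ) ^ b) Filter.atTop Filter.atTop :=
      tendsto_pow_atTop_atTop_of_one_lt (by norm_num)
    filter_upwards [h2.eventually_ge_atTop 8192] with b hb
    have h3 := main_bound b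
    have h4 := sg_pos b
    have he := Real.exp_pos 2
    have h5 : Real.sqrt (Real.log (1 / sg b)) ≤ 10 * 2 ^ b := by
      refine Real.sqrt_le_iff.mpr ⟨by positivity, ?_⟩
      have h6 : 1 / sg b = 2 ^ (96 * 4 ^ b) := by
        rw [div_eq_iff h4.ne', sg, two_pow_mul_hp]
      have h7 : Real.log 2 ≤ 1 := by
        have := Real.log_two_lt_d9
        linarith
      have h8 : ((2 : ℝ) ^ b) ^ 2 = 4 ^ b := by
        rw [← pow_mul, mul_comm, pow_mul]
        norm_num
      rw [h6, Real.log_pow, mul_pow, h8]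
      push_cast
      have h9 : (0 : ℝ) < 4 ^ b := by positivity
      nlinarith
    rw [sub_sub_cancel]
    refine le_of_mul_le_mul_left (le_trans ?_ h3) he
    rw [← mul_div_assoc]
    refine div_le_div_of_nonneg_right ?_ h4.le
    have h6 : Real.exp 2 * (1 / (40960 * Real.exp 2) * Real.sqrt (Real.log (1 / sg b))) =
        Real.sqrt (Real.log (1 / sg b)) / 40960 := by
      field_simp
    rw [h6]
    linarith

end Pool.Agent.Lib.Old.M51cccbSqrtLog
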