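import Pool.Agent.Lib.MP_65c801_co.T.All

/-! Cutting pseudo-circles: `n` Jordan curves in the plane, every two of which meet at most twice
and cross at each common point, can be cut by `O(n^{10/7} (log n)^{131})` points into arcs every
two of which meet at most once. -/

namespace Pool.Agent.Lib.Old.M65c801TenSevenths

theorem result : ∃ C : ℝ, ∀ (n : ℕ) (γ : Fin n → Circle → ℂ), (∀ i, Continuous (γ i)) →
    (∀ i, Function.Injective (γ i)) →
    (∀ i j, i ≠ j → (Set.range (γ i) ∩ Set.range (γ j)).encard ≤ 2) →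
    (∀ i j, i ≠ j → ∀ p ∈ Set.range (γ i) ∩ Set.range (γ j), ∀ U ∈ nhds p,
      ∃ a ∈ U ∩ (Set.range (γ j) \ Set.range (γ i)), ∃ b ∈ U ∩ (Set.range (γ j) \ Set.range (γ i)),
        b ∉ connectedComponentIn (Set.range (γ i))ᶜ a) →
    ∃ X : Finset ℂ, (X.card : ℝ) ≤ C * (n : ℝ) ^ ((10 : ℝ) / 7) * (1 + Real.log n) ^ 131 ∧
      (∀ x ∈ X, ∃ i, x ∈ Set.range (γ i)) ∧ (∀ i, ∃ x ∈ X, x ∈ Set.range (γ i)) ∧
      ∀ i j p q, (i ≠ j ∨ connectedComponentIn (Set.range (γ i) \ ↑X) p ≠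
          connectedComponentIn (Set.range (γ j) \ ↑X) q) →
        (connectedComponentIn (Set.range (γ i) \ ↑X) p ∩
          connectedComponentIn (Set.range (γ j) \ ↑X) q).Subsingleton :=
  Pool.Agent.Lib.MP_65c801_co.T.geo Pool.Agent.Lib.MP_65c801_co.T.famAll

end Pool.Agent.Lib.Old.M65c801TenSevenths
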