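import Pool.Agent.Lib.MP_68c55c_lc.Second

set_option autoImplicit false

namespace Pool.Agent.Lib.Old.M68c55cOneLargePrime

/-- For every `y`, only finitely many alphabet sizes with at most one prime factor above `y` admit
a perfect 2-error-correcting code with at least two codewords. -/
theorem result (y : ℕ) :
    {q : ℕ | (q.primeFactors.filter (fun p => y < p)).card ≤ 1 ∧
      ∃ (n : ℕ) (C : Finset (Fin n → Fin q)), 2 ≤ C.card ∧
        ∀ x : Fin n → Fin q, ∃! c : Fin n → Fin q, c ∈ C ∧ hammingDist x c ≤ 2}.Finite := by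
  refine (Pool.Agent.Lib.MP_68c55c_lc.finite_second y).subset ?_
  rintro q ⟨h1, n, C, h2, h3⟩
  exact ⟨Pool.Agent.Lib.MP_68c55c_lc.exists_adm C h3 h2, h1⟩

end Pool.Agent.Lib.Old.M68c55cOneLargePrime
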