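import Pool.Agent.Results.MP_68c55c_lc.SphereSize

/-!
The former hand-in `PowerSize` (helper10), derived from `SphereSize`.
-/

set_option autoImplicit false

namespace Pool.Agent.Lib.Old.M68c55cPowerSize

open Pool.Agent.Lib.MP_68c55c_lc

/-- Over an alphabet whose size `q` is not a prime power, a perfect 2-error-correcting code whose
size and `q` are multiplicatively dependent has at most one codeword. -/
theorem powerSize (q n a b : ℕ) (h6 : 6 ≤ q) (hq : ¬ IsPrimePow q) (ha : 1 ≤ a)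
    (C : Finset (Fin n → Fin q))
    (hC : ∀ x : Fin n → Fin q, ∃! c : Fin n → Fin q, c ∈ C ∧ hammingDist x c ≤ 2)
    (hab : C.card ^ a = q ^ b) : C.card ≤ 1 := by
  by_contra hcard
  have h2 : 2 ≤ C.card := by omega
  have q0 : 0 < q := by omega
  obtain ⟨V, hV, hbig⟩ : ∃ V, V * C.card = q ^ n ∧ q ^ 3 < V := by
    obtain ⟨s, x, hs, hx, e1, e2, e3, e4, e5⟩ := params_rad C hC (by omega) h2
    obtain ⟨w, hw⟩ := Int.even_mul_pred_self (n : ℤ)
    have hL : LL q n 0 = 2 * (1 + n * (q - 1) + w * (q - 1) ^ 2) := by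
      unfold LL; linear_combination ((q : ℤ) - 1) ^ 2 * hw
    have hM := (lloyd C hC (by omega) (by have := three_le C hC h2; omega) _ hL).1
    have e1' : 4 * (x : ℤ) + 2 * s + q = q * s ^ 2 + 6 := by exact_mod_cast e1
    have f1 : 2 * ((q : ℤ) * (2 * x + s)) = 2 * (2 * n * (q - 1) + 4 - q) := by
      linear_combination (q : ℤ) * e1' - e2
    have f2 : 16 * LL q n 0 = 16 * (q ^ 2 * (x * (x + s))) := by
      unfold LL
      linear_combination - 4 * e2 -
        2 * ((q : ℤ) * (2 * x + s) + (2 * n * (q - 1) + 4 - q)) * f1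
    have f3 : (q : ℤ) ^ 2 * (x * (x + s)) = 2 * (1 + n * (q - 1) + w * (q - 1) ^ 2) := by linarith
    have e6 : C.card * (q ^ 2 * (x * (x + s))) = 2 * q ^ n := by
      zify
      rw [f3, ← hM]; ring
    obtain ⟨V, hV⟩ : 2 ∣ q ^ 2 * (x * (x + s)) := by
      have : (2 : ℤ) ∣ (q : ℤ) ^ 2 * (x * (x + s)) := ⟨_, f3⟩
      exact_mod_cast this
    refine ⟨V, Nat.eq_of_mul_eq_mul_left two_pos (by rw [← e6, hV]; ring), ?_⟩
    obtain ⟨d, rfl⟩ : ∃ d, q = d + 6 := ⟨q - 6, by omega⟩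
    have hx4 : 3 * d + 20 ≤ 4 * x := by nlinarith [Nat.mul_le_mul hs hs]
    have h7 : 2 * (d + 6) < x * (x + s) := by nlinarith
    have := Nat.mul_lt_mul_of_pos_left h7 (show 0 < (d + 6) ^ 2 by positivity)
    nlinarith
  obtain ⟨J, hJ, hJa⟩ : ∃ J, V ^ a = q ^ J ∧ 3 * a < J := by
    have h1 : V ^ a * q ^ b = q ^ (n * a) := by rw [← hab, ← mul_pow, hV, pow_mul]
    have h3 : q ^ (3 * a) < V ^ a := by rw [pow_mul]; exact Nat.pow_lt_pow_left hbig (by omega)
    have h4 : 3 * a + b < n * a := by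
      refine (Nat.pow_lt_pow_iff_right (show 1 < q by omega)).1 ?_
      rw [← h1, pow_add]; exact Nat.mul_lt_mul_of_pos_right h3 (by positivity)
    refine ⟨n * a - b, Nat.eq_of_mul_eq_mul_right (show 0 < q ^ b by positivity) ?_, by omega⟩
    rw [h1, ← pow_add]; congr 1; omega
  have h3 : q ^ 3 ∣ V := by
    refine (Nat.pow_dvd_pow_iff (show a ≠ 0 by omega)).1 ?_
    rw [hJ, ← pow_mul]; exact pow_dvd_pow q hJa.le
  rcases Pool.Agent.Results.MP_68c55c_lc.SphereSize.result q n V h6 hq C hC h2 hV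
    (fun p _ _ hd _ => ((Nat.mul_dvd_mul_right hd _).trans (by rwa [← pow_succ'])).mul_left 2) with
    ⟨h1, h4⟩ | ⟨k, m, k1, k2, k3⟩
  · have : 2 ^ 3 ∣ V := (pow_dvd_pow_of_dvd (show 2 ∣ q by omega) 3).trans h3
    omega
  have p3 := Nat.prime_three
  have : Fact (Nat.Prime 3) := ⟨p3⟩
  have q3 : 3 ∣ q := by
    have h5 : 3 ∣ q * (q - 6) := dvd_of_one_le_padicValNat (k2 ▸ k1)
    rcases p3.dvd_mul.1 h5 with h | h <;> omega
  obtain ⟨e, q', n2, hq'⟩ := Nat.exists_eq_pow_mul_and_not_dvd (n := q) (by omega) 3 (by omega)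
  have h5 : 3 ^ (2 * k * a) * (3 * m + 2) ^ a = 3 ^ (e * J) * q' ^ J := by
    rw [pow_mul 3 e, ← mul_pow, ← hq', ← hJ, k3, mul_pow, pow_mul, pow_mul]; norm_num
  obtain ⟨h7, h8⟩ := Sys.uniq p3 (fun h => by have := p3.dvd_of_dvd_pow h; omega)
    (fun h => n2 (p3.dvd_of_dvd_pow h)) h5
  rcases e with _ | _ | e
  · simp at hq'; exact n2 (hq' ▸ q3)
  · have h9 : J = k * 2 * a := by linarith
    rw [h9, pow_mul] at h8
    have h10 := Nat.pow_left_injective (show a ≠ 0 by omega) h8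
    have := Sys.sq3 (u := q' ^ k) fun h => n2 (p3.dvd_of_dvd_pow h)
    simp only [pow_mul] at h10
    omega
  · obtain ⟨u, hu⟩ : 3 ∣ q - 6 := by omega
    have h9 : 9 ∣ q := ⟨3 ^ e * q', by rw [hq']; ring⟩
    have n5 : ¬ 3 ∣ q' * u := fun h => (p3.dvd_mul.1 h).elim n2 fun h => by omega
    have hk : k = e + 3 := by
      have h1 : q * (q - 6) = 3 ^ (e + 3) * (q' * u) := by
        rw [hu]; conv_lhs => rw [hq']
        ring
      have h2 : q' * u ≠ 0 := fun h => n5 (h ▸ dvd_zero 3)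
      rw [k2, h1, padicValNat.mul (by positivity) h2, padicValNat.prime_pow,
        padicValNat.eq_zero_of_not_dvd n5, add_zero]
    subst hk
    nlinarith

end Pool.Agent.Lib.Old.M68c55cPowerSize
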