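import Pool.Agent.Lib.MP_73239e_mp.Count

set_option autoImplicit false

namespace Pool.Agent.Lib.Old.M73239eNoLipschitz

open Pool.Agent.Lib.MP_73239e_mp

/-- The formal action of the Schroedinger operator with potential `V` on sequences. -/
def act (V : ℤ → ℝ) (f : ℤ → ℂ) : ℤ → ℂ :=
  fun n => f (n + 1) + f (n - 1) + ((V n : ℝ) : ℂ) * f n

/-- On a complex normed space `X` whose elements are read as sequences through `ev`, the set `S`
is the real spectrum of a bounded operator acting on sequences as `act V`. -/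
def IsSpecIn (X : Type) [NormedAddCommGroup X] [NormedSpace ℂ X] (ev : X → ℤ → ℂ)
    (V : ℤ → ℝ) (S : Set ℝ) : Prop :=
  ∃ H : X →L[ℂ] X, (∀ ψ : X, ev (H ψ) = act V (ev ψ)) ∧ S = {E : ℝ | (E : ℂ) ∈ spectrum ℂ H}

/-- No map that is Lipschitz on `B` sends `B` onto `A`. -/
def NoLipschitzOnto (B A : Set ℝ) : Prop :=
  ¬ ∃ (g : ℝ → ℝ) (K : NNReal), LipschitzOnWith K g B ∧ g '' B = A

/-- `S` is the spectrum of the Schroedinger operator with potential `V`. -/
def IsSpecOf (V : ℤ → ℝ) (S : Set ℝ) : Prop :=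
  IsSpecIn (lp (fun _ : ℤ => ℂ) 2) (fun ψ n => ψ n) V S

/-- For every coupling there is an irrational frequency such that no Lipschitz map sends the
Sturmian spectrum at the Gauss image of the frequency onto the spectrum at the frequency. -/
theorem result :
    ∀ lam : ℝ, 0 < lam → ∃ α : ℝ, Irrational α ∧ 0 < α ∧ α < 1 ∧
      ∃ A B : Set ℝ, IsSpecOf (pot lam α) A ∧ IsSpecOf (pot lam (Int.fract α⁻¹)) B ∧
        NoLipschitzOnto B A := by
  intro lam hlam
  obtain ⟨β, hirr, b0, b1, hgood⟩ := exists_good hlam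
  have hfr : Int.fract ((5 + β)⁻¹)⁻¹ = β := by
    rw [inv_inv, show (5 : ℝ) = ((5 : ℤ) : ℝ) by norm_num, Int.fract_intCast_add,
      Int.fract_eq_self.mpr ⟨b0.le, b1⟩]
  have hirr' : Irrational (5 + β)⁻¹ := by
    have := (hirr.natCast_add 5).inv
    simpa using this
  obtain ⟨H₁, hH₁⟩ := exists_isSchr _ lam (abs_pot_le hlam.le (5 + β)⁻¹)
  obtain ⟨H₂, hH₂⟩ := exists_isSchr _ lam (abs_pot_le hlam.le β)
  refine ⟨(5 + β)⁻¹, hirr', by positivity, inv_lt_one_of_one_lt₀ (by linarith), Spec H₁, Spec H₂,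
    ⟨H₁, fun ψ => funext (hH₁ ψ), rfl⟩,
    by rw [hfr]; exact ⟨H₂, fun ψ => funext (hH₂ ψ), rfl⟩, ?_⟩
  rintro ⟨g, K, hK, hg⟩
  obtain ⟨L, hL⟩ := exists_nat_ge (K : ℝ)
  obtain ⟨ε, -, k, hs1, hs2⟩ := hgood L H₁ H₂ hH₁ hH₂
  apply hs2
  refine Sep.of_lipschitz (g := g) (Nat.cast_nonneg L) ?_ ?_ ?_ hs1
  · intro b hb b' hb'
    have := hK.dist_le_mul b hb b' hb'
    rw [Real.dist_eq, Real.dist_eq] at this
    exact le_trans this (by gcongr)
  · intro b hb
    rw [← hg]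
    exact ⟨b, hb, rfl⟩
  · intro a ha
    rw [← hg] at ha
    exact ha

end Pool.Agent.Lib.Old.M73239eNoLipschitz
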