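import Pool.Agent.Lib.MP_87c84d_gt.Final

/-!
Two non-congruent convex bodies of revolution in 3-space, as close to the unit ball as we like,
with the same maximal section area and the same projection area in every direction.
-/

namespace Pool.Agent.Lib.Old.M87c84dRevolution

open Pool.Agent.Lib.MP_87c84d_gt

theorem result (δ : ℝ) (hδ : 0 < δ) :
    ∃ K₁ K₂ : Set (EuclideanSpace ℝ (Fin 3)),
      IsCompact K₁ ∧ Convex ℝ K₁ ∧ (interior K₁).Nonempty ∧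
      IsCompact K₂ ∧ Convex ℝ K₂ ∧ (interior K₂).Nonempty ∧
      (∀ x y : EuclideanSpace ℝ (Fin 3), x 0 ^ 2 + x 1 ^ 2 = y 0 ^ 2 + y 1 ^ 2 → x 2 = y 2 →
        (x ∈ K₁ ↔ y ∈ K₁) ∧ (x ∈ K₂ ↔ y ∈ K₂)) ∧
      (∀ x : EuclideanSpace ℝ (Fin 3), ‖x‖ ≤ 1 - δ → x ∈ K₁ ∧ x ∈ K₂) ∧
      (∀ x : EuclideanSpace ℝ (Fin 3), x ∈ K₁ ∨ x ∈ K₂ → ‖x‖ ≤ 1 + δ) ∧
      (∀ e : EuclideanSpace ℝ (Fin 3), ‖e‖ = 1 →
        ((⨆ t : ℝ, MeasureTheory.Measure.hausdorffMeasure (2 : ℝ)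
              (K₁ ∩ {x : EuclideanSpace ℝ (Fin 3) | inner ℝ x e = t})) =
          (⨆ t : ℝ, MeasureTheory.Measure.hausdorffMeasure (2 : ℝ)
              (K₂ ∩ {x : EuclideanSpace ℝ (Fin 3) | inner ℝ x e = t}))) ∧
        MeasureTheory.Measure.hausdorffMeasure (2 : ℝ)
            ((fun x : EuclideanSpace ℝ (Fin 3) => x - (inner ℝ x e) • e) '' K₁) =
          MeasureTheory.Measure.hausdorffMeasure (2 : ℝ)
            ((fun x : EuclideanSpace ℝ (Fin 3) => x - (inner ℝ x e) • e) '' K₂)) ∧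
      ∀ f : EuclideanSpace ℝ (Fin 3) ≃ᵢ EuclideanSpace ℝ (Fin 3), f '' K₂ ≠ K₁ := by
  obtain ⟨κ, P₁, P₂, hκ, h1, h2, h3, h4, h5, h6, h7, h8, h9, h10⟩ :=
    exists_pair (lt_min hδ one_pos)
  have a1 := hκ.trans (min_le_left _ _)
  have a2 := hκ.trans (min_le_right _ _)
  refine ⟨body P₁, body P₂, h3, h4, h5, h6, h7, h8, fun x y hxy hz => ?_, fun x hx => h1 x ?_,
    fun x hx => ?_, h9, h10⟩
  · simp only [body, Set.mem_ofPred_eq, hxy, hz, and_self]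
  · nlinarith [norm_nonneg x]
  · have := h2 x hx
    nlinarith [norm_nonneg x]

end Pool.Agent.Lib.Old.M87c84dRevolution
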