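import Pool.Agent.Lib.MP_397fae_an.Main

/-!
Converse of the extended Ryabykh theorem: if the Bergman space extremal function `F` of a kernel
`k` lies in `H ^ ((p - 1) q₁)`, then `k` lies in `H ^ q₁`, for all `1 < p < ∞`, `1 < q₁ < ∞`.
-/

open Set Real MeasureTheory Filter Topology Metric
open scoped ComplexConjugate

namespace Pool.Agent.Lib.Old.MP_397fae_an_HardyKernel

/-- Area measure on the open unit disc, normalised to total mass one. -/
noncomputable def sigma : Measure ℂ := ENNReal.ofReal π⁻¹ • volume.restrict (ball (0:ℂ) 1)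

/-- The integral mean `M_s(f, r)`. -/
noncomputable def intMean (s : ℝ) (f : ℂ → ℂ) (r : ℝ) : ℝ :=
  ((2 * π)⁻¹ * ∫ θ in (0:ℝ)..2 * π, ‖f (r * Complex.exp (θ * Complex.I))‖ ^ s) ^ (1 / s)

/-- `f` belongs to the Hardy space `H ^ s` of the unit disc. -/
def MemHardy (s : ℝ) (f : ℂ → ℂ) : Prop :=
  DifferentiableOn ℂ f (ball (0:ℂ) 1) ∧ ∃ C : ℝ, ∀ r ∈ Ioo (0:ℝ) 1, intMean s f r ≤ C

/-- `f` belongs to the Bergman space `A ^ p` of the unit disc. -/
def MemBergman (p : ℝ) (f : ℂ → ℂ) : Prop :=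
  DifferentiableOn ℂ f (ball (0:ℂ) 1) ∧ Integrable (fun z => ‖f z‖ ^ p) sigma

/-- The norm of `A ^ p`. -/
noncomputable def bergmanNorm (p : ℝ) (f : ℂ → ℂ) : ℝ := (∫ z, ‖f z‖ ^ p ∂sigma) ^ (1 / p)

/-- The value at `f` of the functional with kernel `k`. -/
noncomputable def functional (k f : ℂ → ℂ) : ℂ := ∫ z, f z * conj (k z) ∂sigma

/-- `F` is an extremal function in `A ^ p` for the kernel `k`. -/
def IsExtremal (p : ℝ) (k F : ℂ → ℂ) : Prop :=
  MemBergman p F ∧ bergmanNorm p F = 1 ∧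
    ∀ g : ℂ → ℂ, MemBergman p g → bergmanNorm p g = 1 → (functional k g).re ≤ (functional k F).re

open Pool.Agent.Lib.MP_397fae_an

lemma isFinite_sigma : IsFiniteMeasure sigma := by
  constructor
  simp only [sigma, Measure.smul_apply, Measure.restrict_apply_univ, smul_eq_mul]
  exact ENNReal.mul_lt_top ENNReal.ofReal_lt_top measure_ball_lt_top

lemma integrable_sigma_iff {E : Type*} [NormedAddCommGroup E] {f : ℂ → E} :
    Integrable f sigma ↔ IntegrableOn f (ball (0:ℂ) 1) :=
  integrable_smul_measure (by simp [pi_pos]) ENNReal.ofReal_ne_top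

lemma integral_sigma (f : ℂ → ℂ) :
    ∫ z, f z ∂sigma = (π⁻¹ : ℝ) * ∫ z in ball (0:ℂ) 1, f z := by
  rw [sigma, integral_smul_measure, ENNReal.toReal_ofReal (by positivity), Complex.real_smul]

lemma aesm_sigma {f : ℂ → ℂ} (hf : ContinuousOn f (ball (0:ℂ) 1)) :
    AEStronglyMeasurable f sigma :=
  (hf.aestronglyMeasurable measurableSet_ball).smul_measure _

lemma ae_sigma : ∀ᵐ z ∂sigma, z ∈ ball (0:ℂ) 1 :=
  Measure.ae_smul_measure (ae_restrict_mem measurableSet_ball) _

lemma intMean_eq (s : ℝ) (f : ℂ → ℂ) (r : ℝ) : intMean s f r =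
    ((2 * π)⁻¹ * ∫ θ in (0:ℝ)..2 * π, ‖f (pt (r, θ))‖ ^ s) ^ (1 / s) := by
  simp only [intMean, pt_eq]

lemma variation {p : ℝ} (hp : 1 < p) {k F : ℂ → ℂ} (hk : MemBergman (p / (p - 1)) k)
    (hF : IsExtremal p k F) {H : ℂ → ℂ} {M : ℝ} (hH : DifferentiableOn ℂ H (ball (0:ℂ) 1))
    (hM : ∀ z ∈ ball (0:ℂ) 1, ‖H z‖ ≤ M) :
    (∫ z, H z * conj (k z) ∂sigma).re = (functional k F).re *
      (∫ z, H z * conj (((‖F z‖ ^ (p - 2) : ℝ) : ℂ) * F z) ∂sigma).re := by
  obtain ⟨⟨hFd, iF⟩, hn, hext⟩ := hF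
  have := isFinite_sigma
  have hp0 : 0 < p := by linarith
  have hp1 : 0 < p - 1 := by linarith
  have mF := aesm_sigma hFd.continuousOn
  have mH := aesm_sigma hH.continuousOn
  have mk := aesm_sigma hk.1.continuousOn
  have mk' : AEStronglyMeasurable (fun z => conj (k z)) sigma :=
    Complex.continuous_conj.comp_aestronglyMeasurable mk
  have hB : ∀ᵐ z ∂sigma, ‖H z‖ ≤ M := ae_sigma.mono hM
  have hq1 : 1 ≤ p / (p - 1) := by rw [one_le_div hp1]; linarith
  have iFk : Integrable (fun z => F z * conj (k z)) sigma := by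
    apply Integrable.mono' (iF.add hk.2) (mF.mul mk')
    filter_upwards with z
    rw [Pi.mul_apply, norm_mul, Complex.norm_conj]
    exact mul_le_rpow_add (norm_nonneg _) (norm_nonneg _) hp rfl
  have ik : Integrable (fun z => conj (k z)) sigma := by
    apply Integrable.mono' (hk.2.add (integrable_const 1)) mk'
    filter_upwards with z
    have := rpow_le_one_add (norm_nonneg (k z)) zero_le_one hq1
    rw [Real.rpow_one] at this
    rwa [Complex.norm_conj]
  have iHk : Integrable (fun z => H z * conj (k z)) sigma := ik.bdd_mul mH hB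
  have hn1 : ∫ z, ‖F z‖ ^ p ∂sigma = 1 := by
    have h0 : 0 ≤ ∫ z, ‖F z‖ ^ p ∂sigma := integral_nonneg fun z => by positivity
    have := congrArg (· ^ p) hn
    simp only [bergmanNorm] at this
    rwa [← Real.rpow_mul h0, one_div_mul_cancel hp0.ne', Real.rpow_one, Real.one_rpow] at this
  have iG : Integrable (fun z => conj (((‖F z‖ ^ (p - 2) : ℝ) : ℂ) * F z)) sigma := by
    apply Integrable.mono' (iF.add (integrable_const 1))
      (Complex.continuous_conj.comp_aestronglyMeasurable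
        ((continuous_duality hp).comp_aestronglyMeasurable mF))
    filter_upwards with z
    rw [Complex.norm_conj, norm_duality hp]
    exact rpow_le_one_add (norm_nonneg _) hp1.le (by linarith)
  have h1 := variation_re hp mF mH iF hB iFk iHk hn1 ?_
  · rw [h1, functional]
    congr 1
    exact integral_re (𝕜 := ℂ) (iG.bdd_mul mH hB)
  · intro τ hτ
    set N := ∫ z, ‖F z + (τ : ℂ) * H z‖ ^ p ∂sigma with hN
    have hc0 : 0 < N ^ (1 / p) := by positivity
    set c : ℝ := (N ^ (1 / p))⁻¹ with hc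
    have hcpos : 0 < c := by positivity
    have e : ∀ z, ‖(c : ℂ) * (F z + (τ : ℂ) * H z)‖ ^ p = c ^ p * ‖F z + (τ : ℂ) * H z‖ ^ p := by
      intro z
      rw [norm_mul, Complex.norm_real, Real.norm_eq_abs, abs_of_pos hcpos,
        Real.mul_rpow hcpos.le (norm_nonneg _)]
    have h2 := hext (fun z => (c : ℂ) * (F z + (τ : ℂ) * H z)) ⟨?_, ?_⟩ ?_
    · simp only [functional, mul_assoc (c : ℂ)] at h2
      rw [integral_const_mul, Complex.re_ofReal_mul, hc, inv_mul_le_iff₀ hc0, mul_comm] at h2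
      exact h2
    · exact (hFd.add (hH.const_mul _)).const_mul _
    · simp only [e]
      exact (integrable_add_rpow hp0.le mF mH iF hB _).const_mul _
    · simp only [bergmanNorm, e]
      rw [integral_const_mul, ← hN, hc, Real.inv_rpow hc0.le, ← Real.rpow_mul hτ.le,
        one_div_mul_cancel hp0.ne', Real.rpow_one, inv_mul_cancel₀ hτ.ne', Real.one_rpow]

theorem result (p q q₁ : ℝ) (hp : 1 < p) (hq : q = p / (p - 1)) (hq₁ : 1 < q₁)
    (k F : ℂ → ℂ) (hk : MemBergman q k) (hF : IsExtremal p k F)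
    (hFH : MemHardy ((p - 1) * q₁) F) : MemHardy q₁ k := by
  subst hq
  have := isFinite_sigma
  have hp1 : 0 < p - 1 := by linarith
  have h2π : (0:ℝ) < 2 * π := by positivity
  obtain ⟨hFd, C, hC⟩ := hFH
  have hK : ∀ r ∈ Ioo (0:ℝ) 1, ∫ θ in (0:ℝ)..2 * π, ‖F (pt (r, θ))‖ ^ ((p - 1) * q₁) ≤
      2 * π * C ^ ((p - 1) * q₁) := by
    intro r hr
    have h1 := hC r hr
    rw [intMean_eq] at h1
    have h0 : 0 ≤ (2 * π)⁻¹ * ∫ θ in (0:ℝ)..2 * π, ‖F (pt (r, θ))‖ ^ ((p - 1) * q₁) :=
      mul_nonneg (by positivity)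
        (intervalIntegral.integral_nonneg h2π.le (fun θ _ => by positivity))
    have hs0 : 0 < (p - 1) * q₁ := by positivity
    have h2 := Real.rpow_le_rpow (by positivity) h1 hs0.le
    rwa [← Real.rpow_mul h0, one_div_mul_cancel hs0.ne', Real.rpow_one,
      inv_mul_le_iff₀ h2π] at h2
  have hq1 : 1 ≤ p / (p - 1) := by rw [one_le_div hp1]; linarith
  have ik : IntegrableOn k (ball (0:ℂ) 1) := by
    rw [← integrable_sigma_iff]
    apply Integrable.mono' (hk.2.add (integrable_const 1)) (aesm_sigma hk.1.continuousOn)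
    filter_upwards with z
    have := rpow_le_one_add (norm_nonneg (k z)) zero_le_one hq1
    rwa [Real.rpow_one] at this
  have hvar : ∀ (H : ℂ → ℂ) (M : ℝ), DifferentiableOn ℂ H (ball (0:ℂ) 1) →
      (∀ z ∈ ball (0:ℂ) 1, ‖H z‖ ≤ M) → ∫ z in ball (0:ℂ) 1, k z * conj (H z) =
        ((functional k F).re : ℂ) *
          ∫ z in ball (0:ℂ) 1, ((‖F z‖ ^ (p - 2) : ℝ) : ℂ) * F z * conj (H z) := by
    intro H M hH hM
    have h1 := variation hp hk hF hH hM
    have h2 := variation hp hk hF (H := fun z => Complex.I * H z) (M := M) (hH.const_mul _)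
      (fun z hz => by simpa using hM z hz)
    simp only [mul_assoc Complex.I] at h2
    rw [integral_const_mul, integral_const_mul] at h2
    have h3 : ∫ z, H z * conj (k z) ∂sigma = ((functional k F).re : ℂ) *
        ∫ z, H z * conj (((‖F z‖ ^ (p - 2) : ℝ) : ℂ) * F z) ∂sigma := by
      apply Complex.ext
      · rw [h1, Complex.re_ofReal_mul]
      · rw [Complex.im_ofReal_mul]
        simp only [Complex.mul_re, Complex.I_re, Complex.I_im, zero_mul, one_mul, zero_sub] at h2
        linarith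
    have h4 := congrArg conj h3
    rw [map_mul, Complex.conj_ofReal, ← integral_conj, ← integral_conj, integral_sigma,
      integral_sigma, mul_left_comm] at h4
    have h5 := mul_left_cancel₀ (Complex.ofReal_ne_zero.2 (by positivity)) h4
    simp only [map_mul, Complex.conj_conj, Complex.conj_ofReal] at h5
    simp only [mul_comm _ (conj (H _))]
    exact h5
  obtain ⟨D, hD⟩ := main_estimate hp hq₁ hFd hk.1 (integrable_sigma_iff.1 hF.1.2) ik
    (functional k F).re hvar hK
  refine ⟨hk.1, ((2 * π)⁻¹ * D) ^ (1 / q₁), fun r hr => ?_⟩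
  rw [intMean_eq]
  apply Real.rpow_le_rpow _ (mul_le_mul_of_nonneg_left (hD r hr) (by positivity))
    (by positivity)
  exact mul_nonneg (by positivity)
    (intervalIntegral.integral_nonneg h2π.le (fun θ _ => by positivity))

end Pool.Agent.Lib.Old.MP_397fae_an_HardyKernel
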