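import Mathlib
import Pool.Agent.Lib.MP_b03b3a_al.Quat

set_option autoImplicit false

open Pool.Agent.Lib.MP_b03b3a_al

namespace Pool.Agent.Lib.Old.Mb03b3aCounterexample

/-- A simply connected cube complex `X` with flag links that is a topological 4-manifold, a group
`G` acting freely, discontinuously, cubically and cocompactly on it, and an element `g ≠ 1` whose
stable centraliser is infinite cyclic although `g` is not a rank-one isometry of `X`. -/
theorem result :
    ∃ (H X G : Type) (_ : MetricSpace X) (_ : Group G) (_ : MulAction G X)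
      (K : Set ((H → Bool) × Finset H)) (ι : X → H → ℝ) (g : G),
      FaceClosed K ∧ FlagLinks K ∧ Realizes K ι ∧ SimplyConnectedSpace X ∧
      Nonempty (ChartedSpace (EuclideanSpace ℝ (Fin 4)) X) ∧ FreeCocompactCubical K ι G ∧
      g ≠ 1 ∧ IsInfiniteCyclic (stableCentraliser g) ∧ ¬ RankOne X g :=
  main

end Pool.Agent.Lib.Old.Mb03b3aCounterexample
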