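import Pool.Agent.Lib.MP_c8786f_co.W5.X6

/-!
Flows in cubic multigraphs (edge `e` oriented from `s e` to `t e`).  A vertex set contains a cycle
when it spans a nonempty set of edges in which all degrees are even.  If `p / q > 4 k / (k - 4)`,
every cyclically `k`-edge-connected cubic multigraph of girth at least `2 ^ (2 ^ 64 * (p k) ^ 5)`
has an integer flow with `q ≤ |f e| ≤ p - q`; for `k = 21`, `p = 5`, `q = 1` this is a
nowhere-zero five-flow.
-/

namespace Pool.Agent.Lib.Old.Mc8786fWeakFiveFlow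

open Finset

theorem result (k p q : ℕ) (h : 4 * k * q + 4 * p < p * k) :
    ∀ (V E : Type) [Fintype V] [Fintype E] [DecidableEq V] (s t : E → V) (cyc : Finset V → Prop),
    (∀ v, (univ.filter fun e => s e = v).card + (univ.filter fun e => t e = v).card = 3) →
    (∀ Y, cyc Y ↔ ∃ C : Finset E, C.Nonempty ∧ (∀ e ∈ C, s e ∈ Y ∧ t e ∈ Y) ∧
      ∀ v, Even ((C.filter fun e => s e = v).card + (C.filter fun e => t e = v).card)) →
    (∀ Y, cyc Y → 2 ^ (2 ^ 64 * (p * k) ^ 5) ≤ Y.card) →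
    (∀ Y, cyc Y → cyc Yᶜ → k ≤ (univ.filter fun e => ¬(s e ∈ Y ↔ t e ∈ Y)).card) →
    ∃ f : E → ℤ, (∀ e, (q : ℤ) ≤ |f e| ∧ |f e| ≤ p - q) ∧
      ∀ v, ∑ e ∈ univ.filter (fun e => s e = v), f e =
        ∑ e ∈ univ.filter (fun e => t e = v), f e :=
  Pool.Agent.Lib.MP_c8786f_co.W5.final2E k p q h

end Pool.Agent.Lib.Old.Mc8786fWeakFiveFlow
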