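import Pool.Agent.Lib.MP_de0dde_an.Solution

/-!
For every `T > 0` and every finite set `X` of points there is a Schwartz class solution of the
bad Boussinesq equation on `ℝ × [0,T)` that is unbounded near `(x₀, T)` for every `x₀ ∈ X`.
-/

namespace Pool.Agent.Lib.Old.Mde0ddeMultiBlowup

open Set Filter Topology Pool.Agent.Lib.MP_de0dde_an
open scoped ContDiff

lemma hasDerivAt_re {f : ℝ → ℂ} {a : ℂ} {x : ℝ} (h : HasDerivAt f a x) :
    HasDerivAt (fun y => (f y).re) a.re x :=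
  Complex.reCLM.hasFDerivAt.comp_hasDerivAt x h

lemma iteratedDeriv_re {U : ℕ → ℝ → ℂ} (h : ∀ j x, HasDerivAt (U j) (U (j + 1) x) x) (i : ℕ) :
    iteratedDeriv i (fun y => (U 0 y).re) = fun y => (U i y).re := by
  induction i with
  | zero => rfl
  | succ i ih =>
    rw [iteratedDeriv_succ, ih]
    funext y
    exact (hasDerivAt_re (h i y)).deriv

lemma poly_exp_le (N : ℕ) (x : ℝ) :
    (1 + |x|) ^ N * Real.exp (-(|x| / 2)) ≤ N.factorial * 2 ^ N * Real.exp (1 / 2) := by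
  have h := Real.pow_div_factorial_le_exp ((1 + |x|) / 2) (by positivity) N
  have hk : (0 : ℝ) < N.factorial := by exact_mod_cast Nat.factorial_pos N
  rw [div_le_iff₀ hk, div_pow, div_le_iff₀ (by positivity)] at h
  calc _ ≤ Real.exp ((1 + |x|) / 2) * N.factorial * 2 ^ N * Real.exp (-(|x| / 2)) := by gcongr
    _ = N.factorial * 2 ^ N * (Real.exp ((1 + |x|) / 2) * Real.exp (-(|x| / 2))) := by ring
    _ = _ := by rw [← Real.exp_add]; congr 2; ring

theorem result (T : ℝ) (hT : 0 < T) (X : Finset ℝ) :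
    ∃ u : ℝ → ℝ → ℝ,
      ContDiffOn ℝ ∞ (fun p : ℝ × ℝ => u p.1 p.2) (univ ×ˢ Ico 0 T) ∧
      (∀ x : ℝ, ∀ t ∈ Ico 0 T,
        iteratedDerivWithin 2 (fun τ => u x τ) (Ico 0 T) t =
          iteratedDeriv 2 (fun y => u y t) x + iteratedDeriv 2 (fun y => u y t ^ 2) x +
            iteratedDeriv 4 (fun y => u y t) x) ∧
      (∀ N : ℕ, 1 ≤ N → ∀ τ ∈ Ico 0 T, ∃ C : ℝ, ∀ x : ℝ, ∀ t ∈ Icc 0 τ,
        ∑ i ∈ Finset.range (N + 1), (1 + |x|) ^ N * |iteratedDeriv i (fun y => u y t) x| ≤ C) ∧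
      (∀ x₀ ∈ X, ∀ ε : ℝ, 0 < ε →
        ¬ ∃ C : ℝ, ∀ x t : ℝ, |x - x₀| < ε → T - ε < t → t ∈ Ico 0 T → |u x t| ≤ C) := by
  obtain ⟨U, W, V, hsm, xU, xW, tU, tV, hW, him, hdec, c, hc, C, hblow⟩ :=
    solution (S := T + 1) (by linarith) X
  have hmem : ∀ t ∈ Ico 0 T, T - t ∈ Ioo 0 (T + 1) := fun t ht =>
    ⟨by linarith [ht.2], by linarith [ht.1]⟩
  have hit : ∀ i, ∀ t ∈ Ico 0 T, iteratedDeriv i (fun y => (U 0 (y, T - t)).re) =
      fun y => (U i (y, T - t)).re := fun i t ht =>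
    iteratedDeriv_re (U := fun j y => U j (y, T - t)) (fun j x => xU j x _ (hmem t ht)) i
  refine ⟨fun x t => (U 0 (x, T - t)).re, ?_, fun x t ht => ?_, fun N _ τ hτ => ?_,
    fun x₀ hx₀ ε hε => ?_⟩
  · rw [contDiffOn_infty]
    intro n
    refine Complex.reCLM.contDiff.comp_contDiffOn
      ((hsm n).comp (f := fun p : ℝ × ℝ => (p.1, T - p.2)) (by fun_prop) ?_)
    intro p hp
    exact ⟨mem_univ _, hmem p.2 hp.2⟩
  · have hs := hmem t ht
    have hΩ : IsOpen ((univ : Set ℝ) ×ˢ Ioo 0 (T + 1)) := isOpen_univ.prod isOpen_Ioo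
    have h1 : ContDiffAt ℝ (2 : ℕ) (fun τ => (U 0 (x, T - τ)).re) t :=
      Complex.reCLM.contDiff.contDiffAt.comp t
        (ContDiffAt.comp (f := fun τ : ℝ => (x, T - τ)) t
          ((hsm 2).contDiffAt (hΩ.mem_nhds ⟨mem_univ _, hs⟩)) (by fun_prop))
    have hsq : (fun y => (U 0 (y, T - t)).re ^ 2) = fun y => (W 0 (y, T - t)).re := by
      funext y
      rw [hW y _ hs, Complex.mul_re, him y _ hs]; ring
    have hW2 := iteratedDeriv_re (U := fun j y => W j (y, T - t)) (fun j x => xW j x _ hs) 2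
    rw [iteratedDerivWithin_eq_iteratedDeriv (uniqueDiffOn_Ico 0 T) h1 ht, hsq, hW2, hit 2 t ht,
      hit 4 t ht, iteratedDeriv_succ, iteratedDeriv_one]
    have hneg : ∀ τ : ℝ, HasDerivAt (fun τ => T - τ) (-1) τ := fun τ =>
      (hasDerivAt_id τ).const_sub T
    have h2 : deriv (fun τ => (U 0 (x, T - τ)).re) =ᶠ[𝓝 t] fun τ => -(V (x, T - τ)).re := by
      have hn : ∀ᶠ τ in 𝓝 t, T - τ ∈ Ioo 0 (T + 1) :=
        (hneg t).continuousAt.eventually (isOpen_Ioo.mem_nhds hs)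
      filter_upwards [hn] with τ hτ
      have := ((hasDerivAt_re (tU x _ hτ)).comp τ (hneg τ)).deriv
      simpa [Function.comp_def] using this
    rw [h2.deriv_eq]
    have := (((hasDerivAt_re (tV x _ hs)).comp t (hneg t)).neg).deriv
    simp only [Complex.add_re] at this
    refine Eq.trans this ?_
    ring
  · choose Cf hCf using fun j => hdec j (T - τ) (by linarith [hτ.2])
    refine ⟨∑ i ∈ Finset.range (N + 1), |Cf i| * (N.factorial * 2 ^ N * Real.exp (1 / 2)),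
      fun x t ht => Finset.sum_le_sum fun i _ => ?_⟩
    rw [hit i t ⟨ht.1, ht.2.trans_lt hτ.2⟩]
    have h1 := hCf i x (T - t) ⟨by linarith [ht.2], by linarith [ht.1]⟩
    have h2 : |(U i (x, T - t)).re| ≤ |Cf i| * Real.exp (-(|x| / 2)) :=
      (Complex.abs_re_le_norm _).trans (h1.trans
        (mul_le_mul_of_nonneg_right (le_abs_self _) (Real.exp_pos _).le))
    calc _ ≤ (1 + |x|) ^ N * (|Cf i| * Real.exp (-(|x| / 2))) := by gcongr
      _ = |Cf i| * ((1 + |x|) ^ N * Real.exp (-(|x| / 2))) := by ring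
      _ ≤ _ := mul_le_mul_of_nonneg_left (poly_exp_le N x) (abs_nonneg _)
  · rintro ⟨B, hB⟩
    set r : ℝ := c / (|B| + |C| + 1) with hr
    have hr0 : 0 < r := by positivity
    set s : ℝ := min (min (ε / 2) T) (r ^ 2) with hsdef
    have hs0 : 0 < s := by positivity
    have hs1 : s ≤ ε / 2 := (min_le_left _ _).trans (min_le_left _ _)
    have hs2 : s ≤ T := (min_le_left _ _).trans (min_le_right _ _)
    have hs3 : √s ≤ r := Real.sqrt_le_iff.mpr ⟨hr0.le, min_le_right _ _⟩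
    have h1 := hB x₀ (T - s) (by simpa using hε) (by linarith) ⟨by linarith, by linarith⟩
    have h2 := hblow x₀ hx₀ s ⟨hs0, by linarith⟩
    simp only [sub_sub_cancel] at h1
    have h3 : r⁻¹ ≤ (√s)⁻¹ := inv_anti₀ (Real.sqrt_pos.mpr hs0) hs3
    have h4 : c * r⁻¹ = |B| + |C| + 1 := by rw [hr]; field_simp
    have h5 := mul_le_mul_of_nonneg_left h3 hc.le
    linarith [le_abs_self B, le_abs_self C, le_abs_self (U 0 (x₀, s)).re]

end Pool.Agent.Lib.Old.Mde0ddeMultiBlowup
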