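import Pool.Agent.Lib.MP_778288_lc.Reduce

open Pool.Agent.Lib.MP_778288_lc

/-- A polynomial time approximation of maximum Nash welfare for additive valuations within a
factor below the cube root of `81 / 65` gives `P = NP`, even for values in `{0, 1, H}`. -/
theorem Pool.Agent.Lib.Old.Nash778288Hardness.result (α : ℝ) (h1 : 1 ≤ α)
    (h2 : α < (81 / 65 : ℝ) ^ (1 / 3 : ℝ)) (A : List (List ℚ) → List ℕ)
    (hA : N68a2faeb.IsPolyTime A) (happ : IsApprox α A) : N68a2faeb.P = N68a2faeb.NP := by
  refine hardness (by linarith) ?_ hA happ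
  refine (pow_lt_pow_left₀ h2 (by linarith) three_ne_zero).trans_eq ?_
  rw [← Real.rpow_natCast, ← Real.rpow_mul (by norm_num)]
  norm_num
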