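import Pool.Agent.Lib.MP_453ac3_co.Both
import Pool.Agent.Lib.MP_453ac3_co.LB.Main
import Pool.Agent.Lib.MP_453ac3_co.UB.Main

namespace Pool.Agent.Lib.Old.P453ac3Asymptotic

open Pool.Agent.Lib.MP_453ac3_co Filter Topology

theorem result : Tendsto (fun n : ℕ => (deltaMin n : ℝ) / n) atTop (𝓝 (4 / 9)) :=
  tendsto_of_bounds LB.lower UB.ub

end Pool.Agent.Lib.Old.P453ac3Asymptotic
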