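import Pool.Agent.Lib.MP_453ac3_co.Eff.Two

namespace Pool.Agent.Lib.Old.P453ac3PowerSaving

open Pool.Agent.Lib.MP_453ac3_co

theorem result : ∃ (C : ℝ) (n0 : ℕ), ∀ n ≥ n0,
    4 / 9 * (n : ℝ) - C * Real.sqrt n ≤ deltaMin n ∧
      (deltaMin n : ℝ) ≤ 4 / 9 * (n : ℝ) + C * (n : ℝ) ^ (7 / 8 : ℝ) :=
  power_saving

end Pool.Agent.Lib.Old.P453ac3PowerSaving
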