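import Mathlib
import Pool.Agent.Lib.MP_4caafd_al.Defs

/-!
For `C` one of `T1S`, `T2S`, `TzS`, every ideally `C`-closed group is projectively `C`-closed.
-/

namespace Pool.Agent.Lib.Old.X4caafdGroupsPositive

open Pool.Agent.Lib.MP_4caafd_al Topology Filter Set

universe u

theorem mem_range_of_finite {X Y : Type u} [TopologicalSpace Y] [T1Space Y] (h : X → Y) {y : Y}
    (hy : y ∈ closure (range h))
    {V : Set Y} (hV : V ∈ 𝓝 y) (hfin : {x | h x ∈ V}.Finite) : y ∈ range h := by
  have h1 : y ∈ closure (h '' {x | h x ∈ V}) := by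
    rw [mem_closure_iff_nhds] at hy ⊢
    intro t ht
    obtain ⟨z, ⟨hzt, hzV⟩, x, rfl⟩ := hy (t ∩ V) (inter_mem ht hV)
    exact ⟨h x, hzt, x, hzV, rfl⟩
  rw [(hfin.image h).isClosed.closure_eq] at h1
  exact image_subset_range _ _ h1

/-- If `Q` has finite-to-one shifts, the remainder of `Q` is an ideal in its closure. -/
theorem mem_range_of_mul_mem {Q Y : Type u} [Semigroup Q] [Semigroup Y] [TopologicalSpace Y]
    [T1Space Y] [ContinuousMul Y] (h : Q →ₙ* Y) (hh : @IsEmbedding Q Y ⊥ _ h)
    (hL : ∀ a b : Q, {x | a * x = b}.Finite) (hR : ∀ a b : Q, {x | x * a = b}.Finite)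
    {a b : Y} (ha : a ∈ closure (range h)) (hb : b ∈ closure (range h))
    (hab : a * b ∈ range h) : a ∈ range h ∧ b ∈ range h := by
  let : TopologicalSpace Q := ⊥
  have : DiscreteTopology Q := ⟨rfl⟩
  obtain ⟨e, he⟩ := hab
  obtain ⟨W, hWo, hW⟩ := hh.isInducing.isOpen_iff.1 (isOpen_discrete ({e} : Set Q))
  have heW : h e ∈ W := by
    have : e ∈ h ⁻¹' W := by rw [hW]; rfl
    exact this
  have hn : (fun p : Y × Y => p.1 * p.2) ⁻¹' W ∈ 𝓝 (a, b) :=
    continuous_mul.continuousAt.preimage_mem_nhds (by simpa only [← he] using hWo.mem_nhds heW)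
  obtain ⟨V₁, hV₁, V₂, hV₂, hV⟩ := mem_nhds_prod_iff.1 hn
  have key : ∀ x x', h x ∈ V₁ → h x' ∈ V₂ → x * x' = e := by
    intro x x' hx hx'
    have h3 : h x * h x' ∈ W := hV (mk_mem_prod hx hx')
    rw [← map_mul] at h3
    have : x * x' ∈ h ⁻¹' W := h3
    rwa [hW] at this
  obtain ⟨_, hx₁, x₁, rfl⟩ := mem_closure_iff_nhds.1 ha V₁ hV₁
  obtain ⟨_, hx₂, x₂, rfl⟩ := mem_closure_iff_nhds.1 hb V₂ hV₂
  exact ⟨mem_range_of_finite h ha hV₁ ((hR x₂ e).subset fun x hx => key x x₂ hx hx₂),
    mem_range_of_finite h hb hV₂ ((hL x₁ e).subset fun x hx => key x₁ x hx₁ hx)⟩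

section Pullback

variable {X Y : Type u} [Semigroup X] [Semigroup Y] [TopologicalSpace Y]

/-- The data for the pull-back construction. -/
structure Data (X Y : Type u) [Semigroup X] [Semigroup Y] [TopologicalSpace Y] where
  f : X →ₙ* Y
  mul_mem : ∀ a ∈ closure (range f), ∀ b ∈ closure (range f), a * b ∈ closure (range f)
  ideal : ∀ a ∈ closure (range f), ∀ b ∈ closure (range f), a * b ∈ range f →
    a ∈ range f ∧ b ∈ range f

/-- The remainder. -/
def Data.K (D : Data X Y) : Type u := {y : Y // y ∈ closure (range D.f) ∧ y ∉ range D.f}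

/-- The pull-back: `X` together with the remainder. -/
inductive Data.Z (D : Data X Y) : Type u
  | inl (x : X) : Data.Z D
  | inr (k : D.K) : Data.Z D

variable (D : Data X Y)

/-- The projection to `Y`. -/
def Data.p : D.Z → Y
  | Data.Z.inl x => D.f x
  | Data.Z.inr k => k.1

theorem Data.p_mem (z : D.Z) : D.p z ∈ closure (range D.f) := by
  rcases z with x | k
  · exact subset_closure ⟨x, rfl⟩
  · exact k.2.1

/-- The multiplication of the pull-back. -/
def Data.mul : D.Z → D.Z → D.Z
  | Data.Z.inl a, Data.Z.inl b => Data.Z.inl (a * b)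
  | Data.Z.inl a, Data.Z.inr k => Data.Z.inr ⟨D.f a * k.1,
      D.mul_mem _ (subset_closure ⟨a, rfl⟩) _ k.2.1,
      fun H => k.2.2 (D.ideal _ (subset_closure ⟨a, rfl⟩) _ k.2.1 H).2⟩
  | Data.Z.inr k, Data.Z.inl b => Data.Z.inr ⟨k.1 * D.f b,
      D.mul_mem _ k.2.1 _ (subset_closure ⟨b, rfl⟩),
      fun H => k.2.2 (D.ideal _ k.2.1 _ (subset_closure ⟨b, rfl⟩) H).1⟩
  | Data.Z.inr k, Data.Z.inr l => Data.Z.inr ⟨k.1 * l.1, D.mul_mem _ k.2.1 _ l.2.1,
      fun H => k.2.2 (D.ideal _ k.2.1 _ l.2.1 H).1⟩

instance : Semigroup D.Z where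
  mul := D.mul
  mul_assoc a b c := by
    change D.mul (D.mul a b) c = D.mul a (D.mul b c)
    rcases a with a | a <;> rcases b with b | b <;> rcases c with c | c <;>
      simp only [Data.mul, mul_assoc, map_mul]

theorem Data.p_mul (a b : D.Z) : D.p (a * b) = D.p a * D.p b := by
  change D.p (D.mul a b) = _
  rcases a with a | a <;> rcases b with b | b <;> simp [Data.mul, Data.p]

open Classical in
/-- The map that induces the topology. -/
noncomputable def Data.emb (z : D.Z) : Y × (X → Bool) :=
  (D.p z, fun x => decide (z = Data.Z.inl x))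

noncomputable instance : TopologicalSpace D.Z := TopologicalSpace.induced D.emb inferInstance

theorem Data.emb_inj : Function.Injective D.emb := by
  intro a b hab
  have h1 := congrArg Prod.fst hab
  have h2 := congrArg Prod.snd hab
  simp only [Data.emb] at h1 h2
  rcases a with a | a
  · have := congrFun h2 a
    simp only [decide_true, true_eq_decide_iff] at this
    exact this.symm
  · rcases b with b | b
    · have := congrFun h2 b
      simp only [decide_true, decide_eq_true_eq] at this
      exact this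
    · exact congrArg Data.Z.inr (Subtype.ext h1)

theorem Data.isEmbedding_emb : IsEmbedding D.emb := ⟨⟨rfl⟩, D.emb_inj⟩

theorem Data.continuous_p : Continuous D.p :=
  continuous_fst.comp D.isEmbedding_emb.continuous

theorem Data.isClopen_singleton (x : X) : IsClopen ({Data.Z.inl x} : Set D.Z) := by
  have hc : Continuous fun z : D.Z => (D.emb z).2 x :=
    (continuous_apply x).comp (continuous_snd.comp D.isEmbedding_emb.continuous)
  have := (isClopen_discrete ({true} : Set Bool)).preimage hc
  convert this using 1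
  ext z
  simp [Data.emb]

theorem Data.comap_le [T1Space Y] (k : D.K) :
    comap D.p (𝓝 k.1) ≤ 𝓝 (Data.Z.inr k : D.Z) := by
  rw [D.isEmbedding_emb.isInducing.nhds_eq_comap, ← tendsto_iff_comap]
  refine Tendsto.prodMk_nhds tendsto_comap (tendsto_pi_nhds.2 fun x => ?_)
  have hne : k.1 ≠ D.f x := fun H => k.2.2 ⟨x, H.symm⟩
  have h1 : ∀ᶠ z in comap D.p (𝓝 k.1), D.p z ≠ D.f x :=
    tendsto_comap.eventually (isOpen_ne.mem_nhds hne)
  refine tendsto_const_nhds.congr' (h1.mono fun z hz => ?_)
  have : z ≠ Data.Z.inl x := fun H => hz (by rw [H]; rfl)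
  simp [this]

instance [T1Space Y] [ContinuousMul Y] : ContinuousMul D.Z where
  continuous_mul := by
    have hp : Continuous fun q : D.Z × D.Z => D.p q.1 * D.p q.2 :=
      (D.continuous_p.comp continuous_fst).mul (D.continuous_p.comp continuous_snd)
    refine D.isEmbedding_emb.isInducing.continuous_iff.2 (Continuous.prodMk ?_ ?_)
    · simpa only [D.p_mul] using hp
    · refine continuous_pi fun x => continuous_iff_continuousAt.2 ?_
      rintro ⟨a, b⟩
      by_cases hab : (∃ a' b' : X, a = Data.Z.inl a' ∧ b = Data.Z.inl b')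
      · obtain ⟨a', b', rfl, rfl⟩ := hab
        have ho : IsOpen ({Data.Z.inl a'} ×ˢ {Data.Z.inl b'} : Set (D.Z × D.Z)) :=
          (D.isClopen_singleton a').2.prod (D.isClopen_singleton b').2
        refine (continuousAt_const
          (y := (D.emb (Data.Z.inl a' * Data.Z.inl b')).2 x)).congr ?_
        filter_upwards [ho.mem_nhds (mk_mem_prod rfl rfl)]
        rintro ⟨c, d⟩ ⟨hc, hd⟩
        simp only [mem_singleton_iff] at hc hd
        subst hc hd
        rfl
      · have hne : D.p a * D.p b ≠ D.f x := by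
          intro H
          have := D.ideal _ (D.p_mem a) _ (D.p_mem b) ⟨x, H.symm⟩
          rcases a with a | a
          · rcases b with b | b
            · exact hab ⟨a, b, rfl, rfl⟩
            · exact b.2.2 this.2
          · exact a.2.2 this.1
        have h1 : ∀ᶠ q in 𝓝 (a, b), D.p q.1 * D.p q.2 ≠ D.f x :=
          hp.continuousAt.eventually_ne hne
        refine (continuousAt_const (y := false)).congr (h1.mono fun q hq => ?_)
        have : q.1 * q.2 ≠ Data.Z.inl x := fun H => hq (by rw [← D.p_mul, H]; rfl)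
        simp [this]

theorem Data.basis [T1Space Y]
    (hY : TopologicalSpace.IsTopologicalBasis {s : Set Y | IsClopen s}) :
    TopologicalSpace.IsTopologicalBasis {s : Set D.Z | IsClopen s} := by
  refine TopologicalSpace.isTopologicalBasis_of_isOpen_of_nhds (fun s hs => hs.2) ?_
  rintro (x | k) s hz hs
  · exact ⟨_, D.isClopen_singleton x, rfl, singleton_subset_iff.2 hz⟩
  · obtain ⟨V, hV, hVs⟩ := mem_comap.1 (D.comap_le k (hs.mem_nhds hz))
    obtain ⟨B, hB, hkB, hBV⟩ := hY.mem_nhds_iff.1 hV
    exact ⟨D.p ⁻¹' B, hB.preimage D.continuous_p, hkB, (preimage_mono hBV).trans hVs⟩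

/-- The inclusion of `X` in the pull-back. -/
def Data.incl : X →ₙ* D.Z where
  toFun := Data.Z.inl
  map_mul' _ _ := rfl

theorem Data.isEmbedding_incl : @IsEmbedding X D.Z ⊥ _ D.incl := by
  let : TopologicalSpace X := ⊥
  have : DiscreteTopology X := ⟨rfl⟩
  refine (IsOpenEmbedding.of_continuous_injective_isOpenMap continuous_of_discreteTopology
    (fun _ _ h => Data.Z.inl.inj h) fun s _ => ?_).isEmbedding
  rw [← biUnion_of_singleton s, image_iUnion₂]
  refine isOpen_biUnion fun x _ => ?_
  rw [image_singleton]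
  exact (D.isClopen_singleton x).2

theorem Data.isClosed_range [T1Space Y] (H : IsClosed (range D.incl)) :
    IsClosed (range D.f) := by
  refine closure_subset_iff_isClosed.1 fun y hy => by_contra fun hy' => ?_
  let k : D.K := ⟨y, hy, hy'⟩
  have h1 : (range D.incl)ᶜ ∈ 𝓝 (Data.Z.inr k : D.Z) :=
    H.isOpen_compl.mem_nhds (by rintro ⟨x, hx⟩; cases hx)
  obtain ⟨V, hV, hVs⟩ := mem_comap.1 (D.comap_le k h1)
  obtain ⟨_, hx, x, rfl⟩ := mem_closure_iff_nhds.1 hy V hV
  exact hVs (show (Data.Z.inl x : D.Z) ∈ D.p ⁻¹' V from hx) ⟨x, rfl⟩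

end Pullback

/-- A quotient with finite-to-one shifts of a `C`-closed semigroup is `C`-closed. -/
theorem isCClosed_of_surjective {C : SGClass.{u}} (hC : C = T1S ∨ C = T2S ∨ C = TzS)
    {X Q : Type u} [Semigroup X] [Semigroup Q] (q : X →ₙ* Q) (hq : Function.Surjective q)
    (hL : ∀ a b : Q, {x | a * x = b}.Finite) (hR : ∀ a b : Q, {x | x * a = b}.Finite)
    (hX : IsCClosed C X) : IsCClosed C Q := by
  intro Y _ _ hY h hh
  have hcm : ContinuousMul Y := by
    rcases hC with rfl | rfl | rfl <;> exact hY.1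
  have h1 : T1Space Y := by
    rcases hC with rfl | rfl | rfl
    · exact hY.2
    · have := hY.2; infer_instance
    · have := hY.2.1; infer_instance
  have hr : range (h.comp q) = range h := by rw [MulHom.coe_comp, hq.range_comp]
  let D : Data X Y :=
    { f := h.comp q
      mul_mem := fun a ha b hb => by
        refine map_mem_closure₂ continuous_mul ha hb ?_
        rintro _ ⟨x, rfl⟩ _ ⟨x', rfl⟩
        exact ⟨x * x', map_mul _ _ _⟩
      ideal := fun a ha b hb hab => by
        rw [hr] at ha hb hab ⊢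
        exact mem_range_of_mul_mem h hh hL hR ha hb hab }
  have hZ : C D.Z := by
    rcases hC with rfl | rfl | rfl
    · exact ⟨inferInstance, D.isEmbedding_emb.t1Space⟩
    · have := hY.2
      exact ⟨inferInstance, D.isEmbedding_emb.t2Space⟩
    · have := hY.2.1
      exact ⟨inferInstance, D.isEmbedding_emb.t2Space, D.basis hY.2.2⟩
  rw [← hr]
  exact D.isClosed_range (hX D.Z hZ D.incl D.isEmbedding_incl)

/-- For `C` one of the classes `T1S`, `T2S`, `TzS`, every ideally `C`-closed group is
projectively `C`-closed. -/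
theorem result (C : SGClass.{u}) (hC : C = T1S ∨ C = T2S ∨ C = TzS) (G : Type u) [Group G] :
    IsIdeallyClosed C G → IsProjectivelyClosed C G := by
  intro H c
  have hI : IsIdeal (∅ : Set G) := fun _ hx => hx.elim
  let q : (reesCon ∅ hI).Quotient →ₙ* c.Quotient :=
    { toFun := fun z => Con.liftOn z (fun x => (x : c.Quotient)) (fun x y hxy => by
        rcases hxy with h | h
        · exact h.1.elim
        · rw [h])
      map_mul' := fun a b => Con.induction_on₂ a b fun _ _ => rfl }
  have hq : Function.Surjective q := fun z => Con.induction_on z fun x =>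
    ⟨(x : (reesCon ∅ hI).Quotient), rfl⟩
  refine isCClosed_of_surjective hC q hq (fun a b => ?_) (fun a b => ?_) (H ∅ hI)
  · refine Set.Subsingleton.finite fun x hx y hy => ?_
    exact mul_left_cancel (G := c.Quotient) (hx.trans hy.symm)
  · refine Set.Subsingleton.finite fun x hx y hy => ?_
    exact mul_right_cancel (G := c.Quotient) (hx.trans hy.symm)

end Pool.Agent.Lib.Old.X4caafdGroupsPositive
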