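import Pool.Agent.Lib.MP_6083a5_an.NestedD

/-!
For a nested sequence of nodes the Lebesgue functions grow like a power of `n` along a
subsequence, at almost every point.
-/

open Filter Set MeasureTheory

namespace Pool.Agent.Lib.Old.X6083a5PolynomialGrowth

open Pool.Agent.Lib.MP_6083a5_an.Nested in
theorem result (x : ℕ → ℝ) (hinj : Function.Injective x) (hmem : ∀ k, x k ∈ Icc (-1 : ℝ) 1) :
    ∀ᵐ y ∂volume.restrict (Ioo (-1 : ℝ) 1), ∃ c : ℝ, 0 < c ∧ ∃ᶠ n : ℕ in atTop,
      (n : ℝ) ^ c ≤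
        ∑ k ∈ Finset.range n, |∏ i ∈ (Finset.range n).erase k, (y - x i) / (x k - x i)| := by
  have hL : ∀ (n : ℕ) (y : ℝ), leb x n y
      = ∑ k ∈ Finset.range n, |∏ i ∈ (Finset.range n).erase k, (y - x i) / (x k - x i)| := by
    intro n y
    refine Finset.sum_congr rfl fun k _ => ?_
    congr 1
    rw [Lagrange.basis, Polynomial.eval_prod]
    refine Finset.prod_congr rfl fun i _ => ?_
    simp [Lagrange.basisDivisor, div_eq_inv_mul]
  simp only [← hL]
  rw [ae_restrict_iff' measurableSet_Ioo, ae_iff]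
  refine le_antisymm (ENNReal.le_of_forall_pos_le_add fun e he _ => ?_) zero_le
  obtain ⟨c, hc, h⟩ := small_set (e0 := e) he
  set F : ℕ → Set ℝ := fun N => {y ∈ Icc (-1 : ℝ) 1 | ∀ n, N ≤ n → leb x n y ≤ (n : ℝ) ^ c}
    with hF
  have hmono : Monotone F := fun N M hNM y hy => ⟨hy.1, fun n hn => hy.2 n (hNM.trans hn)⟩
  have hle : volume (⋃ N, F N) ≤ e := by
    rw [hmono.measure_iUnion]
    refine iSup_le fun N => ?_
    have hf : volume (F N) ≠ ⊤ :=
      ((measure_mono fun y hy => hy.1).trans_lt isCompact_Icc.measure_lt_top).ne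
    rw [← ENNReal.ofReal_toReal hf, ← ENNReal.ofReal_coe_nnreal]
    exact ENNReal.ofReal_le_ofReal (h x hinj hmem N).le
  rw [zero_add]
  refine (measure_mono fun y hy => ?_).trans hle
  simp only [mem_ofPred_eq, Classical.not_imp, not_exists, not_and, not_frequently, not_le] at hy
  obtain ⟨N, hN⟩ := eventually_atTop.1 (hy.2 c hc)
  exact mem_iUnion.2 ⟨N, Ioo_subset_Icc_self hy.1, fun n hn => (hN n hn).le⟩

end Pool.Agent.Lib.Old.X6083a5PolynomialGrowth
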